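import Pool.Agent.H420R5.HE.Final

/-!
Assembly: general Hénon maps, the bound with one dominating place, the bound in the number of bad
places.
-/

namespace H420R5

open Polynomial NumberField

universe u

/-- The generalized Hénon map `f(x, y) = (y, F(y) - δ x)` on `K²`. -/
def henon {K : Type u} [Field K] (F : K[X]) (δ : K) : K × K → K × K :=
  fun P => (P.2, F.eval P.2 - δ * P.1)

/-- `P` is a periodic point of the Hénon map. -/
def Per {K : Type u} [Field K] (F : K[X]) (δ : K) (P : K × K) : Prop :=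
  ∃ n : ℕ, 1 ≤ n ∧ (henon F δ)^[n] P = P

/-- The translation constant `μ = -a_(d-1) / (d a_d)`. -/
noncomputable def shift {K : Type u} [Field K] (F : K[X]) : K :=
  -F.coeff (F.natDegree - 1) / (F.natDegree * F.leadingCoeff)

/-- The centred polynomial `F(y + μ) - (1 + δ) μ`: the Hénon map of `F` is conjugate to that of the
centred polynomial by the translation by `(μ, μ)`. -/
noncomputable def centred {K : Type u} [Field K] (F : K[X]) (δ : K) : K[X] :=
  F.comp (X + C (shift F)) - C ((1 + δ) * shift F)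

/-- The local radius of the Hénon map at an absolute value `v` of `K`. -/
noncomputable def locRad {K : Type u} [Field K] (F : K[X]) (δ : K) (v : AbsoluteValue K ℝ) : ℝ :=
  rad (centred F δ) δ v

/-- The height of the Hénon map: sum of the logarithms of the local radii over all places. -/
noncomputable def height {K : Type u} [Field K] [NumberField K] (F : K[X]) (δ : K) : ℝ :=
  ∑ w : InfinitePlace K, (w.mult : ℝ) * Real.log (locRad F δ w.val)
    + ∑ᶠ v : FinitePlace K, Real.log (locRad F δ v.val)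

section general

variable {K : Type u} [Field K]

lemma centred_coeff_top (F : K[X]) (δ : K) (j : ℕ) (hj : 1 ≤ j) :
    (centred F δ).coeff j = (F.comp (X + C (shift F))).coeff j := by
  rw [centred, coeff_sub, coeff_C_ne_zero (by omega), sub_zero]

lemma centred_natDegree (F : K[X]) (hd : 2 ≤ F.natDegree) (δ : K) :
    (centred F δ).natDegree = F.natDegree := by
  rw [centred, natDegree_sub_C, natDegree_comp, natDegree_X_add_C, mul_one]

lemma centred_leading (F : K[X]) (hd : 2 ≤ F.natDegree) (δ : K) :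
    (centred F δ).leadingCoeff = F.leadingCoeff := by
  rw [leadingCoeff, centred_natDegree F hd, centred_coeff_top F δ _ (by omega)]
  have h1 : (F.comp (X + C (shift F))).natDegree = F.natDegree := by
    rw [natDegree_comp, natDegree_X_add_C, mul_one]
  rw [← h1]
  change (F.comp (X + C (shift F))).leadingCoeff = _
  rw [leadingCoeff_comp (by rw [natDegree_X_add_C]; exact one_ne_zero), leadingCoeff_X_add_C,
    one_pow, mul_one]

lemma centred_coeff [CharZero K] (F : K[X]) (hd : 2 ≤ F.natDegree) (δ : K) :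
    (centred F δ).coeff (F.natDegree - 1) = 0 := by
  have h0 : F ≠ 0 := by rintro rfl; simp at hd
  have ha : F.leadingCoeff ≠ 0 := by simpa using h0
  have hdn : ((F.natDegree : ℕ) : K) ≠ 0 := by exact_mod_cast (by omega : F.natDegree ≠ 0)
  rw [centred_coeff_top F δ _ (by omega)]
  have h1 : F.comp (X + C (shift F)) = taylor (shift F) F := rfl
  rw [h1, taylor_coeff]
  have h2 : ∀ r : K, (hasseDeriv (F.natDegree - 1) F).eval r
      = ∑ i ∈ Finset.range (F.natDegree + 1),
        ((i.choose (F.natDegree - 1) : ℕ) : K) * F.coeff i * r ^ (i - (F.natDegree - 1)) := by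
    intro r
    rw [hasseDeriv_apply, sum_over_range' _ (by simp) (F.natDegree + 1) (Nat.lt_succ_self _),
      eval_finset_sum]
    refine Finset.sum_congr rfl fun i _ => ?_
    rw [eval_monomial]
  rw [h2]
  obtain ⟨k, hk⟩ : ∃ k, F.natDegree = k + 1 := ⟨F.natDegree - 1, by omega⟩
  have hk' : F.natDegree - 1 = k := by omega
  rw [shift, hk', hk, Finset.sum_range_succ, Finset.sum_range_succ, Finset.sum_eq_zero (by
    intro i hi
    rw [Nat.choose_eq_zero_of_lt (Finset.mem_range.1 hi)]
    simp)]
  have ha' : F.coeff (k + 1) = F.leadingCoeff := by rw [leadingCoeff, hk]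
  rw [hk] at hdn
  simp only [Nat.choose_self, Nat.cast_one, one_mul, tsub_self, pow_zero, mul_one, zero_add,
    Nat.choose_succ_self_right, add_tsub_cancel_left, pow_one, ha']
  have h5 : ((k + 1 : ℕ) : K) ≠ 0 := hdn
  field_simp
  ring

lemma centred_eval (F : K[X]) (δ y : K) :
    (centred F δ).eval y = F.eval (y + shift F) - (1 + δ) * shift F := by
  rw [centred, eval_sub, eval_comp, eval_add, eval_X, eval_C, eval_C]

/-- periodic points give a family of orbits -/
lemma exists_fam (F : K[X]) (δ : K) (S : Finset (K × K)) (hS : ∀ P ∈ S, Per F δ P) :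
    ∃ X : ℤ → (K × K) → K, Fam (centred F δ) δ S X := by
  classical
  have h : ∀ P : K × K, ∃ x : ℤ → K, P ∈ S → (Orb F δ x ∧ x 0 = P.1 ∧ x 1 = P.2 ∧
      (Set.range x).Finite) := by
    intro P
    by_cases hP : P ∈ S
    · obtain ⟨n, hn, hn'⟩ := hS P hP
      obtain ⟨x, hx⟩ := orb_of_periodic F δ P n hn hn'
      exact ⟨x, fun _ => hx⟩
    · exact ⟨0, fun h => absurd h hP⟩
  choose x hx using h
  refine ⟨fun i P => x P i - shift F, ?_, ?_, ?_⟩
  · intro P hP i
    have := (hx P hP).1 i
    simp only [centred_eval, sub_add_cancel]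
    rw [← this]
    ring
  · intro P hP
    exact ((hx P hP).2.2.2.image (fun y => y - shift F)).subset (by
      rintro _ ⟨i, rfl⟩
      exact ⟨x P i, ⟨i, rfl⟩, rfl⟩)
  · intro P hP Q hQ h1 h2
    obtain ⟨_, hP0, hP1, _⟩ := hx P hP
    obtain ⟨_, hQ0, hQ1, _⟩ := hx Q hQ
    simp only [hP0, hQ0, hP1, hQ1, sub_left_inj] at h1 h2
    exact Prod.ext h1 h2

end general

section count

variable {K : Type u} [Field K] [NumberField K]

lemma height_eq (F : K[X]) (δ : K) : height F δ = hgt (centred F δ) δ := rfl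

/-- constants -/
noncomputable def Cs (d : ℕ) (B0 : ℝ) : ℝ :=
  (10 * (((d : ℝ) + 1) * B0 * Real.exp (1 + B0))) ^ 4 * (144 * (10 * d ^ 2) ^ 4)

lemma Cs_pos (d : ℕ) (B0 : ℝ) (hB0 : 1 ≤ B0) (hd : 2 ≤ d) : 0 < Cs d B0 := by
  rw [Cs]
  have : (0 : ℝ) < d := by exact_mod_cast (by omega : 0 < d)
  positivity

lemma count_small (d : ℕ) (hd : 2 ≤ d) (B0 : ℝ) (hB0 : 1 ≤ B0) (F : K[X]) (hF : F.natDegree = d)
    (δ : K) (hδ : δ ≠ 0) (S : Finset (K × K)) (hS : ∀ P ∈ S, Per F δ P) (w : InfinitePlace K)
    (h1 : locRad F δ w.val ≤ B0) (h2 : -Real.log (w.val δ) ≤ B0) (c x : ℝ) (hc : 1 ≤ c)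
    (hx : 0 ≤ x) (hcx : height F δ + Module.finrank ℚ K ≤ c * x) :
    (S.card : ℝ) ≤ Cs d B0 * c ^ 4 * (x * Real.log (1 + x)) ^ 2 := by
  obtain ⟨X, hX⟩ := exists_fam F δ S hS
  have hd2 : 2 ≤ F.natDegree := by omega
  have key := count_inf_small d B0 hB0 (F := centred F δ) (by rw [centred_natDegree F hd2, hF]) hd
    (by rw [← hF]; exact centred_coeff F hd2 δ) hδ hX w h1 h2 (c * x) hcx
  have h7 := xlog_mono (c := c) (x := x) (y := c * x) hc hx (by positivity) le_rfl
  calc (S.card : ℝ) ≤ _ := key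
    _ ≤ (10 * (((d : ℝ) + 1) * B0 * Real.exp (1 + B0))) ^ 4 *
      (144 * ((10 * d ^ 2) ^ 4 * (c ^ 4 * (x * Real.log (1 + x)) ^ 2))) := by gcongr
    _ = _ := by rw [Cs]; ring

/-- heights below `1/2` -/
lemma count_low (d : ℕ) (hd : 2 ≤ d) (F : K[X]) (hF : F.natDegree = d)
    (δ : K) (hδ : δ ≠ 0) (S : Finset (K × K)) (hS : ∀ P ∈ S, Per F δ P)
    (hH : height F δ ≤ 1 / 2) (r : ℝ) (hr : 1 ≤ r) :
    (S.card : ℝ) ≤ Cs d d * 2 ^ 4 *
      ((Module.finrank ℚ K * r) * Real.log (1 + Module.finrank ℚ K * r)) ^ 2 := by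
  obtain ⟨w⟩ := (inferInstance : Nonempty (InfinitePlace K))
  have hd2 : 2 ≤ F.natDegree := by omega
  have hdc : 2 ≤ (centred F δ).natDegree := by rw [centred_natDegree F hd2]; exact hd2
  have hd' : (2 : ℝ) ≤ d := by exact_mod_cast hd
  have hm : (1 : ℝ) ≤ w.mult := by exact_mod_cast w.one_le_mult
  have hD := finrank_ge_one' (K := K)
  have hH0 : 0 ≤ height F δ := hgt_nonneg (centred F δ) δ
  refine count_small d hd d (by linarith) F hF δ hδ S hS w ?_ ?_ 2 _ (by norm_num)
    (by positivity) (by nlinarith)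
  · have h1 := inf_le_hgt (centred F δ) δ w
    rw [← height_eq] at h1
    have h2 : 0 ≤ Real.log (locRad F δ w.val) := Real.log_nonneg (one_le_rad _ _ _)
    have h3 : Real.log (locRad F δ w.val) ≤ 1 / 2 := by
      have : (w.mult : ℝ) * Real.log (locRad F δ w.val) ≤ height F δ := h1
      nlinarith
    have h4 : locRad F δ w.val ≤ Real.exp (1 / 2) := by
      rw [← Real.log_le_iff_le_exp (by
        have : 1 ≤ locRad F δ w.val := one_le_rad _ _ _
        linarith)]
      exact h3
    have h5 : Real.exp (1 / 2) ≤ 2 := by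
      have h6 : Real.exp (1 / 2) ^ 2 ≤ 2 ^ 2 := by
        rw [← Real.exp_nat_mul]
        have := Real.exp_one_lt_d9
        norm_num
        linarith
      exact (pow_le_pow_iff_left₀ (Real.exp_pos _).le (by norm_num) (by norm_num)).1 h6
    linarith
  · have h1 := neg_log_delta_le (centred F δ) hdc δ hδ w
    rw [← height_eq, centred_natDegree F hd2, hF] at h1
    nlinarith

/-- the bound with one dominating place -/
theorem dominating (d : ℕ) (hd : 2 ≤ d) : ∃ C : ℝ, 0 < C ∧
    ∀ (K : Type u) [Field K] [NumberField K] (F : K[X]) (δ : K), F.natDegree = d → δ ≠ 0 →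
      ∀ r : ℝ, 1 ≤ r →
      ((∃ w : InfinitePlace K,
          |Real.log (w.val δ)| ≤ 1 / 4 * Real.log (locRad F δ w.val) ∧
          height F δ ≤ r * (w.mult * Real.log (locRad F δ w.val))) ∨
        (∃ v : FinitePlace K,
          |Real.log (v.val δ)| ≤ 1 / 4 * Real.log (locRad F δ v.val) ∧
          1 < v.val (d : K) ^ 16 * locRad F δ v.val ∧
          height F δ ≤ r * Real.log (locRad F δ v.val))) →
      ∀ S : Finset (K × K), (∀ P ∈ S, Per F δ P) →
        (S.card : ℝ) ≤ C * ((Module.finrank ℚ K * r) *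
          Real.log (1 + Module.finrank ℚ K * r)) ^ 2 := by
  have hd' : (2 : ℝ) ≤ d := by exact_mod_cast hd
  set C1 := Cs d d * 2 ^ 4 with hC1
  set C2 := Cs d (2 ^ (100 * d)) * (200 * d + 1) ^ 4 with hC2
  set C3 := (d : ℝ) ^ 6 * (144 * (160 * (d : ℝ) ^ 3) ^ 4) * 3 ^ 4 with hC3
  set C4 := (d : ℝ) ^ 6 * (144 * (80 * (d : ℝ) ^ 3) ^ 4) * 3 ^ 4 with hC4
  have hC1p : 0 < C1 := mul_pos (Cs_pos d d (by linarith) hd) (by norm_num)
  have hC2p : 0 < C2 := mul_pos (Cs_pos d _ (one_le_pow₀ (by norm_num)) hd) (by positivity)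
  have hC3p : 0 < C3 := by positivity
  have hC4p : 0 < C4 := by positivity
  refine ⟨C1 + C2 + C3 + C4, by positivity, ?_⟩
  intro K _ _ F δ hF hδ r hr hplace S hS
  have hD := finrank_ge_one' (K := K)
  set D : ℝ := (Module.finrank ℚ K : ℝ) with hDdef
  set T := ((D * r) * Real.log (1 + D * r)) ^ 2 with hT
  have hT0 : 0 ≤ T := sq_nonneg _
  have hd2 : 2 ≤ F.natDegree := by omega
  have hdc : (centred F δ).natDegree = d := by rw [centred_natDegree F hd2, hF]
  have hcc : (centred F δ).coeff (d - 1) = 0 := by rw [← hF]; exact centred_coeff F hd2 δ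
  have hlog2 : 0 < Real.log 2 := Real.log_pos (by norm_num)
  have hlog2' : Real.log 2 ≤ 1 := by
    have := Real.log_le_sub_one_of_pos (x := 2) (by norm_num)
    linarith
  rcases le_or_gt (height F δ) (1 / 2) with hH | hH
  · have := count_low d hd F hF δ hδ S hS hH r hr
    calc (S.card : ℝ) ≤ C1 * T := this
      _ ≤ (C1 + C2 + C3 + C4) * T := mul_le_mul_of_nonneg_right (by linarith) hT0
  have hx3 : height F δ + D ≤ 3 * D * height F δ := by nlinarith
  obtain ⟨X, hX⟩ := exists_fam F δ S hS
  rcases hplace with ⟨w, hw1, hw2⟩ | ⟨v, hv1, hv2, hv3⟩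
  · have hm : (1 : ℝ) ≤ w.mult := by exact_mod_cast w.one_le_mult
    have hm2 : (w.mult : ℝ) ≤ 2 := by
      have : w.mult ≤ 2 := by rw [InfinitePlace.mult]; split_ifs <;> norm_num
      exact_mod_cast this
    rcases le_or_gt ((2 : ℝ) ^ (100 * d)) (locRad F δ w.val) with hbig | hsmall
    · have key := count_inf_big d hdc hd hcc hδ hX w hw1 hbig (3 * (D * r)) (by
        have h5 : 3 * D * height F δ ≤ 3 * D * (r * (w.mult * Real.log (locRad F δ w.val))) :=
          mul_le_mul_of_nonneg_left hw2 (by positivity)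
        have h6 : hgt (centred F δ) δ + D ≤ 3 * D * height F δ := hx3
        calc _ ≤ _ := h6
          _ ≤ _ := h5
          _ = _ := by rw [locRad]; ring)
      have h7 := xlog_mono (c := 3) (x := D * r) (y := 3 * (D * r)) (by norm_num)
        (by positivity) (by positivity) le_rfl
      calc (S.card : ℝ) ≤ _ := key
        _ ≤ d ^ 6 * (144 * ((160 * d ^ 3) ^ 4 * (3 ^ 4 * T))) := by gcongr
        _ = C3 * T := by rw [hC3]; ring
        _ ≤ _ := mul_le_mul_of_nonneg_right (by linarith) hT0
    · have hr1 : 1 ≤ locRad F δ w.val := one_le_rad _ _ _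
      have hL : Real.log (locRad F δ w.val) ≤ 100 * d * Real.log 2 := by
        have := Real.log_le_log (by linarith) hsmall.le
        rw [Real.log_pow] at this
        push_cast at this
        exact this
      have hL0 : 0 ≤ Real.log (locRad F δ w.val) := Real.log_nonneg hr1
      have hL1 : Real.log (locRad F δ w.val) ≤ 100 * d := by nlinarith
      have key := count_small d hd (2 ^ (100 * d)) (one_le_pow₀ (by norm_num)) F hF δ hδ S hS w
        hsmall.le (by
          have h5 := (abs_le.1 hw1).1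
          have h6 : (d : ℝ) < 2 ^ d := by exact_mod_cast Nat.lt_two_pow_self
          have h7 : (2 : ℝ) ^ (100 * d) = (2 : ℝ) ^ (99 * d) * 2 ^ d := by rw [← pow_add]; ring_nf
          have h8 : (100 : ℝ) ≤ 2 ^ (99 * d) := by
            calc (100 : ℝ) ≤ 2 ^ 7 := by norm_num
              _ ≤ 2 ^ (99 * d) := pow_le_pow_right₀ (by norm_num) (by omega)
          nlinarith)
        (200 * d + 1) (D * r) (by linarith) (by positivity) (by
          have h5 : r * (w.mult * Real.log (locRad F δ w.val)) ≤ r * (2 * (100 * d)) := by gcongr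
          have h6 : r * (2 * (100 * (d : ℝ))) ≤ D * (r * (2 * (100 * d))) :=
            le_mul_of_one_le_left (by positivity) hD
          have h7 : D ≤ D * r := le_mul_of_one_le_right (by linarith) hr
          nlinarith)
      calc (S.card : ℝ) ≤ C2 * T := key
        _ ≤ _ := mul_le_mul_of_nonneg_right (by linarith) hT0
  · have key := count_fin d hdc hd hcc hδ hX v hv1 hv2 (3 * (D * r)) (by
      have h5 : 3 * D * height F δ ≤ 3 * D * (r * Real.log (locRad F δ v.val)) :=
        mul_le_mul_of_nonneg_left hv3 (by positivity)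
      have h6 : hgt (centred F δ) δ + D ≤ 3 * D * height F δ := hx3
      calc _ ≤ _ := h6
        _ ≤ _ := h5
        _ = _ := by rw [locRad]; ring)
    have h7 := xlog_mono (c := 3) (x := D * r) (y := 3 * (D * r)) (by norm_num)
      (by positivity) (by positivity) le_rfl
    calc (S.card : ℝ) ≤ _ := key
      _ ≤ d ^ 6 * (144 * ((80 * d ^ 3) ^ 4 * (3 ^ 4 * T))) := by gcongr
      _ = C4 * T := by rw [hC4]; ring
      _ ≤ _ := mul_le_mul_of_nonneg_right (by linarith) hT0

lemma bad_finite (F : K[X]) (hd : 2 ≤ F.natDegree) (δ : K) (hδ : δ ≠ 0) :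
    {v : FinitePlace K | locRad F δ v.val ≠ 1}.Finite := by
  have h := FS_rad (centred F δ) (by rw [centred_natDegree F hd]; exact hd) δ hδ
  refine h.subset ?_
  intro v hv hcon
  apply hv
  have h1 : 1 ≤ locRad F δ v.val := one_le_rad _ _ _
  have h2 : Real.log (locRad F δ v.val) = 0 := hcon
  rcases Real.log_eq_zero.1 h2 with h | h | h <;> linarith

/-- some place carries a large part of the height -/
lemma exists_large_place (F : K[X]) (hd : 2 ≤ F.natDegree) (δ : K) (hδ : δ ≠ 0)
    (hH : 0 < height F δ) (N : ℝ)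
    (hN : (Module.finrank ℚ K : ℝ) + {v : FinitePlace K | locRad F δ v.val ≠ 1}.ncard ≤ N) :
    (∃ w : InfinitePlace K, height F δ ≤ N * (w.mult * Real.log (locRad F δ w.val))) ∨
      (∃ v : FinitePlace K, height F δ ≤ N * Real.log (locRad F δ v.val)) := by
  classical
  by_contra hcon
  push Not at hcon
  obtain ⟨h1, h2⟩ := hcon
  have hD := finrank_ge_one' (K := K)
  have hN0 : 0 < N := by
    have : (0 : ℝ) ≤ ({v : FinitePlace K | locRad F δ v.val ≠ 1}.ncard : ℝ) := by positivity
    linarith
  have hfin := bad_finite F hd δ hδ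
  set B := hfin.toFinset with hB
  have hcard : {v : FinitePlace K | locRad F δ v.val ≠ 1}.ncard = B.card :=
    Set.ncard_eq_toFinset_card _ hfin
  have e1 : ∑ᶠ v : FinitePlace K, Real.log (locRad F δ v.val)
      = ∑ v ∈ B, Real.log (locRad F δ v.val) := by
    refine finsum_eq_sum_of_support_subset _ ?_
    intro v hv
    rw [hB, Set.Finite.coe_toFinset]
    intro h
    apply hv
    change Real.log (locRad F δ v.val) = 0
    rw [h, Real.log_one]
  have e2 : N * ∑ v ∈ B, Real.log (locRad F δ v.val) ≤ B.card * height F δ := by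
    rw [Finset.mul_sum, ← nsmul_eq_mul]
    exact Finset.sum_le_card_nsmul _ _ _ fun v _ => (h2 v).le
  have e3 : N * ∑ w : InfinitePlace K, (w.mult : ℝ) * Real.log (locRad F δ w.val)
      < (Fintype.card (InfinitePlace K)) * height F δ := by
    rw [Finset.mul_sum]
    calc _ < ∑ _w : InfinitePlace K, height F δ :=
          Finset.sum_lt_sum_of_nonempty Finset.univ_nonempty fun w _ => h1 w
      _ = _ := by simp
  have e4 : (Fintype.card (InfinitePlace K) : ℝ) ≤ Module.finrank ℚ K := by
    rw [← sum_mult]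
    calc (Fintype.card (InfinitePlace K) : ℝ) = ∑ _w : InfinitePlace K, (1 : ℝ) := by simp
      _ ≤ _ := Finset.sum_le_sum fun w _ => by exact_mod_cast w.one_le_mult
  have e5 : N * height F δ < N * height F δ := by
    calc N * height F δ = N * ∑ w : InfinitePlace K, (w.mult : ℝ) * Real.log (locRad F δ w.val)
          + N * ∑ v ∈ B, Real.log (locRad F δ v.val) := by rw [height, e1]; ring
      _ < (Fintype.card (InfinitePlace K)) * height F δ + B.card * height F δ :=
          add_lt_add_of_lt_of_le e3 e2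
      _ ≤ N * height F δ := by
          rw [← add_mul]
          refine mul_le_mul_of_nonneg_right ?_ hH.le
          rw [hcard] at hN
          linarith
  exact lt_irrefl _ e5

/-- size of an integer at a finite place -/
lemma neg_log_natCast_le (d : ℕ) (hd : 2 ≤ d) (v : FinitePlace K) :
    -Real.log (v.val (d : K)) ≤ Module.finrank ℚ K * Real.log d := by
  have hd0 : (d : K) ≠ 0 := by exact_mod_cast (by omega : d ≠ 0)
  have hFS0 : FS (K := K) (fun _ => (0 : ℝ)) := by
    rw [FS]; simp
  have htot : tot (K := K) (fun _ => (0 : ℝ)) = 0 := by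
    rw [tot]; simp
  have h := tot_le_fin (FS_log hd0) hFS0 (Real.log d) (-Real.log (v.val (d : K))) v
    (fun v => Real.log_nonpos (v.val.nonneg _)
      (IsNonarchimedean.apply_natCast_le_one (FinitePlace.add_le v)))
    (fun w => by
      have : w.val (d : K) = d := by
        have := InfinitePlace.norm_embedding_eq w (d : K)
        rw [map_natCast] at this
        have h2 : ‖(d : ℂ)‖ = (d : ℝ) := by simp
        rw [h2] at this
        exact this.symm
      rw [this]
      simp) (by simp)
  rw [tot_log hd0, htot] at h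
  linarith

end count

/-- the bound in terms of the number of bad places -/
theorem bad_places (d : ℕ) (hd : 2 ≤ d) (D : ℕ) : ∃ C : ℝ, 0 < C ∧
    ∀ (K : Type u) [Field K] [NumberField K] (F : K[X]) (δ : K), Module.finrank ℚ K = D →
      F.natDegree = d → δ ≠ 0 →
      (∀ w : InfinitePlace K, |Real.log (w.val δ)| ≤ 1 / 4 * Real.log (locRad F δ w.val)) →
      (∀ v : FinitePlace K, |Real.log (v.val δ)| ≤ 1 / 4 * Real.log (locRad F δ v.val)) →
      ∀ s : ℕ, 1 + {v : FinitePlace K | locRad F δ v.val ≠ 1}.ncard ≤ s →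
      ∀ S : Finset (K × K), (∀ P ∈ S, Per F δ P) →
        (S.card : ℝ) ≤ C * (s * Real.log (1 + s)) ^ 2 := by
  obtain ⟨C0, hC0, hdom⟩ := dominating.{u} d hd
  have hd' : (2 : ℝ) ≤ d := by exact_mod_cast hd
  set D' : ℝ := max 1 (D : ℝ) with hD'
  have hD'1 : 1 ≤ D' := le_max_left _ _
  have hlogd : 0 ≤ Real.log (d : ℝ) := Real.log_nonneg (by linarith)
  set B0 : ℝ := max 1 (max (Real.exp (16 * D' * Real.log d)) (4 * D' * Real.log d)) with hB0
  have hB01 : 1 ≤ B0 := le_max_left _ _
  set C1 := Cs d d * 2 ^ 4 * D' ^ 4 with hC1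
  set C2 := C0 * (D' * (D' + 1)) ^ 4 with hC2
  set c3 := (D' + 1) * (16 * D' * Real.log d) + D' with hc3
  have hc31 : 1 ≤ c3 := by
    have : 0 ≤ (D' + 1) * (16 * D' * Real.log d) := by positivity
    linarith
  set C3 := Cs d B0 * c3 ^ 4 with hC3
  have hC1p : 0 < C1 := mul_pos (mul_pos (Cs_pos d d (by linarith) hd) (by norm_num)) (by positivity)
  have hC2p : 0 < C2 := by positivity
  have hC3p : 0 < C3 := mul_pos (Cs_pos d B0 hB01 hd) (by positivity)
  refine ⟨C1 + C2 + C3, by positivity, ?_⟩
  intro K _ _ F δ hK hF hδ hinf hfin s hs S hS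
  have hD := finrank_ge_one' (K := K)
  have hDD : D' = (Module.finrank ℚ K : ℝ) := by
    rw [hD', hK, max_eq_right]
    rw [hK] at hD
    exact hD
  have hs1 : (1 : ℝ) ≤ s := by exact_mod_cast (by omega : 1 ≤ s)
  have hs' : (1 : ℝ) + {v : FinitePlace K | locRad F δ v.val ≠ 1}.ncard ≤ s := by exact_mod_cast hs
  set T := ((s : ℝ) * Real.log (1 + s)) ^ 2 with hT
  have hT0 : 0 ≤ T := sq_nonneg _
  have hd2 : 2 ≤ F.natDegree := by omega
  rcases le_or_gt (height F δ) (1 / 2) with hH | hH
  · have h1 := count_low d hd F hF δ hδ S hS hH 1 le_rfl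
    rw [mul_one, ← hDD] at h1
    have h7 := xlog_mono (c := D') (x := s) (y := D') hD'1 (by linarith) (by linarith)
      (le_mul_of_one_le_right (by linarith) hs1)
    have hCs := Cs_pos d d (by linarith) hd
    calc (S.card : ℝ) ≤ _ := h1
      _ ≤ Cs d d * 2 ^ 4 * (D' ^ 4 * T) := by gcongr
      _ = C1 * T := by rw [hC1]; ring
      _ ≤ _ := mul_le_mul_of_nonneg_right (by linarith) hT0
  have hN : (Module.finrank ℚ K : ℝ) + {v : FinitePlace K | locRad F δ v.val ≠ 1}.ncard
      ≤ D' + s := by rw [← hDD]; linarith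
  have hbig : ∀ r : ℝ, 1 ≤ r → r ≤ (D' + 1) * s →
      ((∃ w : InfinitePlace K,
          |Real.log (w.val δ)| ≤ 1 / 4 * Real.log (locRad F δ w.val) ∧
          height F δ ≤ r * (w.mult * Real.log (locRad F δ w.val))) ∨
        (∃ v : FinitePlace K,
          |Real.log (v.val δ)| ≤ 1 / 4 * Real.log (locRad F δ v.val) ∧
          1 < v.val (d : K) ^ 16 * locRad F δ v.val ∧
          height F δ ≤ r * Real.log (locRad F δ v.val))) →
      (S.card : ℝ) ≤ (C1 + C2 + C3) * T := by
    intro r hr hr2 hpl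
    have h1 := hdom K F δ hF hδ r hr hpl S hS
    rw [← hDD] at h1
    have h7 := xlog_mono (c := D' * (D' + 1)) (x := s) (y := D' * r) (by nlinarith) (by linarith)
      (by positivity) (by nlinarith)
    calc (S.card : ℝ) ≤ _ := h1
      _ ≤ C0 * ((D' * (D' + 1)) ^ 4 * T) := by gcongr
      _ = C2 * T := by rw [hC2]; ring
      _ ≤ _ := mul_le_mul_of_nonneg_right (by linarith) hT0
  have hNs : D' + s ≤ (D' + 1) * s := by nlinarith
  by_cases hw : ∃ w : InfinitePlace K,
      height F δ ≤ (D' + s) * (w.mult * Real.log (locRad F δ w.val))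
  · obtain ⟨w, hw⟩ := hw
    exact hbig (D' + s) (by linarith) hNs (Or.inl ⟨w, hinf w, hw⟩)
  obtain ⟨v, hv⟩ : ∃ v : FinitePlace K, height F δ ≤ (D' + s) * Real.log (locRad F δ v.val) := by
    rcases exists_large_place F hd2 δ hδ (by linarith) (D' + s) hN with h | h
    · exact absurd h hw
    · exact h
  rcases lt_or_ge 1 (v.val (d : K) ^ 16 * locRad F δ v.val) with h16 | h16
  · exact hbig (D' + s) (by linarith) hNs (Or.inr ⟨v, hfin v, h16, hv⟩)
  push Not at hw
  have hLv : Real.log (locRad F δ v.val) ≤ 16 * D' * Real.log d := by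
    have h1 := neg_log_natCast_le (K := K) d hd v
    rw [← hDD] at h1
    have hd0 : (d : K) ≠ 0 := by exact_mod_cast (by omega : d ≠ 0)
    have hr1 : 1 ≤ locRad F δ v.val := one_le_rad _ _ _
    have h2 := Real.log_le_log (by
      have := v.val.pos hd0
      positivity) h16
    rw [Real.log_one, Real.log_mul (pow_ne_zero _ (v.val.ne_zero hd0)) (by positivity),
      Real.log_pow] at h2
    push_cast at h2
    linarith
  have hHb : height F δ ≤ (D' + s) * (16 * D' * Real.log d) :=
    hv.trans (mul_le_mul_of_nonneg_left hLv (by linarith))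
  obtain ⟨w⟩ := (inferInstance : Nonempty (InfinitePlace K))
  have hm : (1 : ℝ) ≤ w.mult := by exact_mod_cast w.one_le_mult
  have hr1 : 1 ≤ locRad F δ w.val := one_le_rad _ _ _
  have hL0 : 0 ≤ Real.log (locRad F δ w.val) := Real.log_nonneg hr1
  have hLw : Real.log (locRad F δ w.val) ≤ 16 * D' * Real.log d := by
    have h1 := (hw w).le.trans hHb
    have h2 := le_of_mul_le_mul_left h1 (by linarith)
    nlinarith
  have key := count_small d hd B0 hB01 F hF δ hδ S hS w (by
      refine le_trans ?_ ((le_max_left _ _).trans (le_max_right _ _))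
      rw [← Real.log_le_iff_le_exp (by linarith)]
      exact hLw) (by
      refine le_trans ?_ ((le_max_right _ _).trans (le_max_right _ _))
      have := (abs_le.1 (hinf w)).1
      linarith) c3 s hc31 (by linarith) (by
      rw [← hDD, hc3]
      have h1 : (D' + s) * (16 * D' * Real.log d) ≤ ((D' + 1) * s) * (16 * D' * Real.log d) :=
        mul_le_mul_of_nonneg_right hNs (by positivity)
      have h2 : D' ≤ D' * s := le_mul_of_one_le_right (by linarith) hs1
      nlinarith)
  calc (S.card : ℝ) ≤ C3 * T := key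
    _ ≤ _ := mul_le_mul_of_nonneg_right (by linarith) hT0

end H420R5
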