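import Pool.Agent.H420R5.HE.Defs

namespace H420R5

open NumberField IsDedekindDomain

theorem abv_of_exp {K : Type*} [Field K] [NumberField K] (v : HeightOneSpectrum (𝓞 K))
    (x : K) (n : ℤ) (h : v.valuation K x = WithZero.exp n) :
    HeightOneSpectrum.adicAbv K v x = (Ideal.absNorm v.asIdeal : ℝ) ^ n := by
  rw [HeightOneSpectrum.adicAbv_def, h]
  rw [WithZeroMulInt.toNNReal_neg_apply _ (WithZero.exp_ne_zero)]
  simp [WithZero.exp]

theorem abv_le_of_exp {K : Type*} [Field K] [NumberField K] (v : HeightOneSpectrum (𝓞 K))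
    (x : K) (n : ℤ) (h : v.valuation K x ≤ WithZero.exp n) :
    HeightOneSpectrum.adicAbv K v x ≤ (Ideal.absNorm v.asIdeal : ℝ) ^ n := by
  rw [HeightOneSpectrum.adicAbv_def]
  have h1 := (WithZeroMulInt.toNNReal_strictMono
    (HeightOneSpectrum.one_lt_absNorm_nnreal v)).monotone h
  rw [WithZeroMulInt.toNNReal_neg_apply (x := WithZero.exp n) _ (WithZero.exp_ne_zero)] at h1
  have h2 := NNReal.coe_le_coe.2 h1
  simpa [WithZero.exp] using h2

theorem val_le_one_of_abv {K : Type*} [Field K] [NumberField K] (v : HeightOneSpectrum (𝓞 K))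
    (x : K) (h : HeightOneSpectrum.adicAbv K v x ≤ 1) : v.valuation K x ≤ 1 := by
  rw [HeightOneSpectrum.adicAbv_def] at h
  have h1 := (WithZeroMulInt.toNNReal_le_one_iff (m := v.valuation K x)
    (HeightOneSpectrum.one_lt_absNorm_nnreal v)).1 (by exact_mod_cast h)
  exact h1

/-- T8a: pigeonhole at a finite place `v` (normalised absolute value) of a number field: a finite
set of elements of the ball of radius `B` has a large subset of diameter at most `e`; the number of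
classes is at most `Nv^2 B / e`. -/
theorem pigeon_finite {K : Type*} [Field K] [NumberField K] (v : HeightOneSpectrum (𝓞 K))
    {S : Type*} [DecidableEq S] (s : Finset S) (f : S → K) (B e : ℝ) (he : 0 < e) (hB : e ≤ B)
    (h : ∀ p ∈ s, HeightOneSpectrum.adicAbv K v (f p) ≤ B) :
    ∃ t ⊆ s, (s.card : ℝ) ≤ (Ideal.absNorm v.asIdeal : ℝ) ^ 2 * (B / e) * t.card ∧
      ∀ p ∈ t, ∀ q ∈ t, HeightOneSpectrum.adicAbv K v (f p - f q) ≤ e := by
  classical
  set N : ℝ := (Ideal.absNorm v.asIdeal : ℝ) with hN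
  have hN1 : 1 < N := by
    have := HeightOneSpectrum.one_lt_absNorm v
    rw [hN]
    exact_mod_cast this
  have hN0 : 0 < N := by linarith
  have hB0 : 0 < B := lt_of_lt_of_le he hB
  obtain ⟨k, hk1, hk2⟩ := exists_mem_Ico_zpow hB0 hN1
  obtain ⟨m, hm1, hm2⟩ := exists_mem_Ico_zpow he hN1
  have hmk : m < k + 1 := by
    have : N ^ m < N ^ (k + 1) := lt_of_le_of_lt (hm1.trans hB) hk2
    exact (zpow_lt_zpow_iff_right₀ hN1).1 this
  obtain ⟨j, hj⟩ : ∃ j : ℕ, (j : ℤ) = k + 1 - m := ⟨(k + 1 - m).toNat, by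
    rw [Int.toNat_of_nonneg]; omega⟩
  -- scaling
  obtain ⟨π, hπ⟩ := v.valuation_exists_uniformizer K
  have hπN : HeightOneSpectrum.adicAbv K v π = N ^ (-1 : ℤ) := abv_of_exp v π _ hπ
  have hπk : HeightOneSpectrum.adicAbv K v (π ^ (k + 1)) = N ^ (-(k + 1)) := by
    rw [map_zpow₀, hπN, ← zpow_mul]
    congr 1
    ring
  have hsc : ∀ p ∈ s, HeightOneSpectrum.adicAbv K v (π ^ (k + 1) * f p) ≤ 1 := by
    intro p hp
    rw [map_mul, hπk, zpow_neg, inv_mul_le_iff₀ (zpow_pos hN0 _), mul_one]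
    exact (h p hp).trans hk2.le
  have hex : ∀ p, ∃ a : 𝓞 K, p ∈ s → HeightOneSpectrum.adicAbv K v
      (algebraMap (𝓞 K) K a - π ^ (k + 1) * f p) ≤ N ^ (-(j : ℤ)) := by
    intro p
    by_cases hp : p ∈ s
    · obtain ⟨a, ha⟩ := v.exists_valuation_sub_lt_of_integer
        (val_le_one_of_abv v _ (hsc p hp)) (Units.mk0 (WithZero.exp (-(j : ℤ))) WithZero.exp_ne_zero)
      exact ⟨a, fun _ => abv_le_of_exp v _ _ ha.le⟩
    · exact ⟨0, fun h => absurd h hp⟩
  choose a ha using hex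
  -- classes
  have hfin : Finite (𝓞 K ⧸ v.asIdeal ^ j) :=
    Ideal.finiteQuotientOfFreeOfNeBot _ (pow_ne_zero j v.ne_bot)
  haveI : Fintype (𝓞 K ⧸ v.asIdeal ^ j) := Fintype.ofFinite _
  have hcard : (Fintype.card (𝓞 K ⧸ v.asIdeal ^ j) : ℝ) = N ^ j := by
    have h1 : Ideal.absNorm (v.asIdeal ^ j) = Nat.card (𝓞 K ⧸ v.asIdeal ^ j) := by
      rw [Ideal.absNorm_apply, Submodule.cardQuot_apply]
    rw [← Nat.card_eq_fintype_card, ← h1, map_pow, hN]
    push_cast
    rfl
  let g : S → 𝓞 K ⧸ v.asIdeal ^ j := fun p => Ideal.Quotient.mk _ (a p)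
  obtain ⟨c, -, hc⟩ := Finset.exists_max_image Finset.univ
    (fun c : 𝓞 K ⧸ v.asIdeal ^ j => (s.filter fun p => g p = c).card) ⟨0, Finset.mem_univ _⟩
  refine ⟨s.filter fun p => g p = c, Finset.filter_subset _ _, ?_, ?_⟩
  · have h1 : s.card ≤ Fintype.card (𝓞 K ⧸ v.asIdeal ^ j) *
        (s.filter fun p => g p = c).card := by
      rw [Finset.card_eq_sum_card_fiberwise (f := g) (t := Finset.univ)
        (fun p _ => Finset.mem_coe.2 (Finset.mem_univ _))]
      calc _ ≤ ∑ _c : 𝓞 K ⧸ v.asIdeal ^ j, (s.filter fun p => g p = c).card :=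
            Finset.sum_le_sum fun x hx => hc x hx
        _ = _ := by simp [Finset.card_univ]
    have h2 : (s.card : ℝ) ≤ N ^ j * (s.filter fun p => g p = c).card := by
      rw [← hcard]
      exact_mod_cast h1
    refine h2.trans (mul_le_mul_of_nonneg_right ?_ (Nat.cast_nonneg _))
    have h3 : N ^ j = N ^ (k + 1) / N ^ m := by
      rw [← zpow_natCast, hj, zpow_sub₀ hN0.ne']
    rw [h3, div_le_iff₀ (zpow_pos hN0 _)]
    have h4 : N ^ (k + 1) ≤ N * B := by
      rw [zpow_add_one₀ hN0.ne', mul_comm]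
      exact mul_le_mul_of_nonneg_left hk1 hN0.le
    have h5 : e ≤ N * N ^ m := by
      rw [zpow_add_one₀ hN0.ne', mul_comm] at hm2
      exact hm2.le
    calc N ^ (k + 1) ≤ N * B := h4
      _ = N * (B / e) * e := by field_simp
      _ ≤ N * (B / e) * (N * N ^ m) := mul_le_mul_of_nonneg_left h5 (by positivity)
      _ = N ^ 2 * (B / e) * N ^ m := by ring
  · intro p hp q hq
    rw [Finset.mem_filter] at hp hq
    have hpq : a p - a q ∈ v.asIdeal ^ j := by
      rw [← Ideal.Quotient.eq]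
      exact hp.2.trans hq.2.symm
    have h1 : HeightOneSpectrum.adicAbv K v (algebraMap (𝓞 K) K (a p - a q)) ≤
        N ^ (-(j : ℤ)) := by
      apply abv_le_of_exp
      rw [HeightOneSpectrum.valuation_of_algebraMap]
      exact (v.intValuation_le_pow_iff_mem _ _).2 hpq
    have h2 : HeightOneSpectrum.adicAbv K v (π ^ (k + 1) * (f p - f q)) ≤ N ^ (-(j : ℤ)) := by
      have e1 : π ^ (k + 1) * (f p - f q) =
          (algebraMap (𝓞 K) K (a q) - π ^ (k + 1) * f q) +
          (-(algebraMap (𝓞 K) K (a p) - π ^ (k + 1) * f p) +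
            algebraMap (𝓞 K) K (a p - a q)) := by
        rw [map_sub]; ring
      rw [e1]
      refine (HeightOneSpectrum.adicAbv_add_le_max K v _ _).trans (max_le (ha q hq.1) ?_)
      refine (HeightOneSpectrum.adicAbv_add_le_max K v _ _).trans (max_le ?_ h1)
      rw [AbsoluteValue.map_neg]
      exact ha p hp.1
    rw [map_mul, hπk, zpow_neg, inv_mul_le_iff₀ (zpow_pos hN0 _), ← zpow_add₀ hN0.ne'] at h2
    have e2 : k + 1 + -(j : ℤ) = m := by rw [hj]; ring
    rw [e2] at h2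
    exact h2.trans hm1

/-- T8b: the norm of a prime dividing `d` is at most `d^D`. -/
theorem absNorm_le {K : Type*} [Field K] [NumberField K] (v : HeightOneSpectrum (𝓞 K)) (d : ℕ)
    (hd : 1 ≤ d) (h : HeightOneSpectrum.adicAbv K v (d : K) < 1) :
    Ideal.absNorm v.asIdeal ≤ d ^ Module.finrank ℚ K := by
  have hmem : (d : 𝓞 K) ∈ v.asIdeal := by
    have e : (d : K) = algebraMap (𝓞 K) K (d : 𝓞 K) := by simp
    rw [e] at h
    exact (v.adicAbv_coe_lt_one_iff (HeightOneSpectrum.one_lt_absNorm_nnreal v) _).1 h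
  have h1 := Ideal.absNorm_dvd_norm_of_mem hmem
  have h2 : Algebra.norm ℤ (d : 𝓞 K) = (d : ℤ) ^ Module.finrank ℚ K := by
    have e : (d : 𝓞 K) = algebraMap ℤ (𝓞 K) (d : ℤ) := by simp
    rw [e, Algebra.norm_algebraMap, RingOfIntegers.rank]
  rw [h2] at h1
  have h3 : Ideal.absNorm v.asIdeal ∣ d ^ Module.finrank ℚ K := by exact_mod_cast h1
  exact Nat.le_of_dvd (pow_pos hd _) h3

end H420R5
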