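import Pool.Agent.H420R5.HE.Assembly
import Pool.Agent.H420R5.HE.T8

/-!
Final theorem: a set `T` of places at which the Jacobian is moderate and which carries a `1/ρ` part
of the height.
-/

namespace H420R5

open Polynomial NumberField IsDedekindDomain

universe u

section

variable {K : Type u} [Field K] [NumberField K]

/-- two-step pigeonhole at a finite place -/
theorem close_fin_small {ι : Type*} (v : FinitePlace K)
    (l B r q : ℝ) (hl : 0 < l) (hr : 0 < r) (hrB : r ≤ B)
    (hq : (Ideal.absNorm v.maximalIdeal.asIdeal : ℝ) ≤ q)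
    (S : Finset ι) (X : ℤ → ι → K)
    (hXB : ∀ p ∈ S, ∀ i, v.val (X i p) ≤ l * B) :
    ∃ t ⊆ S, (S.card : ℝ) ≤ (q ^ 2 * (B / r)) ^ 2 * t.card ∧ ∀ p ∈ t, ∀ q ∈ t,
      v.val (X 0 p - X 0 q) ≤ l * r ∧ v.val (X 1 p - X 1 q) ≤ l * r := by
  classical
  have hv : ∀ x : K, v.val x = HeightOneSpectrum.adicAbv K v.maximalIdeal x := by
    intro x
    have h1 : v.val x = v x := rfl
    rw [h1, ← FinitePlace.norm_embedding_eq v x, FinitePlace.norm_embedding]
  have hB : 0 < B := hr.trans_le hrB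
  have hq1 : (1 : ℝ) ≤ q := by
    refine le_trans ?_ hq
    have := HeightOneSpectrum.one_lt_absNorm v.maximalIdeal
    exact_mod_cast this.le
  have key : ∀ k : ℤ, ∀ s ⊆ S, ∃ t ⊆ s, (s.card : ℝ) ≤ (q ^ 2 * (B / r)) * t.card ∧
      ∀ p ∈ t, ∀ q ∈ t, v.val (X k p - X k q) ≤ l * r := by
    intro k s hs
    obtain ⟨t, ht, hc, ht'⟩ := pigeon_finite v.maximalIdeal s (fun p => X k p) (l * B) (l * r)
      (by positivity) (mul_le_mul_of_nonneg_left hrB hl.le) (fun p hp => by
        rw [← hv]; exact hXB p (hs hp) k)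
    refine ⟨t, ht, hc.trans ?_, fun p hp q hq => by rw [hv]; exact ht' p hp q hq⟩
    have h5 : l * B / (l * r) = B / r := by field_simp
    rw [h5]
    refine mul_le_mul_of_nonneg_right ?_ (by positivity)
    refine mul_le_mul_of_nonneg_right ?_ (by positivity)
    exact pow_le_pow_left₀ (by positivity) hq 2
  obtain ⟨t0, ht0, hc0, h0⟩ := key 0 S (Finset.Subset.refl _)
  obtain ⟨t1, ht1, hc1, h1⟩ := key 1 t0 ht0
  refine ⟨t1, ht1.trans ht0, ?_, fun p hp q hq => ⟨h0 p (ht1 hp) q (ht1 hq), h1 p hp q hq⟩⟩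
  calc (S.card : ℝ) ≤ (q ^ 2 * (B / r)) * t0.card := hc0
    _ ≤ (q ^ 2 * (B / r)) * ((q ^ 2 * (B / r)) * t1.card) :=
        mul_le_mul_of_nonneg_left hc1 (by positivity)
    _ = _ := by ring

/-- constant -/
noncomputable def Cf (d : ℕ) (B0 q : ℝ) : ℝ :=
  (q ^ 2 * (B0 * Real.exp (1 + B0))) ^ 2 * (144 * (10 * d ^ 2) ^ 4)

lemma count_fin_small (d : ℕ) (hd : 2 ≤ d) (B0 q : ℝ) (hB0 : 1 ≤ B0) (F : K[X])
    (hF : F.natDegree = d) (δ : K) (hδ : δ ≠ 0) (S : Finset (K × K)) (hS : ∀ P ∈ S, Per F δ P)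
    (v : FinitePlace K) (hq : (Ideal.absNorm v.maximalIdeal.asIdeal : ℝ) ≤ q)
    (h1 : locRad F δ v.val ≤ B0) (h2 : -Real.log (v.val δ) ≤ B0) (c x : ℝ) (hc : 1 ≤ c)
    (hx : 0 ≤ x) (hcx : height F δ + Module.finrank ℚ K ≤ c * x) :
    (S.card : ℝ) ≤ Cf d B0 q * c ^ 4 * (x * Real.log (1 + x)) ^ 2 := by
  obtain ⟨X, hX⟩ := exists_fam F δ S hS
  have hd2 : 2 ≤ F.natDegree := by omega
  have hdc : (centred F δ).natDegree = d := by rw [centred_natDegree F hd2, hF]
  have hdc2 : 2 ≤ (centred F δ).natDegree := by omega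
  have hcc : (centred F δ).coeff ((centred F δ).natDegree - 1) = 0 := by
    rw [hdc, ← hF]; exact centred_coeff F hd2 δ
  have hne : centred F δ ≠ 0 := by intro h; rw [h] at hdc; simp at hdc; omega
  have hd' : (2 : ℝ) ≤ d := by exact_mod_cast hd
  have hr1 : 1 ≤ locRad F δ v.val := one_le_rad _ _ _
  have hl := lam_pos (centred F δ) hne v.val
  have hexp : 0 < Real.exp (-(1 + B0)) := Real.exp_pos _
  have hexp1 : Real.exp (-(1 + B0)) ≤ 1 := Real.exp_le_one_iff.2 (by linarith)
  obtain ⟨t, ht, hct, hcl⟩ := close_fin_small v (lam (centred F δ) v.val) (locRad F δ v.val)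
    (Real.exp (-(1 + B0))) q hl hexp (by linarith) hq S X
    (hX.bound_na hdc2 hcc v.val (FinitePlace.add_le v))
  have hlog : Real.log (Real.exp (-(1 + B0))) = -(1 + B0) := Real.log_exp _
  have hD := finrank_ge_one' (K := K)
  have hH0 : 0 ≤ height F δ := hgt_nonneg (centred F δ) δ
  have hcx1 : 1 ≤ c * x := by linarith
  have key := card_fin hdc2 hcc hδ hX ht v (Real.exp (-(1 + B0))) 1
    (10 * d ^ 2 * (c * x)) hexp one_pos (by rw [hlog]; linarith)
    (by
      rw [hlog, hdc]
      have : -Real.log (v.val δ) / ((d : ℝ) - 1) ≤ B0 := by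
        rw [div_le_iff₀ (by linarith)]
        nlinarith
      rw [neg_div] at this
      linarith) hcl (by nlinarith) (by
      rw [hdc, one_mul]
      exact mul_le_mul_of_nonneg_left hcx (by positivity))
  have hA1 : (1 : ℝ) ≤ 10 * d ^ 2 := by nlinarith
  have h7 := xlog_mono (c := 10 * d ^ 2) (x := c * x) (y := 10 * d ^ 2 * (c * x))
    hA1 (by linarith) (by positivity) le_rfl
  have h8 := xlog_mono (c := c) (x := x) (y := c * x) hc hx (by positivity) le_rfl
  have h9 : locRad F δ v.val / Real.exp (-(1 + B0)) ≤ B0 * Real.exp (1 + B0) := by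
    rw [Real.exp_neg, div_inv_eq_mul]
    exact mul_le_mul_of_nonneg_right h1 (Real.exp_pos _).le
  have h10 : 0 ≤ locRad F δ v.val / Real.exp (-(1 + B0)) := by positivity
  calc (S.card : ℝ) ≤ (q ^ 2 * (locRad F δ v.val / Real.exp (-(1 + B0)))) ^ 2 * t.card := hct
    _ ≤ (q ^ 2 * (B0 * Real.exp (1 + B0))) ^ 2 * (144 * ((10 * d ^ 2) ^ 4 *
          (c ^ 4 * (x * Real.log (1 + x)) ^ 2))) := by
        refine mul_le_mul ?_ ?_ (by positivity) (by positivity)
        · exact pow_le_pow_left₀ (by positivity)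
            (mul_le_mul_of_nonneg_left h9 (by positivity)) 2
        · refine key.trans (mul_le_mul_of_nonneg_left (h7.trans ?_) (by norm_num))
          exact mul_le_mul_of_nonneg_left h8 (by positivity)
    _ = _ := by rw [Cf]; ring

end

/-- Uniform bound when a set of `t` places with moderate Jacobian carries a `1/ρ` part of the
height. -/
theorem uniform_bound (d : ℕ) (hd : 2 ≤ d) (D : ℕ) : ∃ C : ℝ, 0 < C ∧
    ∀ (K : Type u) [Field K] [NumberField K] (F : K[X]) (δ : K), Module.finrank ℚ K = D →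
      F.natDegree = d → δ ≠ 0 →
      ∀ (T₁ : Finset (InfinitePlace K)) (T₂ : Finset (FinitePlace K)) (t : ℕ) (ρ : ℝ),
      T₁.card + T₂.card = t → 1 ≤ t → 1 ≤ ρ →
      (∀ w ∈ T₁, |Real.log (w.val δ)| ≤ 1 / 4 * Real.log (locRad F δ w.val)) →
      (∀ v ∈ T₂, |Real.log (v.val δ)| ≤ 1 / 4 * Real.log (locRad F δ v.val)) →
      height F δ ≤ ρ * (∑ w ∈ T₁, (w.mult : ℝ) * Real.log (locRad F δ w.val)
        + ∑ v ∈ T₂, Real.log (locRad F δ v.val)) →
      ∀ S : Finset (K × K), (∀ P ∈ S, Per F δ P) →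
        (S.card : ℝ) ≤ C * ((ρ * t) * Real.log (1 + ρ * t)) ^ 2 := by
  classical
  obtain ⟨C0, hC0, hdom⟩ := dominating.{u} d hd
  have hd' : (2 : ℝ) ≤ d := by exact_mod_cast hd
  set D' : ℝ := max 1 (D : ℝ) with hD'
  have hD'1 : 1 ≤ D' := le_max_left _ _
  have hlogd : 0 ≤ Real.log (d : ℝ) := Real.log_nonneg (by linarith)
  set B0 : ℝ := max 1 (max (Real.exp (16 * D' * Real.log d)) (4 * D' * Real.log d)) with hB0
  have hB01 : 1 ≤ B0 := le_max_left _ _
  set C1 := Cs d d * 2 ^ 4 * D' ^ 4 with hC1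
  set C2 := C0 * D' ^ 4 with hC2
  set c3 := 16 * D' * Real.log d + D' with hc3
  have hc31 : 1 ≤ c3 := by
    have : 0 ≤ 16 * D' * Real.log d := by positivity
    linarith
  set C3 := Cf d B0 ((d : ℝ) ^ D) * c3 ^ 4 with hC3
  have hdp : (0 : ℝ) < d := by linarith
  have hC1p : 0 < C1 := mul_pos (mul_pos (Cs_pos d d (by linarith) hd) (by norm_num)) (by positivity)
  have hC2p : 0 < C2 := by positivity
  have hC3p : 0 < C3 := by
    rw [hC3, Cf]
    positivity
  refine ⟨C1 + C2 + C3, by positivity, ?_⟩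
  intro K _ _ F δ hK hF hδ T₁ T₂ t ρ htc ht1 hρ hmod1 hmod2 hH S hS
  have hD := finrank_ge_one' (K := K)
  have hDD : D' = (Module.finrank ℚ K : ℝ) := by
    rw [hD', hK, max_eq_right]
    rw [hK] at hD
    exact hD
  have ht1' : (1 : ℝ) ≤ t := by exact_mod_cast ht1
  set x := ρ * (t : ℝ) with hx
  have hx1 : 1 ≤ x := by nlinarith
  set T := (x * Real.log (1 + x)) ^ 2 with hT
  have hT0 : 0 ≤ T := sq_nonneg _
  have hd2 : 2 ≤ F.natDegree := by omega
  have hlow : height F δ ≤ 1 / 2 → (S.card : ℝ) ≤ (C1 + C2 + C3) * T := by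
    intro hHl
    have h1 := count_low d hd F hF δ hδ S hS hHl x hx1
    rw [← hDD] at h1
    have h7 := xlog_mono (c := D') (x := x) (y := D' * x) hD'1 (by linarith) (by positivity) le_rfl
    have hCs := Cs_pos d d (by linarith) hd
    calc (S.card : ℝ) ≤ _ := h1
      _ ≤ Cs d d * 2 ^ 4 * (D' ^ 4 * T) := by gcongr
      _ = C1 * T := by rw [hC1]; ring
      _ ≤ _ := mul_le_mul_of_nonneg_right (by linarith) hT0
  have hbig : ((∃ w : InfinitePlace K,
          |Real.log (w.val δ)| ≤ 1 / 4 * Real.log (locRad F δ w.val) ∧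
          height F δ ≤ x * (w.mult * Real.log (locRad F δ w.val))) ∨
        (∃ v : FinitePlace K,
          |Real.log (v.val δ)| ≤ 1 / 4 * Real.log (locRad F δ v.val) ∧
          1 < v.val (d : K) ^ 16 * locRad F δ v.val ∧
          height F δ ≤ x * Real.log (locRad F δ v.val))) →
      (S.card : ℝ) ≤ (C1 + C2 + C3) * T := by
    intro hpl
    have h1 := hdom K F δ hF hδ x hx1 hpl S hS
    rw [← hDD] at h1
    have h7 := xlog_mono (c := D') (x := x) (y := D' * x) hD'1 (by linarith) (by positivity) le_rfl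
    calc (S.card : ℝ) ≤ _ := h1
      _ ≤ C0 * (D' ^ 4 * T) := by gcongr
      _ = C2 * T := by rw [hC2]; ring
      _ ≤ _ := mul_le_mul_of_nonneg_right (by linarith) hT0
  have hr1 : ∀ v : AbsoluteValue K ℝ, 1 ≤ locRad F δ v := fun v => one_le_rad _ _ _
  -- some place of the set carries a `1/x` part of the height
  have hplace : (∃ w ∈ T₁, height F δ ≤ x * (w.mult * Real.log (locRad F δ w.val))) ∨
      (∃ v ∈ T₂, height F δ ≤ x * Real.log (locRad F δ v.val)) := by
    by_contra hcon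
    push Not at hcon
    obtain ⟨h1, h2⟩ := hcon
    have hx0 : 0 < x := by linarith
    have hρ0 : 0 < ρ := by linarith
    have e1 : x * ∑ w ∈ T₁, (w.mult : ℝ) * Real.log (locRad F δ w.val)
        ≤ T₁.card * height F δ := by
      rw [Finset.mul_sum, ← nsmul_eq_mul]
      exact Finset.sum_le_card_nsmul _ _ _ fun w hw => (h1 w hw).le
    have e2 : x * ∑ v ∈ T₂, Real.log (locRad F δ v.val) ≤ T₂.card * height F δ := by
      rw [Finset.mul_sum, ← nsmul_eq_mul]
      exact Finset.sum_le_card_nsmul _ _ _ fun v hv => (h2 v hv).le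
    have e3 : x * ∑ w ∈ T₁, (w.mult : ℝ) * Real.log (locRad F δ w.val)
        + x * ∑ v ∈ T₂, Real.log (locRad F δ v.val) < t * height F δ := by
      have htc' : (t : ℝ) = T₁.card + T₂.card := by rw [← htc]; push_cast; ring
      rcases T₁.eq_empty_or_nonempty with hT1 | hT1
      · have hT2 : T₂.Nonempty := by
          rw [← Finset.card_pos]
          rw [hT1] at htc
          simp at htc
          omega
        have : x * ∑ v ∈ T₂, Real.log (locRad F δ v.val) < T₂.card * height F δ := by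
          rw [Finset.mul_sum]
          calc _ < ∑ _v ∈ T₂, height F δ := Finset.sum_lt_sum_of_nonempty hT2 h2
            _ = _ := by simp
        rw [htc', add_mul]
        linarith
      · have : x * ∑ w ∈ T₁, (w.mult : ℝ) * Real.log (locRad F δ w.val)
            < T₁.card * height F δ := by
          rw [Finset.mul_sum]
          calc _ < ∑ _v ∈ T₁, height F δ := Finset.sum_lt_sum_of_nonempty hT1 h1
            _ = _ := by simp
        rw [htc', add_mul]
        linarith
    have e4 : t * height F δ ≤ x * ∑ w ∈ T₁, (w.mult : ℝ) * Real.log (locRad F δ w.val)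
        + x * ∑ v ∈ T₂, Real.log (locRad F δ v.val) := by
      calc t * height F δ ≤ t * (ρ * (∑ w ∈ T₁, (w.mult : ℝ) * Real.log (locRad F δ w.val)
        + ∑ v ∈ T₂, Real.log (locRad F δ v.val))) := mul_le_mul_of_nonneg_left hH (by linarith)
        _ = _ := by rw [hx]; ring
    linarith
  rcases le_or_gt (height F δ) (1 / 2) with hHl | hHl
  · exact hlow hHl
  rcases hplace with ⟨w, hw, hw2⟩ | ⟨v, hv, hv2⟩
  · exact hbig (Or.inl ⟨w, hmod1 w hw, hw2⟩)
  rcases lt_or_ge 1 (v.val (d : K) ^ 16 * locRad F δ v.val) with h16 | h16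
  · exact hbig (Or.inr ⟨v, hmod2 v hv, h16, hv2⟩)
  have hd0 : (d : K) ≠ 0 := by exact_mod_cast (by omega : d ≠ 0)
  have hvd : 0 < v.val (d : K) := v.val.pos hd0
  have hLpos : 0 < Real.log (locRad F δ v.val) := by
    by_contra hcon
    push Not at hcon
    nlinarith
  have hR1 : 1 < locRad F δ v.val := by
    by_contra hcon
    push Not at hcon
    have := Real.log_nonpos (by linarith [hr1 v.val]) hcon
    linarith
  have hvd1 : v.val (d : K) < 1 := by
    by_contra hcon
    push Not at hcon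
    have h3 : 1 ≤ v.val (d : K) ^ 16 := one_le_pow₀ hcon
    nlinarith
  have hLv : Real.log (locRad F δ v.val) ≤ 16 * D' * Real.log d := by
    have h1 := neg_log_natCast_le (K := K) d hd v
    rw [← hDD] at h1
    have h2 := Real.log_le_log (by have := hr1 v.val; positivity) h16
    rw [Real.log_one, Real.log_mul (pow_ne_zero _ hvd.ne') (by linarith), Real.log_pow] at h2
    push_cast at h2
    linarith
  have hvabs : ∀ x : K, v.val x = HeightOneSpectrum.adicAbv K v.maximalIdeal x := by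
    intro x
    have h1 : v.val x = v x := rfl
    rw [h1, ← FinitePlace.norm_embedding_eq v x, FinitePlace.norm_embedding]
  have hq : (Ideal.absNorm v.maximalIdeal.asIdeal : ℝ) ≤ (d : ℝ) ^ D := by
    have := absNorm_le v.maximalIdeal d (by omega) (by rw [← hvabs]; exact hvd1)
    rw [hK] at this
    exact_mod_cast this
  have key := count_fin_small d hd B0 ((d : ℝ) ^ D) hB01 F hF δ hδ S hS v hq (by
      refine le_trans ?_ ((le_max_left _ _).trans (le_max_right _ _))
      rw [← Real.log_le_iff_le_exp (by linarith)]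
      exact hLv) (by
      refine le_trans ?_ ((le_max_right _ _).trans (le_max_right _ _))
      have := (abs_le.1 (hmod2 v hv)).1
      linarith) c3 x hc31 (by linarith) (by
      rw [← hDD, hc3]
      have h1 : height F δ ≤ x * (16 * D' * Real.log d) :=
        hv2.trans (mul_le_mul_of_nonneg_left hLv (by linarith))
      have h2 : D' ≤ D' * x := le_mul_of_one_le_right (by linarith) hx1
      nlinarith)
  calc (S.card : ℝ) ≤ C3 * T := key
    _ ≤ _ := mul_le_mul_of_nonneg_right (by linarith) hT0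

end H420R5
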