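import Pool.Agent.H420R5.HE.Defs

/-!
Local radii of a generalized Hénon map.
-/

namespace H420R5

open Polynomial

variable {K : Type*} [Field K]

/-- the local scale `|a|_v^(-1/(d-1))`, `a` the leading coefficient -/
noncomputable def lam (F : K[X]) (v : AbsoluteValue K ℝ) : ℝ :=
  v F.leadingCoeff ^ (-(1 : ℝ) / ((F.natDegree : ℝ) - 1))

/-- the local radius of a centred Hénon map: the maximum of `1`, `|δ|_v^(1/(d-1))` and of the
`(|a_j|_v λ_v^(j-1))^(1/(d-j))`, `0 ≤ j ≤ d-2` -/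
noncomputable def rad (F : K[X]) (δ : K) (v : AbsoluteValue K ℝ) : ℝ :=
  max (max 1 (v δ ^ ((1 : ℝ) / ((F.natDegree : ℝ) - 1))))
    (⨆ j : Fin (F.natDegree - 1),
      (v (F.coeff j) * lam F v ^ ((j : ℝ) - 1)) ^ ((1 : ℝ) / ((F.natDegree : ℝ) - j)))

lemma lam_pos (F : K[X]) (hF : F ≠ 0) (v : AbsoluteValue K ℝ) : 0 < lam F v :=
  Real.rpow_pos_of_pos (v.pos (by simpa using hF)) _

lemma lam_pow (F : K[X]) (hF : 2 ≤ F.natDegree) (v : AbsoluteValue K ℝ) :
    v F.leadingCoeff * lam F v ^ (F.natDegree - 1) = 1 := by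
  have h0 : F ≠ 0 := by rintro rfl; simp at hF
  have hpos : 0 < v F.leadingCoeff := v.pos (by simpa using h0)
  have h1 : ((F.natDegree - 1 : ℕ) : ℝ) = (F.natDegree : ℝ) - 1 := by
    rw [Nat.cast_sub (by omega)]; simp
  have h2 : (F.natDegree : ℝ) - 1 ≠ 0 := by
    have : (2 : ℝ) ≤ F.natDegree := by exact_mod_cast hF
    linarith
  rw [lam, ← Real.rpow_natCast, ← Real.rpow_mul hpos.le, h1, div_mul_cancel₀ _ h2,
    Real.rpow_neg_one]
  exact mul_inv_cancel₀ hpos.ne'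

lemma one_le_rad (F : K[X]) (δ : K) (v : AbsoluteValue K ℝ) : 1 ≤ rad F δ v :=
  le_max_of_le_left (le_max_left _ _)

lemma delta_le_rad (F : K[X]) (hF : 2 ≤ F.natDegree) (δ : K) (v : AbsoluteValue K ℝ) :
    v δ ≤ rad F δ v ^ (F.natDegree - 1) := by
  have h1 : ((F.natDegree - 1 : ℕ) : ℝ) = (F.natDegree : ℝ) - 1 := by
    rw [Nat.cast_sub (by omega)]; simp
  have h2 : (F.natDegree : ℝ) - 1 ≠ 0 := by
    have : (2 : ℝ) ≤ F.natDegree := by exact_mod_cast hF
    linarith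
  have h3 : v δ ^ ((1 : ℝ) / ((F.natDegree : ℝ) - 1)) ≤ rad F δ v :=
    le_max_of_le_left (le_max_right _ _)
  calc v δ = (v δ ^ ((1 : ℝ) / ((F.natDegree : ℝ) - 1))) ^ (F.natDegree - 1) := by
        rw [← Real.rpow_natCast, ← Real.rpow_mul (v.nonneg _), h1, one_div, inv_mul_cancel₀ h2,
          Real.rpow_one]
    _ ≤ _ := pow_le_pow_left₀ (Real.rpow_nonneg (v.nonneg _) _) h3 _

lemma rpow_aux {x : ℝ} (hx : 0 ≤ x) {d j : ℕ} (h : j < d) :
    (x ^ ((1 : ℝ) / ((d : ℝ) - j))) ^ (d - j) = x := by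
  have h1 : ((d - j : ℕ) : ℝ) = (d : ℝ) - j := by rw [Nat.cast_sub h.le]
  have h2 : (d : ℝ) - j ≠ 0 := by
    have : (j : ℝ) < d := by exact_mod_cast h
    linarith
  rw [← Real.rpow_natCast, ← Real.rpow_mul hx, h1, one_div, inv_mul_cancel₀ h2, Real.rpow_one]

lemma coeff_le_rad (F : K[X]) (hF : 2 ≤ F.natDegree) (hcen : F.coeff (F.natDegree - 1) = 0)
    (δ : K) (v : AbsoluteValue K ℝ) (j : ℕ) (hj : j < F.natDegree) :
    v (F.coeff j) * lam F v ^ j ≤ lam F v * rad F δ v ^ (F.natDegree - j) := by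
  have h0 : F ≠ 0 := by rintro rfl; simp at hF
  have hl := lam_pos F h0 v
  rcases Nat.lt_or_ge j (F.natDegree - 1) with h | h
  · have h3 : (v (F.coeff j) * lam F v ^ ((j : ℝ) - 1)) ^ ((1 : ℝ) / ((F.natDegree : ℝ) - j))
        ≤ rad F δ v := by
      refine le_max_of_le_right ?_
      exact le_ciSup (f := fun j : Fin (F.natDegree - 1) =>
        (v (F.coeff j) * lam F v ^ ((j : ℝ) - 1)) ^ ((1 : ℝ) / ((F.natDegree : ℝ) - j)))
        (Set.finite_range _).bddAbove ⟨j, h⟩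
    have h4 : v (F.coeff j) * lam F v ^ ((j : ℝ) - 1) ≤ rad F δ v ^ (F.natDegree - j) := by
      have := pow_le_pow_left₀ (Real.rpow_nonneg (by positivity) _) h3 (F.natDegree - j)
      rwa [rpow_aux (by positivity) hj] at this
    calc v (F.coeff j) * lam F v ^ j
        = lam F v * (v (F.coeff j) * lam F v ^ ((j : ℝ) - 1)) := by
          rw [Real.rpow_sub hl, Real.rpow_natCast, Real.rpow_one]
          field_simp
      _ ≤ _ := mul_le_mul_of_nonneg_left h4 hl.le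
  · have : j = F.natDegree - 1 := by omega
    rw [this, hcen, map_zero, zero_mul]
    have := one_le_rad F δ v
    positivity

/-- if `|δ|^4 ≤ R` and `R > 1` then the maximum is attained at a coefficient. -/
lemma exists_coeff_eq_rad (F : K[X]) (hF : 2 ≤ F.natDegree)
    (δ : K) (v : AbsoluteValue K ℝ) (hδ : v δ ^ 4 ≤ rad F δ v) (hR : 1 < rad F δ v) :
    ∃ j < F.natDegree, v (F.coeff j) * lam F v ^ j = lam F v * rad F δ v ^ (F.natDegree - j) := by
  have h0 : F ≠ 0 := by rintro rfl; simp at hF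
  have hl := lam_pos F h0 v
  have : Nonempty (Fin (F.natDegree - 1)) := ⟨⟨0, by omega⟩⟩
  have hd1 : (0 : ℝ) < (F.natDegree : ℝ) - 1 := by
    have : (2 : ℝ) ≤ F.natDegree := by exact_mod_cast hF
    linarith
  obtain ⟨j, hj⟩ := exists_eq_ciSup_of_finite (f := fun j : Fin (F.natDegree - 1) =>
      (v (F.coeff j) * lam F v ^ ((j : ℝ) - 1)) ^ ((1 : ℝ) / ((F.natDegree : ℝ) - j)))
  have hlt : v δ ^ ((1 : ℝ) / ((F.natDegree : ℝ) - 1)) < rad F δ v := by
    rcases le_or_gt (v δ) 1 with h | h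
    · exact (Real.rpow_le_one (v.nonneg _) h (by positivity)).trans_lt hR
    · calc v δ ^ ((1 : ℝ) / ((F.natDegree : ℝ) - 1)) ≤ v δ ^ (1 : ℝ) := by
            refine Real.rpow_le_rpow_of_exponent_le h.le ?_
            rw [div_le_one hd1]
            have : (2 : ℝ) ≤ F.natDegree := by exact_mod_cast hF
            linarith
        _ = v δ ^ 1 := by simp
        _ < v δ ^ 4 := by gcongr <;> first | exact h | norm_num
        _ ≤ _ := hδ
  have hr : rad F δ v
      = (v (F.coeff j) * lam F v ^ ((j : ℝ) - 1)) ^ ((1 : ℝ) / ((F.natDegree : ℝ) - j)) := by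
    have h1 : max 1 (v δ ^ ((1 : ℝ) / ((F.natDegree : ℝ) - 1))) < rad F δ v := max_lt hR hlt
    have h2 : rad F δ v = max (max 1 (v δ ^ ((1 : ℝ) / ((F.natDegree : ℝ) - 1))))
        (⨆ j : Fin (F.natDegree - 1),
      (v (F.coeff j) * lam F v ^ ((j : ℝ) - 1)) ^ ((1 : ℝ) / ((F.natDegree : ℝ) - j))) := rfl
    rcases max_choice (max 1 (v δ ^ ((1 : ℝ) / ((F.natDegree : ℝ) - 1))))
        (⨆ j : Fin (F.natDegree - 1),
      (v (F.coeff j) * lam F v ^ ((j : ℝ) - 1)) ^ ((1 : ℝ) / ((F.natDegree : ℝ) - j))) with h | h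
    · rw [h] at h2; rw [h2] at h1; exact absurd h1 (lt_irrefl _)
    · rw [h, ← hj] at h2; exact h2
  have hjd : (j : ℕ) < F.natDegree := by have := j.2; omega
  refine ⟨j, hjd, ?_⟩
  rw [hr, rpow_aux (by positivity) hjd, Real.rpow_sub hl, Real.rpow_natCast, Real.rpow_one]
  field_simp

end H420R5
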