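import Pool.Agent.H420R5.HE.Defs

namespace H420R5

universe u

/-- T5: a nontrivial nonarchimedean absolute value extends to an algebraically closed field. -/
theorem exists_extension {K : Type u} [Field K] (v : AbsoluteValue K ℝ) (hv : IsNonarchimedean v)
    (hnt : v.IsNontrivial) :
    ∃ (L : Type u) (_ : Field L) (_ : IsAlgClosed L) (σ : K →+* L) (w : AbsoluteValue L ℝ),
      IsNonarchimedean w ∧ ∀ x, w (σ x) = v x := by
  have hnorm : ∀ x : WithAbs v, ‖(x : v.Completion)‖ = v (WithAbs.ofAbs x) := fun x =>
    UniformSpace.Completion.norm_coe x
  obtain ⟨x, hx⟩ : ∃ x : K, 1 < v x := by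
    obtain ⟨x, hx0, hx1⟩ := hnt
    rcases lt_or_gt_of_ne hx1 with h | h
    · refine ⟨x⁻¹, ?_⟩
      rw [map_inv₀]
      exact (one_lt_inv₀ (v.pos hx0)).2 h
    · exact ⟨x, h⟩
  let _ : NontriviallyNormedField v.Completion :=
    { (inferInstance : NormedField v.Completion) with
      non_trivial := ⟨((WithAbs.toAbs v x : WithAbs v) : v.Completion), by
        have h := hnorm (WithAbs.toAbs v x)
        refine lt_of_lt_of_eq ?_ h.symm
        exact hx⟩ }
  have _ : IsUltrametricDist v.Completion :=
    IsUltrametricDist.isUltrametricDist_of_forall_norm_add_le_max_norm (by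
      intro a b
      refine UniformSpace.Completion.induction_on₂ a b ?_ ?_
      · exact isClosed_le (continuous_fst.add continuous_snd).norm
          (continuous_fst.norm.max continuous_snd.norm)
      · intro a b
        rw [← UniformSpace.Completion.coe_add, hnorm, hnorm, hnorm]
        exact hv _ _)
  let w : AbsoluteValue (AlgebraicClosure v.Completion) ℝ :=
    { toFun := spectralNorm v.Completion (AlgebraicClosure v.Completion)
      map_mul' := fun a b =>
        spectralAlgNorm_mul (K := v.Completion) (L := AlgebraicClosure v.Completion) a b
      nonneg' := spectralNorm_nonneg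
      eq_zero' := fun a => by
        constructor
        · intro h
          by_contra hne
          exact (spectralNorm_zero_lt hne (Algebra.IsAlgebraic.isAlgebraic a)).ne' h
        · rintro rfl
          exact spectralNorm_zero
      add_le' := fun a b => isNonarchimedean_spectralNorm.add_le spectralNorm_nonneg }
  refine ⟨AlgebraicClosure v.Completion, inferInstance, inferInstance,
    (algebraMap v.Completion (AlgebraicClosure v.Completion)).comp
      ((UniformSpace.Completion.coeRingHom (α := WithAbs v)).comp
        (WithAbs.equiv v).symm.toRingHom), w, ?_, ?_⟩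
  · exact isNonarchimedean_spectralNorm
  · intro y
    have h1 : spectralNorm v.Completion (AlgebraicClosure v.Completion)
        (algebraMap v.Completion (AlgebraicClosure v.Completion)
          ((WithAbs.toAbs v y : WithAbs v) : v.Completion)) = _ := spectralNorm_extends _
    exact h1.trans (hnorm (WithAbs.toAbs v y))

end H420R5
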