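import Pool.Agent.H420R5.HE.Defs

namespace H420R5

open Polynomial

variable {K : Type*} [Field K]

theorem t7_sum_le {ι : Type*} (v : AbsoluteValue K ℝ) (s : Finset ι) (f : ι → K) :
    v (∑ i ∈ s, f i) ≤ ∑ i ∈ s, v (f i) := by
  classical
  induction s using Finset.induction_on with
  | empty => simp
  | insert a s ha ih =>
    rw [Finset.sum_insert ha, Finset.sum_insert ha]
    exact (v.add_le _ _).trans (by linarith)

theorem t7_sum_le_na {ι : Type*} (v : AbsoluteValue K ℝ) (hv : IsNonarchimedean v)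
    (s : Finset ι) (f : ι → K) (C : ℝ) (hC : 0 ≤ C) (h : ∀ i ∈ s, v (f i) ≤ C) :
    v (∑ i ∈ s, f i) ≤ C := by
  classical
  induction s using Finset.induction_on with
  | empty => simpa using hC
  | insert a s ha ih =>
    rw [Finset.sum_insert ha]
    refine (hv _ _).trans (max_le (h a (Finset.mem_insert_self a s)) (ih ?_))
    intro i hi
    exact h i (Finset.mem_insert_of_mem hi)

theorem t7_sign {Ω : Type*} [Fintype Ω] [DecidableEq Ω] (v : AbsoluteValue K ℝ)
    (σ : Equiv.Perm Ω) (x : K) : v (Equiv.Perm.sign σ • x) = v x := by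
  rcases Int.units_eq_one_or (Equiv.Perm.sign σ) with h | h
  · rw [h, one_smul]
  · rw [h, Units.neg_smul, one_smul]
    exact v.map_neg x

theorem t7_term {Ω : Type*} [Fintype Ω] [DecidableEq Ω] (A : Matrix Ω Ω K)
    (v : AbsoluteValue K ℝ) (b : Ω → ℝ) (h : ∀ p q, v (A p q) ≤ b p) (σ : Equiv.Perm Ω) :
    v (Equiv.Perm.sign σ • ∏ i, A (σ i) i) ≤ ∏ p, b p := by
  rw [t7_sign, map_prod]
  calc ∏ i, v (A (σ i) i) ≤ ∏ i, b (σ i) :=
        Finset.prod_le_prod (fun i _ => apply_nonneg v _) (fun i _ => h _ _)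
    _ = ∏ p, b p := Equiv.prod_comp σ b

/-- T7a: determinants, any absolute value. -/
theorem det_le {Ω : Type*} [Fintype Ω] [DecidableEq Ω] (A : Matrix Ω Ω K) (v : AbsoluteValue K ℝ)
    (b : Ω → ℝ) (h : ∀ p q, v (A p q) ≤ b p) :
    v A.det ≤ (Fintype.card Ω).factorial * ∏ p, b p := by
  rw [Matrix.det_apply]
  refine (t7_sum_le v _ _).trans ?_
  refine (Finset.sum_le_sum (fun σ _ => t7_term A v b h σ)).trans ?_
  rw [Finset.sum_const, Finset.card_univ, Fintype.card_perm, nsmul_eq_mul]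

/-- T7b: determinants, nonarchimedean absolute value. -/
theorem det_le_na {Ω : Type*} [Fintype Ω] [DecidableEq Ω] (A : Matrix Ω Ω K)
    (v : AbsoluteValue K ℝ) (hv : IsNonarchimedean v)
    (b : Ω → ℝ) (hb : ∀ p, 0 ≤ b p) (h : ∀ p q, v (A p q) ≤ b p) :
    v A.det ≤ ∏ p, b p := by
  rw [Matrix.det_apply]
  exact t7_sum_le_na v hv _ _ _ (Finset.prod_nonneg fun p _ => hb p)
    (fun σ _ => t7_term A v b h σ)

theorem t7_pow (x c : K) (i : ℕ) :
    (x - c) ^ i = ∑ a ∈ Finset.range (i + 1), x ^ a * ((-c) ^ (i - a) * (i.choose a : K)) := by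
  rw [sub_eq_add_neg, add_pow]
  exact Finset.sum_congr rfl fun a _ => by ring

/-- T7c: shifted monomials have the same leading term. -/
theorem lead_shift {Ω : Type*} (X : ℤ → Ω → K) (c c' : K) (i j : ℕ) :
    Lead X 1 i j (fun P => (X 0 P - c) ^ i * (X 1 P - c') ^ j) := by
  unfold Lead
  have h1 : (fun P => (X 0 P - c) ^ i * (X 1 P - c') ^ j) =
      ∑ p ∈ Finset.range (i + 1) ×ˢ Finset.range (j + 1),
        (((-c) ^ (i - p.1) * (i.choose p.1 : K)) * ((-c') ^ (j - p.2) * (j.choose p.2 : K))) •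
          mon X p.1 p.2 := by
    funext P
    rw [Finset.sum_apply, t7_pow, t7_pow, Finset.sum_mul_sum, Finset.sum_product]
    refine Finset.sum_congr rfl fun a _ => Finset.sum_congr rfl fun b _ => ?_
    simp only [Pi.smul_apply, smul_eq_mul, mon]
    ring
  have h2 : (i, j) ∈ Finset.range (i + 1) ×ˢ Finset.range (j + 1) := by
    simp
  rw [h1, ← Finset.add_sum_erase _ _ h2]
  simp only [Nat.sub_self, pow_zero, Nat.choose_self, Nat.cast_one, mul_one, one_smul,
    add_sub_cancel_left]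
  refine Submodule.sum_mem _ fun p hp => Submodule.smul_mem _ _ (Submodule.subset_span ?_)
  obtain ⟨a, b⟩ := p
  simp only [Finset.mem_erase, Finset.mem_product, Finset.mem_range, ne_eq, Prod.mk.injEq] at hp
  refine ⟨a, b, ?_, rfl⟩
  by_contra hcon
  exact hp.1 ⟨by omega, by omega⟩

/-- T7d: pigeonhole: at most `(8 B + 2)^2` discs of radius `1/4` cover the disc of radius `B` of `ℂ`:
a finite set in the disc has a large subset of diameter at most `1/2`. -/
theorem pigeon_complex {S : Type*} [DecidableEq S] (s : Finset S) (f : S → ℂ) (B : ℝ) (hB : 1 ≤ B)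
    (h : ∀ p ∈ s, ‖f p‖ ≤ B) :
    ∃ t ⊆ s, (s.card : ℝ) ≤ (10 * B) ^ 2 * t.card ∧ ∀ p ∈ t, ∀ q ∈ t, ‖f p - f q‖ ≤ 1 / 2 := by
  classical
  set cell : S → ℤ × ℤ := fun p => (⌊4 * ((f p).re + B)⌋, ⌊4 * ((f p).im + B)⌋) with hcell
  set T : Finset (ℤ × ℤ) := Finset.Icc 0 ⌊8 * B⌋ ×ˢ Finset.Icc 0 ⌊8 * B⌋ with hT
  have hB0 : (0 : ℝ) ≤ B := by linarith
  have hfl : 0 ≤ ⌊8 * B⌋ := Int.floor_nonneg.2 (by linarith)
  have hmem : ∀ p ∈ s, cell p ∈ T := by
    intro p hp
    have h0 := h p hp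
    have h1 := (abs_le.1 ((Complex.abs_re_le_norm (f p)).trans h0))
    have h2 := (abs_le.1 ((Complex.abs_im_le_norm (f p)).trans h0))
    simp only [hcell, hT, Finset.mem_product, Finset.mem_Icc]
    refine ⟨⟨Int.floor_nonneg.2 (by linarith [h1.1]), Int.floor_le_floor (by linarith [h1.2])⟩,
      ⟨Int.floor_nonneg.2 (by linarith [h2.1]), Int.floor_le_floor (by linarith [h2.2])⟩⟩
  have hTne : T.Nonempty := ⟨(0, 0), by
    simp only [hT, Finset.mem_product, Finset.mem_Icc]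
    exact ⟨⟨le_refl _, hfl⟩, ⟨le_refl _, hfl⟩⟩⟩
  have hTcard : (T.card : ℝ) ≤ (10 * B) ^ 2 := by
    have e1 : (T.card : ℝ) = ((⌊8 * B⌋ : ℝ) + 1) ^ 2 := by
      rw [hT, Finset.card_product, Int.card_Icc]
      have e2 : (((⌊8 * B⌋ + 1 - 0).toNat : ℕ) : ℝ) = (⌊8 * B⌋ : ℝ) + 1 := by
        have e3 : (((⌊8 * B⌋ + 1 - 0).toNat : ℕ) : ℤ) = ⌊8 * B⌋ + 1 := by
          rw [Int.toNat_of_nonneg (by linarith)]
          ring
        have e4 : ((((⌊8 * B⌋ + 1 - 0).toNat : ℕ) : ℤ) : ℝ) = ((⌊8 * B⌋ + 1 : ℤ) : ℝ) := by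
          rw [e3]
        push_cast at e4
        exact e4
      push_cast
      rw [e2]
      ring
    rw [e1]
    have e5 : (⌊8 * B⌋ : ℝ) ≤ 8 * B := Int.floor_le _
    have e6 : (0 : ℝ) ≤ ⌊8 * B⌋ := by exact_mod_cast hfl
    have e7 : (⌊8 * B⌋ : ℝ) + 1 ≤ 10 * B := by linarith
    exact pow_le_pow_left₀ (by linarith) e7 2
  have hTpos : (0 : ℝ) < T.card := by exact_mod_cast hTne.card_pos
  obtain ⟨y, _, hy⟩ := Finset.exists_le_card_fiber_of_nsmul_le_card_of_maps_to (M := ℝ)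
    (b := (s.card : ℝ) / T.card) hmem hTne (by
      rw [nsmul_eq_mul, mul_div_cancel₀]
      exact hTpos.ne')
  refine ⟨s.filter (fun x => cell x = y), Finset.filter_subset _ _, ?_, ?_⟩
  · rw [div_le_iff₀ hTpos] at hy
    calc (s.card : ℝ) ≤ ((s.filter (fun x => cell x = y)).card : ℝ) * T.card := hy
      _ ≤ ((s.filter (fun x => cell x = y)).card : ℝ) * (10 * B) ^ 2 :=
        mul_le_mul_of_nonneg_left hTcard (Nat.cast_nonneg _)
      _ = (10 * B) ^ 2 * ((s.filter (fun x => cell x = y)).card : ℝ) := by ring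
  · intro p hp q hq
    have hp' := (Finset.mem_filter.1 hp).2
    have hq' := (Finset.mem_filter.1 hq).2
    have e : cell p = cell q := hp'.trans hq'.symm
    simp only [hcell, Prod.mk.injEq] at e
    have h1 := Int.abs_sub_lt_one_of_floor_eq_floor e.1
    have h2 := Int.abs_sub_lt_one_of_floor_eq_floor e.2
    have h3 : |(f p - f q).re| ≤ 1 / 4 := by
      rw [Complex.sub_re]
      rw [abs_lt] at h1
      rw [abs_le]
      constructor <;> linarith [h1.1, h1.2]
    have h4 : |(f p - f q).im| ≤ 1 / 4 := by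
      rw [Complex.sub_im]
      rw [abs_lt] at h2
      rw [abs_le]
      constructor <;> linarith [h2.1, h2.2]
    have h5 := Complex.norm_le_abs_re_add_abs_im (f p - f q)
    linarith

end H420R5
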