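import Pool.Agent.H420R5.HE.Clus
import Pool.Agent.H420R5.HE.T5
import Pool.Agent.H420R5.HE.T7
import Pool.Agent.H420R5.HE.Rad

/-!
Large subfamilies of orbits with close starting points.
-/

namespace H420R5

open Polynomial

/-- the contraction `R^(-3/(8(d-1)))` -/
noncomputable def rho (d : ℕ) (R : ℝ) : ℝ := R ^ (-(3 : ℝ) / (8 * ((d : ℝ) - 1)))

lemma le_mul_rho (d : ℕ) (hd : 2 ≤ d) (a l R : ℝ) (ha : 0 ≤ a) (hl : 0 ≤ l) (hR : 0 < R)
    (h : a ^ (8 * (d - 1)) * R ^ 3 ≤ l ^ (8 * (d - 1))) : a ≤ l * rho d R := by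
  have hρ : 0 < rho d R := Real.rpow_pos_of_pos hR _
  have h1 : ((8 * (d - 1) : ℕ) : ℝ) = 8 * ((d : ℝ) - 1) := by
    rw [Nat.cast_mul, Nat.cast_sub (by omega)]; simp
  have h2 : (8 * ((d : ℝ) - 1)) ≠ 0 := by
    have : (2 : ℝ) ≤ d := by exact_mod_cast hd
    linarith
  have h3 : rho d R ^ (8 * (d - 1)) * R ^ 3 = 1 := by
    rw [rho, ← Real.rpow_natCast, ← Real.rpow_mul hR.le, h1, div_mul_cancel₀ _ h2,
      Real.rpow_neg hR.le]
    have : R ^ (3 : ℝ) = R ^ 3 := by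
      rw [← Real.rpow_natCast]; norm_num
    rw [this]
    exact inv_mul_cancel₀ (by positivity)
  refine le_of_pow_le_pow_left₀ (n := 8 * (d - 1)) (by omega) (by positivity) ?_
  have h4 : a ^ (8 * (d - 1)) * R ^ 3 ≤ (l * rho d R) ^ (8 * (d - 1)) * R ^ 3 := by
    calc a ^ (8 * (d - 1)) * R ^ 3 ≤ l ^ (8 * (d - 1)) := h
      _ = l ^ (8 * (d - 1)) * (rho d R ^ (8 * (d - 1)) * R ^ 3) := by rw [h3, mul_one]
      _ = _ := by ring
  exact le_of_mul_le_mul_right h4 (by positivity)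

/-- two-step pigeonhole from a cluster statement -/
theorem close_of_cluster (d : ℕ) {K L ι : Type*} [Field K] [Field L]
    (σ : K →+* L) (w : AbsoluteValue L ℝ) (F : K[X]) (δ : K) (v : AbsoluteValue K ℝ) (B A : ℝ)
    (Z : Finset L) (hZ : Z.card ≤ d ^ 3)
    (hZ' : ∀ x : ℤ → K, Orb F δ x → (∀ i, v (x i) ≤ B) → ∃ z ∈ Z, w (σ (x 0) - z) ≤ A)
    (S : Finset ι) (X : ℤ → ι → K) (hX : ∀ p ∈ S, Orb F δ (fun i => X i p))
    (hXB : ∀ p ∈ S, ∀ i, v (X i p) ≤ B) :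
    ∃ t ⊆ S, S.card ≤ d ^ 6 * t.card ∧ ∃ z0 z1 : L, ∀ p ∈ t,
      w (σ (X 0 p) - z0) ≤ A ∧ w (σ (X 1 p) - z1) ≤ A := by
  classical
  obtain ⟨t0, ht0, hc0, z0, hz0⟩ := pigeon S Z (fun p z => w (σ (X 0 p) - z) ≤ A) (d ^ 3) hZ
    (fun p hp => hZ' _ (hX p hp) (hXB p hp))
  obtain ⟨t1, ht1, hc1, z1, hz1⟩ := pigeon t0 Z (fun p z => w (σ (X 1 p) - z) ≤ A) (d ^ 3) hZ
    (fun p hp => by
      have h := hZ' (fun i => X (i + 1) p) (by
        intro i
        have := hX p (ht0 hp) (i + 1)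
        simp only at this ⊢
        rw [show i + 1 - 1 = i - 1 + 1 by ring] at this
        exact this) (fun i => hXB p (ht0 hp) _)
      simpa using h)
  refine ⟨t1, ht1.trans ht0, ?_, z0, z1, fun p hp => ⟨hz0 p (ht1 hp), hz1 p hp⟩⟩
  calc S.card ≤ d ^ 3 * t0.card := hc0
    _ ≤ d ^ 3 * (d ^ 3 * t1.card) := Nat.mul_le_mul_left _ hc1
    _ = _ := by ring

/-- nonarchimedean places -/
theorem close_na (d : ℕ) (hd : 2 ≤ d) {K : Type*} {ι : Type*} [Field K] (F : K[X])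
    (hF : F.natDegree = d) (hcen : F.coeff (d - 1) = 0) (δ : K)
    (v : AbsoluteValue K ℝ) (hv : IsNonarchimedean v)
    (hδ : v δ ^ 4 ≤ rad F δ v) (hbig : 1 < v (d : K) ^ 16 * rad F δ v)
    (S : Finset ι) (X : ℤ → ι → K) (hX : ∀ p ∈ S, Orb F δ (fun i => X i p))
    (hXB : ∀ p ∈ S, ∀ i, v (X i p) ≤ lam F v * rad F δ v) :
    ∃ t ⊆ S, S.card ≤ d ^ 6 * t.card ∧ ∀ p ∈ t, ∀ q ∈ t,
      v (X 0 p - X 0 q) ≤ lam F v * rho d (rad F δ v) ∧
      v (X 1 p - X 1 q) ≤ lam F v * rho d (rad F δ v) := by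
  subst hF
  have h0 : F ≠ 0 := by rintro rfl; simp at hd
  have hvd : v (F.natDegree : K) ≤ 1 := hv.apply_natCast_le_one
  have hR : 1 < rad F δ v := by
    have h1 := one_le_rad F δ v
    have h2 : v (F.natDegree : K) ^ 16 ≤ 1 := pow_le_one₀ (v.nonneg _) hvd
    nlinarith
  obtain ⟨j, hj, hj'⟩ := exists_coeff_eq_rad F hd δ v hδ hR
  have hnt : v.IsNontrivial := by
    by_contra hcon
    have htriv : ∀ x, x ≠ 0 → v x = 1 := by
      intro x hx
      by_contra h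
      exact hcon ⟨x, hx, h⟩
    have hle : ∀ x, v x ≤ 1 := by
      intro x
      by_cases hx : x = 0
      · rw [hx, map_zero]; norm_num
      · rw [htriv x hx]
    have hlam : lam F v = 1 := by
      rw [lam, htriv _ (by simpa using h0)]; simp
    rw [hlam, one_pow, mul_one, one_mul] at hj'
    have h3 := hle (F.coeff j)
    rw [hj'] at h3
    have h4 : 1 < rad F δ v ^ (F.natDegree - j) := one_lt_pow₀ hR (by omega)
    linarith
  obtain ⟨L, _, _, σ, w, hw, hvw⟩ := exists_extension v hv hnt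
  have hl := lam_pos F h0 v
  obtain ⟨Z, hZ, hZ'⟩ := transfer F.natDegree hd σ v w hvw δ (rad F δ v) (rad F δ v)
    (fun G hG1 hG2 hG3 hG4 hG5 => cluster_na F.natDegree hd w hw G (σ δ) (rad F δ v) hG1 hG2 hG3
      (one_le_rad _ _ _) hG4 hG5 (by rw [hvw]; exact hδ) (by
        have : w ((F.natDegree : L)) = v (F.natDegree : K) := by rw [← hvw, map_natCast σ]
        rw [this]; exact hbig))
    F rfl hcen (lam F v) hl (lam_pow F hd v) (coeff_le_rad F hd hcen δ v) ⟨j, hj, hj'⟩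
  obtain ⟨t, ht, hc, z0, z1, hz⟩ := close_of_cluster F.natDegree σ w F δ v
    (rad F δ v * lam F v) (lam F v * rho F.natDegree (rad F δ v)) Z hZ
    (fun x hx hxB => by
      obtain ⟨z, hz, hz'⟩ := hZ' x hx hxB
      exact ⟨z, hz, le_mul_rho _ hd _ _ _ (w.nonneg _) hl.le (by linarith) hz'⟩)
    S X hX (fun p hp i => by rw [mul_comm]; exact hXB p hp i)
  have key : ∀ a b : K, ∀ z : L, ∀ A : ℝ, w (σ a - z) ≤ A → w (σ b - z) ≤ A → v (a - b) ≤ A := by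
    intro a b z A h1 h2
    rw [← hvw, map_sub]
    have h3 : σ a - σ b = (σ a - z) + -(σ b - z) := by ring
    rw [h3]
    refine (hw _ _).trans (max_le h1 ?_)
    rw [AbsoluteValue.map_neg]; exact h2
  exact ⟨t, ht, hc, fun p hp q hq => ⟨key _ _ z0 _ (hz p hp).1 (hz q hq).1,
    key _ _ z1 _ (hz p hp).2 (hz q hq).2⟩⟩

/-- archimedean places, large radius -/
theorem close_arch_big (d : ℕ) (hd : 2 ≤ d) {K : Type*} {ι : Type*} [Field K] (F : K[X])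
    (hF : F.natDegree = d) (hcen : F.coeff (d - 1) = 0) (δ : K)
    (v : AbsoluteValue K ℝ) (σ : K →+* ℂ) (hσ : ∀ x, ‖σ x‖ = v x)
    (hδ : v δ ^ 4 ≤ rad F δ v) (hbig : (2 : ℝ) ^ (100 * d) ≤ rad F δ v)
    (S : Finset ι) (X : ℤ → ι → K) (hX : ∀ p ∈ S, Orb F δ (fun i => X i p))
    (hXB : ∀ p ∈ S, ∀ i, v (X i p) ≤ (d + 1) * (lam F v * rad F δ v)) :
    ∃ t ⊆ S, S.card ≤ d ^ 6 * t.card ∧ ∀ p ∈ t, ∀ q ∈ t,
      v (X 0 p - X 0 q) ≤ lam F v * (2 * rho d (rad F δ v)) ∧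
      v (X 1 p - X 1 q) ≤ lam F v * (2 * rho d (rad F δ v)) := by
  subst hF
  have h0 : F ≠ 0 := by rintro rfl; simp at hd
  have hR : 1 < rad F δ v := by
    refine lt_of_lt_of_le ?_ hbig
    exact one_lt_pow₀ (by norm_num) (by omega)
  obtain ⟨j, hj, hj'⟩ := exists_coeff_eq_rad F hd δ v hδ hR
  have hl := lam_pos F h0 v
  set w : AbsoluteValue ℂ ℝ := NormedField.toAbsoluteValue ℂ with hwdef
  have hw : ∀ x, w x = ‖x‖ := fun x => rfl
  obtain ⟨Z, hZ, hZ'⟩ := transfer F.natDegree hd σ v w (fun x => by rw [hw, hσ]) δ (rad F δ v)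
    ((F.natDegree + 1) * rad F δ v)
    (fun G hG1 hG2 hG3 hG4 hG5 => cluster_normed F.natDegree hd G (σ δ) (rad F δ v) hG1 hG2 hG3
      (one_le_rad _ _ _) hG4 hG5 (by rw [hσ]; exact hδ) (by
        have h1 : (1 : ℝ) ≤ F.natDegree := by exact_mod_cast (by omega : 1 ≤ F.natDegree)
        have h2 : ‖((F.natDegree : ℕ) : ℂ)‖ = (F.natDegree : ℝ) := by simp
        rw [h2]
        calc (2 : ℝ) ^ (100 * F.natDegree) ≤ rad F δ v := hbig
          _ = 1 * rad F δ v := (one_mul _).symm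
          _ ≤ _ := mul_le_mul_of_nonneg_right (one_le_pow₀ h1) (by linarith)))
    F rfl hcen (lam F v) hl (lam_pow F hd v) (coeff_le_rad F hd hcen δ v) ⟨j, hj, hj'⟩
  obtain ⟨t, ht, hc, z0, z1, hz⟩ := close_of_cluster F.natDegree σ w F δ v
    ((F.natDegree + 1) * rad F δ v * lam F v) (lam F v * rho F.natDegree (rad F δ v)) Z hZ
    (fun x hx hxB => by
      obtain ⟨z, hz, hz'⟩ := hZ' x hx hxB
      exact ⟨z, hz, le_mul_rho _ hd _ _ _ (w.nonneg _) hl.le (by linarith) hz'⟩)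
    S X hX (fun p hp i => by
      have := hXB p hp i
      calc _ ≤ _ := this
        _ = _ := by ring)
  have key : ∀ a b : K, ∀ z : ℂ, ∀ A : ℝ, w (σ a - z) ≤ A → w (σ b - z) ≤ A →
      v (a - b) ≤ A + A := by
    intro a b z A h1 h2
    rw [← hσ, map_sub]
    have h3 : σ a - σ b = (σ a - z) + -(σ b - z) := by ring
    rw [h3]
    refine (norm_add_le _ _).trans (add_le_add h1 ?_)
    rw [norm_neg]; exact h2
  refine ⟨t, ht, hc, fun p hp q hq => ⟨?_, ?_⟩⟩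
  · have := key _ _ z0 _ (hz p hp).1 (hz q hq).1
    linarith
  · have := key _ _ z1 _ (hz p hp).2 (hz q hq).2
    linarith

/-- archimedean places, small radius: crude pigeonhole -/
theorem close_arch_small {K : Type*} {ι : Type*} [Field K]
    (v : AbsoluteValue K ℝ) (σ : K →+* ℂ) (hσ : ∀ x, ‖σ x‖ = v x)
    (l B M : ℝ) (hl : 0 < l) (hB : 1 ≤ B) (hM : 1 ≤ M)
    (S : Finset ι) (X : ℤ → ι → K)
    (hXB : ∀ p ∈ S, ∀ i, v (X i p) ≤ B * l) :
    ∃ t ⊆ S, (S.card : ℝ) ≤ (10 * (B * M)) ^ 4 * t.card ∧ ∀ p ∈ t, ∀ q ∈ t,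
      v (X 0 p - X 0 q) ≤ l * (1 / (2 * M)) ∧
      v (X 1 p - X 1 q) ≤ l * (1 / (2 * M)) := by
  classical
  have key : ∀ k : ℤ, ∀ s ⊆ S, ∃ t ⊆ s, (s.card : ℝ) ≤ (10 * (B * M)) ^ 2 * t.card ∧
      ∀ p ∈ t, ∀ q ∈ t, v (X k p - X k q) ≤ l * (1 / (2 * M)) := by
    intro k s hs
    obtain ⟨t, ht, hc, ht'⟩ := pigeon_complex s (fun p => ((M / l : ℝ) : ℂ) * σ (X k p)) (B * M)
      (by nlinarith) (fun p hp => by
        rw [norm_mul, hσ, Complex.norm_real, Real.norm_of_nonneg (by positivity)]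
        have := hXB p (hs hp) k
        rw [div_mul_eq_mul_div, div_le_iff₀ hl]
        nlinarith)
    refine ⟨t, ht, hc, fun p hp q hq => ?_⟩
    have h := ht' p hp q hq
    rw [← mul_sub, ← map_sub, norm_mul, hσ, Complex.norm_real,
      Real.norm_of_nonneg (by positivity), div_mul_eq_mul_div, div_le_iff₀ hl] at h
    rw [mul_one_div, le_div_iff₀ (by positivity)]
    linarith
  obtain ⟨t0, ht0, hc0, h0⟩ := key 0 S (Finset.Subset.refl _)
  obtain ⟨t1, ht1, hc1, h1⟩ := key 1 t0 ht0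
  refine ⟨t1, ht1.trans ht0, ?_, fun p hp q hq => ⟨h0 p (ht1 hp) q (ht1 hq), h1 p hp q hq⟩⟩
  calc (S.card : ℝ) ≤ (10 * (B * M)) ^ 2 * t0.card := hc0
    _ ≤ (10 * (B * M)) ^ 2 * ((10 * (B * M)) ^ 2 * t1.card) :=
        mul_le_mul_of_nonneg_left hc1 (by positivity)
    _ = _ := by ring

end H420R5
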