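import Pool.Agent.H420R5.HE.T4

/-!
Cluster lemma: nonarchimedean version without loss (power trick), transfer to the ground field,
pigeonhole.
-/

namespace H420R5

open Polynomial

/-- `N`-th power of a nonarchimedean absolute value -/
noncomputable def powAbs {L : Type*} [Field L] (w : AbsoluteValue L ℝ) (hw : IsNonarchimedean w)
    (N : ℕ) (hN : 1 ≤ N) : AbsoluteValue L ℝ where
  toFun x := w x ^ N
  map_mul' x y := by rw [map_mul, mul_pow]
  nonneg' x := pow_nonneg (w.nonneg x) N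
  eq_zero' x := by
    constructor
    · intro h
      exact w.eq_zero.1 (pow_eq_zero_iff (by omega) |>.1 h)
    · rintro rfl
      simp; omega
  add_le' x y := by
    have h := hw x y
    calc w (x + y) ^ N ≤ (max (w x) (w y)) ^ N := pow_le_pow_left₀ (w.nonneg _) h N
      _ ≤ w x ^ N + w y ^ N := by
        rcases le_total (w x) (w y) with h | h
        · rw [max_eq_right h]; have := pow_nonneg (w.nonneg x) N; linarith
        · rw [max_eq_left h]; have := pow_nonneg (w.nonneg y) N; linarith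

theorem cluster_na (d : ℕ) (hd : 2 ≤ d) {L : Type*} [Field L] [IsAlgClosed L]
    (w : AbsoluteValue L ℝ) (hw : IsNonarchimedean w)
    (F : L[X]) (δ : L) (R : ℝ) (hmon : F.Monic) (hF : F.natDegree = d)
    (hcen : F.coeff (d - 1) = 0) (hR : 1 ≤ R)
    (h1 : ∀ j < d, w (F.coeff j) ≤ R ^ (d - j)) (h2 : ∃ j < d, w (F.coeff j) = R ^ (d - j))
    (hδ : w δ ^ 4 ≤ R) (hbig : 1 < w (d : L) ^ 16 * R) :
    ∃ Z : Finset L, Z.card ≤ d ^ 3 ∧ ∀ x : ℤ → L, Orb F δ x → (∀ i, w (x i) ≤ R) →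
      ∃ z ∈ Z, w (x 0 - z) ^ (8 * (d - 1)) * R ^ 3 ≤ 1 := by
  obtain ⟨N0, hN0⟩ := pow_unbounded_of_one_lt ((2 : ℝ) ^ (100 * d)) hbig
  set N := N0 + 1 with hNdef
  have hN1 : 1 ≤ N := by omega
  have hN : (2 : ℝ) ^ (100 * d) ≤ (w (d : L) ^ 16 * R) ^ N :=
    hN0.le.trans (pow_le_pow_right₀ hbig.le (by omega))
  letI inst : NormedField L := (powAbs w hw N hN1).toNormedField
  have hnorm : ∀ x : L, ‖x‖ = w x ^ N := fun x => rfl
  obtain ⟨Z, hZ, hZ'⟩ := @cluster_normed d hd L inst _ F δ (R ^ N) hmon hF hcen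
    (one_le_pow₀ hR)
    (fun j hj => by
      rw [hnorm, ← pow_mul, mul_comm, pow_mul]
      exact pow_le_pow_left₀ (w.nonneg _) (h1 j hj) N)
    (by
      obtain ⟨j, hj, hj'⟩ := h2
      refine ⟨j, hj, ?_⟩
      rw [hnorm, hj', ← pow_mul, ← pow_mul, mul_comm])
    (by
      rw [hnorm, ← pow_mul, mul_comm, pow_mul]
      exact pow_le_pow_left₀ (by positivity) hδ N)
    (by
      have e : (w (d : L) ^ N) ^ 16 * R ^ N = (w (d : L) ^ 16 * R) ^ N := by ring
      rw [hnorm, e]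
      exact hN)
  refine ⟨Z, hZ, fun x hx hxR => ?_⟩
  obtain ⟨z, hz, hz'⟩ := hZ' x hx (fun i => by
    rw [hnorm]
    calc w (x i) ^ N ≤ R ^ N := pow_le_pow_left₀ (w.nonneg _) (hxR i) N
      _ ≤ (d + 1) * R ^ N := by
        have : 0 ≤ R ^ N := by positivity
        nlinarith [(Nat.cast_nonneg d : (0 : ℝ) ≤ d)])
  refine ⟨z, hz, ?_⟩
  rw [hnorm] at hz'
  have h5 : (w (x 0 - z) ^ (8 * (d - 1)) * R ^ 3) ^ N ≤ 1 := by
    calc (w (x 0 - z) ^ (8 * (d - 1)) * R ^ 3) ^ N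
        = (w (x 0 - z) ^ N) ^ (8 * (d - 1)) * (R ^ N) ^ 3 := by ring
      _ ≤ 1 := hz'
  have h0 : 0 ≤ w (x 0 - z) ^ (8 * (d - 1)) * R ^ 3 := by
    have := w.nonneg (x 0 - z)
    positivity
  exact (pow_le_one_iff_of_nonneg h0 (by omega)).1 h5

/-- Transfer of a cluster statement from the algebraically closed field to the ground field. -/
theorem transfer (d : ℕ) (hd : 2 ≤ d) {K L : Type*} [Field K] [Field L] [IsAlgClosed L]
    (σ : K →+* L) (v : AbsoluteValue K ℝ) (w : AbsoluteValue L ℝ) (hvw : ∀ x, w (σ x) = v x)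
    (δ : K) (R B : ℝ)
    (hcl : ∀ G : L[X], G.Monic → G.natDegree = d → G.coeff (d - 1) = 0 →
      (∀ j < d, w (G.coeff j) ≤ R ^ (d - j)) → (∃ j < d, w (G.coeff j) = R ^ (d - j)) →
      ∃ Z : Finset L, Z.card ≤ d ^ 3 ∧ ∀ x : ℤ → L, Orb G (σ δ) x → (∀ i, w (x i) ≤ B) →
        ∃ z ∈ Z, w (x 0 - z) ^ (8 * (d - 1)) * R ^ 3 ≤ 1)
    (F : K[X]) (hF : F.natDegree = d) (hcen : F.coeff (d - 1) = 0) (l : ℝ) (hl : 0 < l)
    (ha : v F.leadingCoeff * l ^ (d - 1) = 1)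
    (h1 : ∀ j < d, v (F.coeff j) * l ^ j ≤ l * R ^ (d - j))
    (h2 : ∃ j < d, v (F.coeff j) * l ^ j = l * R ^ (d - j)) :
    ∃ Z : Finset L, Z.card ≤ d ^ 3 ∧ ∀ x : ℤ → K, Orb F δ x → (∀ i, v (x i) ≤ B * l) →
      ∃ z ∈ Z, w (σ (x 0) - z) ^ (8 * (d - 1)) * R ^ 3 ≤ l ^ (8 * (d - 1)) := by
  have hF0 : F ≠ 0 := by rintro rfl; simp at hF; omega
  have ha0 : F.leadingCoeff ≠ 0 := by simpa using hF0
  have hσa : σ F.leadingCoeff ≠ 0 := by simpa using ha0
  obtain ⟨b, hb⟩ := IsAlgClosed.exists_pow_nat_eq ((σ F.leadingCoeff)⁻¹) (n := d - 1) (by omega)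
  have hb0 : b ≠ 0 := by
    rintro rfl
    rw [zero_pow (by omega)] at hb
    exact hσa (inv_eq_zero.1 hb.symm)
  have hwb : w b = l := by
    have e1 : w b ^ (d - 1) = l ^ (d - 1) := by
      rw [← map_pow, hb, map_inv₀, hvw]
      have : v F.leadingCoeff ≠ 0 := v.ne_zero ha0
      field_simp
      linarith
    exact (pow_left_inj₀ (w.nonneg _) hl.le (by omega)).1 e1
  set G : L[X] := C b⁻¹ * (F.map σ).comp (C b * X) with hG
  have hcoeff : ∀ j, G.coeff j = b⁻¹ * (σ (F.coeff j) * b ^ j) := by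
    intro j
    rw [hG, coeff_C_mul, comp_C_mul_X_coeff, coeff_map]
  have hwG : ∀ j, w (G.coeff j) = l⁻¹ * (v (F.coeff j) * l ^ j) := by
    intro j
    rw [hcoeff, map_mul, map_mul, map_inv₀, map_pow, hvw, hwb]
  have hGd : G.coeff d = 1 := by
    rw [hcoeff, ← hF]
    have : b ^ F.natDegree = b ^ (d - 1) * b := by rw [← pow_succ, hF]; congr 1; omega
    rw [this, hb]
    change b⁻¹ * (σ F.leadingCoeff * ((σ F.leadingCoeff)⁻¹ * b)) = 1
    field_simp
  have hGdeg : G.natDegree = d := by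
    refine le_antisymm ?_ (le_natDegree_of_ne_zero (by rw [hGd]; exact one_ne_zero))
    rw [natDegree_le_iff_coeff_eq_zero]
    intro N hN
    rw [hcoeff, coeff_eq_zero_of_natDegree_lt (by omega)]
    simp
  have hGmon : G.Monic := by rw [Monic, leadingCoeff, hGdeg, hGd]
  obtain ⟨Z, hZ, hZ'⟩ := hcl G hGmon hGdeg (by rw [hcoeff, hcen]; simp)
    (fun j hj => by
      rw [hwG]
      calc l⁻¹ * (v (F.coeff j) * l ^ j) ≤ l⁻¹ * (l * R ^ (d - j)) :=
            mul_le_mul_of_nonneg_left (h1 j hj) (by positivity)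
        _ = _ := by field_simp)
    (by
      obtain ⟨j, hj, hj'⟩ := h2
      refine ⟨j, hj, ?_⟩
      rw [hwG, hj']
      field_simp)
  classical
  refine ⟨Z.image (fun z => b * z), Finset.card_image_le.trans hZ, fun x hx hxB => ?_⟩
  obtain ⟨z, hz, hz'⟩ := hZ' (fun i => b⁻¹ * σ (x i)) (by
      intro i
      have h3 := congrArg σ (hx i)
      rw [map_add, map_mul] at h3
      have h4 : G.eval (b⁻¹ * σ (x i)) = b⁻¹ * σ (F.eval (x i)) := by
        rw [hG, eval_mul, eval_C, eval_comp, eval_mul, eval_C, eval_X, mul_inv_cancel_left₀ hb0,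
          eval_map, eval₂_at_apply]
      simp only
      rw [h4, ← h3]
      ring)
    (fun i => by
      rw [map_mul, map_inv₀, hvw, hwb]
      have := hxB i
      rw [inv_mul_le_iff₀ hl]
      linarith)
  refine ⟨b * z, Finset.mem_image_of_mem _ hz, ?_⟩
  have h5 : σ (x 0) - b * z = b * (b⁻¹ * σ (x 0) - z) := by
    field_simp
  rw [h5, map_mul, hwb, mul_pow, mul_assoc]
  calc l ^ (8 * (d - 1)) * (w (b⁻¹ * σ (x 0) - z) ^ (8 * (d - 1)) * R ^ 3)
      ≤ l ^ (8 * (d - 1)) * 1 := mul_le_mul_of_nonneg_left hz' (by positivity)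
    _ = _ := mul_one _

/-- Pigeonhole. -/
theorem pigeon {S L : Type*} [DecidableEq L] [Nonempty L] (s : Finset S) (Z : Finset L) (P : S → L → Prop)
    (N : ℕ) (hZ : Z.card ≤ N) (h : ∀ p ∈ s, ∃ z ∈ Z, P p z) :
    ∃ t ⊆ s, s.card ≤ N * t.card ∧ ∃ z, ∀ p ∈ t, P p z := by
  classical
  rcases s.eq_empty_or_nonempty with rfl | hs
  · refine ⟨∅, by simp, by simp, ?_⟩
    exact ⟨Classical.arbitrary L, by simp⟩
  have h' : ∀ p, ∃ z, p ∈ s → z ∈ Z ∧ P p z := by
    intro p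
    by_cases hp : p ∈ s
    · obtain ⟨z, hz, hz'⟩ := h p hp
      exact ⟨z, fun _ => ⟨hz, hz'⟩⟩
    · exact ⟨Classical.arbitrary L, fun h => absurd h hp⟩
  choose f hff using h'
  have hf : ∀ p ∈ s, f p ∈ Z := fun p hp => (hff p hp).1
  have hf' : ∀ p ∈ s, P p (f p) := fun p hp => (hff p hp).2
  have hZ0 : Z.Nonempty := by
    obtain ⟨p, hp⟩ := hs
    exact ⟨f p, hf p hp⟩
  obtain ⟨z, hz, hz'⟩ := Finset.exists_max_image Z (fun z => (s.filter (fun p => f p = z)).card) hZ0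
  refine ⟨s.filter (fun p => f p = z), Finset.filter_subset _ _, ?_, z, ?_⟩
  · have h1 : s.card = ∑ z ∈ Z, (s.filter (fun p => f p = z)).card :=
      Finset.card_eq_sum_card_fiberwise hf
    calc s.card = ∑ z ∈ Z, (s.filter (fun p => f p = z)).card := h1
      _ ≤ ∑ _z' ∈ Z, (s.filter (fun p => f p = z)).card := Finset.sum_le_sum hz'
      _ = Z.card * (s.filter (fun p => f p = z)).card := by simp
      _ ≤ _ := Nat.mul_le_mul_right _ hZ
  · intro p hp
    rw [Finset.mem_filter] at hp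
    rw [← hp.2]
    exact hf' p hp.1

end H420R5
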