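import Mathlib

/-!
Definitions for the determinant method for generalized Hénon maps (MP_0e6b5f_nt).
-/

namespace H420R5

open Polynomial

variable {K : Type*} [Field K]

/-- A bi-infinite orbit of the Hénon recurrence `x (i+1) + δ x (i-1) = F (x i)`. -/
def Orb (F : K[X]) (δ : K) (x : ℤ → K) : Prop :=
  ∀ i : ℤ, x (i + 1) + δ * x (i - 1) = F.eval (x i)

/-- The monomial function `x_0^i x_1^j` on a family of orbits. -/
def mon {Ω : Type*} (X : ℤ → Ω → K) (i j : ℕ) : Ω → K := fun P => X 0 P ^ i * X 1 P ^ j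

/-- The span of the monomial functions of degree `< n`. -/
def Vlt {Ω : Type*} (X : ℤ → Ω → K) (n : ℕ) : Submodule K (Ω → K) :=
  Submodule.span K {f | ∃ i j : ℕ, i + j < n ∧ f = mon X i j}

/-- `φ = c x_0^i x_1^j + (terms of degree < i + j)` as functions on the family. -/
def Lead {Ω : Type*} (X : ℤ → Ω → K) (c : K) (i j : ℕ) (φ : Ω → K) : Prop :=
  φ - c • mon X i j ∈ Vlt X (i + j)

/-- sum of the digits of `i` in base `d` -/
def ds (d i : ℕ) : ℕ := (Nat.digits d i).sum

end H420R5
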