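import Pool.Agent.H420R5.HE.MainIneq
import Pool.Agent.H420R5.HE.Close

/-!
Counting periodic points from the main inequality.
-/

namespace H420R5

open Polynomial NumberField

lemma log_one_add_mul_le {c x : ℝ} (hc : 1 ≤ c) (hx : 0 ≤ x) :
    Real.log (1 + c * x) ≤ c * Real.log (1 + x) := by
  rw [← Real.log_rpow (by linarith)]
  refine Real.log_le_log (by positivity) ?_
  exact one_add_mul_self_le_rpow_one_add (by linarith) hc

/-- solving `√m - 1 ≤ A (1 + log m)` -/
lemma solve_ineq (m A : ℝ) (hm : 1 ≤ m) (hA : 1 ≤ A)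
    (h : Real.sqrt m - 1 ≤ A * (1 + Real.log m)) :
    m ≤ 144 * (A * Real.log (1 + A)) ^ 2 := by
  set y := Real.sqrt m with hy
  have hy1 : 1 ≤ y := by rw [hy]; exact Real.one_le_sqrt.2 hm
  have hm2 : m = y ^ 2 := by rw [hy, Real.sq_sqrt (by linarith)]
  have hlog : Real.log m = 2 * Real.log y := by rw [hm2, Real.log_pow]; norm_num
  have hly : 0 ≤ Real.log y := Real.log_nonneg hy1
  have h1 : y ≤ 2 * A * (1 + Real.log y) := by
    rw [hlog] at h
    nlinarith
  have h2 : Real.log y ≤ Real.log (4 * A) + y / (4 * A) - 1 := by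
    have := Real.log_le_sub_one_of_pos (x := y / (4 * A)) (by positivity)
    rw [Real.log_div (by positivity) (by positivity)] at this
    linarith
  have h3 : y ≤ 4 * A * Real.log (4 * A) := by
    have h4 : 2 * A * (1 + Real.log y) ≤ 2 * A * (Real.log (4 * A) + y / (4 * A)) :=
      mul_le_mul_of_nonneg_left (by linarith) (by linarith)
    have h5 : 2 * A * (Real.log (4 * A) + y / (4 * A)) = 2 * A * Real.log (4 * A) + y / 2 := by
      field_simp
      ring
    linarith
  have h6 : Real.log (4 * A) ≤ 3 * Real.log (1 + A) := by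
    have : (3 : ℝ) * Real.log (1 + A) = Real.log ((1 + A) ^ 3) := by rw [Real.log_pow]; norm_num
    rw [this]
    refine Real.log_le_log (by positivity) ?_
    nlinarith [sq_nonneg (A - 1), mul_nonneg (by linarith : (0:ℝ) ≤ A) (by linarith : (0:ℝ) ≤ A)]
  have h7 : y ≤ 12 * (A * Real.log (1 + A)) := by
    calc y ≤ 4 * A * Real.log (4 * A) := h3
      _ ≤ 4 * A * (3 * Real.log (1 + A)) := mul_le_mul_of_nonneg_left h6 (by linarith)
      _ = _ := by ring
  rw [hm2]
  calc y ^ 2 ≤ (12 * (A * Real.log (1 + A))) ^ 2 := pow_le_pow_left₀ (by linarith) h7 2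
    _ = _ := by ring

/-- change of the constant inside `x log (1+x)` -/
lemma xlog_mono {c x y : ℝ} (hc : 1 ≤ c) (hx : 0 ≤ x) (hy : 0 ≤ y) (h : y ≤ c * x) :
    (y * Real.log (1 + y)) ^ 2 ≤ c ^ 4 * (x * Real.log (1 + x)) ^ 2 := by
  have h1 : Real.log (1 + y) ≤ c * Real.log (1 + x) :=
    (Real.log_le_log (by linarith) (by linarith)).trans (log_one_add_mul_le hc hx)
  have h2 : 0 ≤ Real.log (1 + y) := Real.log_nonneg (by linarith)
  have h3 : 0 ≤ Real.log (1 + x) := Real.log_nonneg (by linarith)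
  have h4 : y * Real.log (1 + y) ≤ (c * x) * (c * Real.log (1 + x)) :=
    mul_le_mul h h1 h2 (by positivity)
  calc (y * Real.log (1 + y)) ^ 2 ≤ ((c * x) * (c * Real.log (1 + x))) ^ 2 :=
        pow_le_pow_left₀ (by positivity) h4 2
    _ = _ := by ring

variable {K : Type*} [Field K] [NumberField K]

/-- a finite family of periodic orbits indexed by their starting points -/
structure Fam (F : K[X]) (δ : K) {ι : Type*} (S : Finset ι) (X : ℤ → ι → K) : Prop where
  orb : ∀ p ∈ S, Orb F δ (fun i => X i p)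
  fin : ∀ p ∈ S, (Set.range (fun i => X i p)).Finite
  inj : ∀ p ∈ S, ∀ q ∈ S, X 0 p = X 0 q → X 1 p = X 1 q → p = q

lemma finrank_ge_one' : (1 : ℝ) ≤ Module.finrank ℚ K := finrank_ge_one

/-- small subfamily at an infinite place -/
lemma card_inf {F : K[X]} (hd : 2 ≤ F.natDegree) (hcen : F.coeff (F.natDegree - 1) = 0)
    {δ : K} (hδ : δ ≠ 0) {ι : Type*} {S t : Finset ι} {X : ℤ → ι → K} (hS : Fam F δ S X)
    (hts : t ⊆ S) (w : InfinitePlace K) (r g A : ℝ) (hr : 0 < r) (hg : 0 < g)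
    (hg1 : Real.log r + g ≤ 0)
    (hg2 : Real.log r + g - Real.log (w.val δ) / ((F.natDegree : ℝ) - 1) ≤ 0)
    (hcl : ∀ p ∈ t, ∀ q ∈ t, w.val (X 0 p - X 0 q) ≤ lam F w.val * r ∧
      w.val (X 1 p - X 1 q) ≤ lam F w.val * r) (hA : 1 ≤ A)
    (hAg : 10 * F.natDegree ^ 2 * (hgt F δ + Module.finrank ℚ K) ≤ w.mult * g * A) :
    (t.card : ℝ) ≤ 144 * (A * Real.log (1 + A)) ^ 2 := by
  classical
  rcases t.eq_empty_or_nonempty with rfl | ht
  · simp; positivity
  have : Nonempty t := ht.to_subtype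
  have h := main_inf F hd hcen δ hδ (Ω := t) (fun i p => X i p.val)
    (fun P => hS.orb _ (hts P.2)) (fun P => hS.fin _ (hts P.2)) (by
      intro P Q hPQ
      simp only [Prod.mk.injEq] at hPQ
      exact Subtype.ext (hS.inj _ (hts P.2) _ (hts Q.2) hPQ.1 hPQ.2)) w r g hr hg.le hg1 hg2
    (fun P Q => hcl _ P.2 _ Q.2)
  rw [Fintype.card_coe] at h
  have hm : (1 : ℝ) ≤ t.card := by exact_mod_cast ht.card_pos
  have hl : 0 ≤ Real.log (t.card : ℝ) := Real.log_nonneg hm
  refine solve_ineq _ A hm hA ?_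
  have hw : (0 : ℝ) < w.mult := by exact_mod_cast w.mult_pos
  have h2 : w.mult * g * (Real.sqrt t.card - 1) ≤ w.mult * g * (A * (1 + Real.log t.card)) := by
    calc _ ≤ _ := h
      _ ≤ w.mult * g * A * (1 + Real.log t.card) :=
        mul_le_mul_of_nonneg_right hAg (by linarith)
      _ = _ := by ring
  exact le_of_mul_le_mul_left h2 (by positivity)

lemma card_fin {F : K[X]} (hd : 2 ≤ F.natDegree) (hcen : F.coeff (F.natDegree - 1) = 0)
    {δ : K} (hδ : δ ≠ 0) {ι : Type*} {S t : Finset ι} {X : ℤ → ι → K} (hS : Fam F δ S X)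
    (hts : t ⊆ S) (v : FinitePlace K) (r g A : ℝ) (hr : 0 < r) (hg : 0 < g)
    (hg1 : Real.log r + g ≤ 0)
    (hg2 : Real.log r + g - Real.log (v.val δ) / ((F.natDegree : ℝ) - 1) ≤ 0)
    (hcl : ∀ p ∈ t, ∀ q ∈ t, v.val (X 0 p - X 0 q) ≤ lam F v.val * r ∧
      v.val (X 1 p - X 1 q) ≤ lam F v.val * r) (hA : 1 ≤ A)
    (hAg : 10 * F.natDegree ^ 2 * (hgt F δ + Module.finrank ℚ K) ≤ g * A) :
    (t.card : ℝ) ≤ 144 * (A * Real.log (1 + A)) ^ 2 := by
  classical
  rcases t.eq_empty_or_nonempty with rfl | ht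
  · simp; positivity
  have : Nonempty t := ht.to_subtype
  have h := main_fin F hd hcen δ hδ (Ω := t) (fun i p => X i p.val)
    (fun P => hS.orb _ (hts P.2)) (fun P => hS.fin _ (hts P.2)) (by
      intro P Q hPQ
      simp only [Prod.mk.injEq] at hPQ
      exact Subtype.ext (hS.inj _ (hts P.2) _ (hts Q.2) hPQ.1 hPQ.2)) v r g hr hg.le hg1 hg2
    (fun P Q => hcl _ P.2 _ Q.2)
  rw [Fintype.card_coe] at h
  have hm : (1 : ℝ) ≤ t.card := by exact_mod_cast ht.card_pos
  have hl : 0 ≤ Real.log (t.card : ℝ) := Real.log_nonneg hm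
  refine solve_ineq _ A hm hA ?_
  have h2 : g * (Real.sqrt t.card - 1) ≤ g * (A * (1 + Real.log t.card)) := by
    calc _ ≤ _ := h
      _ ≤ g * A * (1 + Real.log t.card) :=
        mul_le_mul_of_nonneg_right hAg (by linarith)
      _ = _ := by ring
  exact le_of_mul_le_mul_left h2 hg

lemma Fam.bound {F : K[X]} (hd : 2 ≤ F.natDegree) (hcen : F.coeff (F.natDegree - 1) = 0)
    {δ : K} {ι : Type*} {S : Finset ι} {X : ℤ → ι → K} (hS : Fam F δ S X)
    (v : AbsoluteValue K ℝ) : ∀ p ∈ S, ∀ i, v (X i p)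
      ≤ ((F.natDegree : ℝ) + 1) * (lam F v * rad F δ v) := by
  have h0 : F ≠ 0 := by rintro rfl; simp at hd
  intro p hp i
  exact orbit_le F.natDegree hd F rfl hcen δ v _ _ (lam_pos F h0 v) (one_le_rad _ _ _)
    (lam_pow F hd v) (coeff_le_rad F hd hcen δ v) (delta_le_rad F hd δ v) _ (hS.orb p hp)
    (hS.fin p hp) i

lemma Fam.bound_na {F : K[X]} (hd : 2 ≤ F.natDegree) (hcen : F.coeff (F.natDegree - 1) = 0)
    {δ : K} {ι : Type*} {S : Finset ι} {X : ℤ → ι → K} (hS : Fam F δ S X)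
    (v : AbsoluteValue K ℝ) (hv : IsNonarchimedean v) : ∀ p ∈ S, ∀ i, v (X i p)
      ≤ lam F v * rad F δ v := by
  have h0 : F ≠ 0 := by rintro rfl; simp at hd
  intro p hp i
  exact orbit_le_na F.natDegree hd F rfl hcen δ v hv _ _ (lam_pos F h0 v) (one_le_rad _ _ _)
    (lam_pow F hd v) (coeff_le_rad F hd hcen δ v) (delta_le_rad F hd δ v) _ (hS.orb p hp)
    (hS.fin p hp) i

/-- gain from the archimedean compactness at an infinite place with bounded radius -/
theorem count_inf_small (d : ℕ) (B0 : ℝ) (hB0 : 1 ≤ B0) {F : K[X]} (hF : F.natDegree = d)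
    (hd : 2 ≤ d)
    (hcen : F.coeff (d - 1) = 0) {δ : K} (hδ : δ ≠ 0) {ι : Type*} {S : Finset ι}
    {X : ℤ → ι → K} (hS : Fam F δ S X) (w : InfinitePlace K) (h1 : rad F δ w.val ≤ B0)
    (h2 : -Real.log (w.val δ) ≤ B0) (x : ℝ) (hx : hgt F δ + Module.finrank ℚ K ≤ x) :
    (S.card : ℝ) ≤ (10 * (((d : ℝ) + 1) * B0 * Real.exp (1 + B0))) ^ 4 *
      (144 * ((10 * d ^ 2) ^ 4 * (x * Real.log (1 + x)) ^ 2)) := by
  subst hF
  have h0 : F ≠ 0 := by rintro rfl; simp at hd
  have hl := lam_pos F h0 w.val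
  have hd' : (2 : ℝ) ≤ F.natDegree := by exact_mod_cast hd
  have hr1 := one_le_rad F δ w.val
  obtain ⟨t, ht, hc, hcl⟩ := close_arch_small w.val w.embedding
    (fun x => InfinitePlace.norm_embedding_eq w x) (lam F w.val) (((F.natDegree : ℝ) + 1) * B0)
    (Real.exp (1 + B0)) hl (by nlinarith) (Real.one_le_exp (by linarith)) S X (by
      intro p hp i
      have := hS.bound hd hcen w.val p hp i
      calc _ ≤ _ := this
        _ ≤ ((F.natDegree : ℝ) + 1) * (lam F w.val * B0) := by gcongr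
        _ = _ := by ring)
  have hlog : Real.log (1 / (2 * Real.exp (1 + B0))) = -(Real.log 2 + (1 + B0)) := by
    rw [one_div, Real.log_inv, Real.log_mul (by norm_num) (Real.exp_pos _).ne', Real.log_exp]
  have hlog2 : 0 < Real.log 2 := Real.log_pos (by norm_num)
  have hx1 : 1 ≤ x := by
    have := hgt_nonneg F δ
    have := finrank_ge_one' (K := K)
    linarith
  have hA1 : (1 : ℝ) ≤ 10 * F.natDegree ^ 2 := by nlinarith
  have key := card_inf hd hcen hδ hS ht w (1 / (2 * Real.exp (1 + B0))) 1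
    (10 * F.natDegree ^ 2 * x) (by positivity) one_pos (by rw [hlog]; linarith)
    (by
      rw [hlog]
      have : -Real.log (w.val δ) / ((F.natDegree : ℝ) - 1) ≤ B0 := by
        rw [div_le_iff₀ (by linarith)]
        nlinarith
      rw [neg_div] at this
      linarith) hcl (by nlinarith) (by
      have hm : (1 : ℝ) ≤ w.mult := by exact_mod_cast w.one_le_mult
      have h5 : 10 * (F.natDegree : ℝ) ^ 2 * (hgt F δ + Module.finrank ℚ K)
          ≤ 10 * F.natDegree ^ 2 * x := mul_le_mul_of_nonneg_left hx (by positivity)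
      have h6 : 0 ≤ 10 * (F.natDegree : ℝ) ^ 2 * x := by positivity
      nlinarith)
  have h7 := xlog_mono (c := 10 * F.natDegree ^ 2) (x := x) (y := 10 * F.natDegree ^ 2 * x)
    hA1 (by linarith) (by positivity) le_rfl
  calc (S.card : ℝ) ≤ (10 * (((F.natDegree : ℝ) + 1) * B0 * Real.exp (1 + B0))) ^ 4 * t.card := hc
    _ ≤ (10 * (((F.natDegree : ℝ) + 1) * B0 * Real.exp (1 + B0))) ^ 4 *
      (144 * ((10 * F.natDegree ^ 2) ^ 4 * (x * Real.log (1 + x)) ^ 2)) := by
        refine mul_le_mul_of_nonneg_left ?_ (by positivity)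
        refine key.trans (mul_le_mul_of_nonneg_left h7 (by norm_num))

lemma log_rho {d : ℕ} {R : ℝ} (hR : 0 < R) :
    Real.log (rho d R) = -(3 : ℝ) / (8 * ((d : ℝ) - 1)) * Real.log R := by
  rw [rho, Real.log_rpow hR]

lemma fin_le_hgt (F : K[X]) (hd : 2 ≤ F.natDegree) (δ : K) (hδ : δ ≠ 0) (v : FinitePlace K) :
    Real.log (rad F δ v.val) ≤ hgt F δ := by
  have h : ∀ v : AbsoluteValue K ℝ, 0 ≤ Real.log (rad F δ v) :=
    fun v => Real.log_nonneg (one_le_rad _ _ _)
  have h1 : Real.log (rad F δ v.val) ≤ ∑ᶠ v : FinitePlace K, Real.log (rad F δ v.val) :=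
    single_le_finsum v (FS_rad F hd δ hδ) (fun v => h _)
  have h2 : 0 ≤ ∑ w : InfinitePlace K, (w.mult : ℝ) * Real.log (rad F δ w.val) :=
    Finset.sum_nonneg fun w _ => mul_nonneg (by positivity) (h _)
  rw [hgt, tot]
  linarith

/-- gain at a finite place -/
theorem count_fin (d : ℕ) {F : K[X]} (hF : F.natDegree = d) (hd : 2 ≤ d)
    (hcen : F.coeff (d - 1) = 0) {δ : K} (hδ : δ ≠ 0) {ι : Type*} {S : Finset ι}
    {X : ℤ → ι → K} (hS : Fam F δ S X) (v : FinitePlace K)
    (h1 : |Real.log (v.val δ)| ≤ 1 / 4 * Real.log (rad F δ v.val))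
    (h2 : 1 < v.val (d : K) ^ 16 * rad F δ v.val) (y : ℝ)
    (hy : hgt F δ + Module.finrank ℚ K ≤ y * Real.log (rad F δ v.val)) :
    (S.card : ℝ) ≤ d ^ 6 * (144 * ((80 * d ^ 3) ^ 4 * (y * Real.log (1 + y)) ^ 2)) := by
  subst hF
  have h0 : F ≠ 0 := by rintro rfl; simp at hd
  have hna : IsNonarchimedean v.val := FinitePlace.add_le v
  have hd' : (2 : ℝ) ≤ F.natDegree := by exact_mod_cast hd
  have hr1 := one_le_rad F δ v.val
  have hvd : v.val (F.natDegree : K) ≤ 1 := hna.apply_natCast_le_one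
  have hR : 1 < rad F δ v.val := by
    have h3 : v.val (F.natDegree : K) ^ 16 ≤ 1 := pow_le_one₀ (v.val.nonneg _) hvd
    nlinarith
  have hL : 0 < Real.log (rad F δ v.val) := Real.log_pos hR
  set L := Real.log (rad F δ v.val) with hLdef
  have hvδ : 0 < v.val δ := v.val.pos hδ
  have h4 : v.val δ ^ 4 ≤ rad F δ v.val := by
    rw [← Real.log_le_log_iff (by positivity) (by linarith), Real.log_pow]
    have := (abs_le.1 h1).2
    push_cast
    linarith
  obtain ⟨t, ht, hc, hcl⟩ := close_na F.natDegree hd F rfl hcen δ v.val hna h4 h2 S X hS.orb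
    (hS.bound_na hd hcen v.val hna)
  have hd1 : (0 : ℝ) < (F.natDegree : ℝ) - 1 := by linarith
  have hxy : Real.log (rad F δ v.val) ≤ y * Real.log (rad F δ v.val) := by
    have := fin_le_hgt F hd δ hδ v
    have := finrank_ge_one' (K := K)
    linarith
  have hy1 : 1 ≤ y := by
    by_contra hcon
    push Not at hcon
    nlinarith
  have hrho : 0 < rho F.natDegree (rad F δ v.val) := Real.rpow_pos_of_pos (by linarith) _
  have hlr := log_rho (d := F.natDegree) (R := rad F δ v.val) (by linarith)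
  have e1 : -(3 : ℝ) / (8 * ((F.natDegree : ℝ) - 1)) * L + L / (8 * ((F.natDegree : ℝ) - 1))
      = -(L / (4 * ((F.natDegree : ℝ) - 1))) := by
    field_simp
    ring
  have key := card_fin hd hcen hδ hS ht v (rho F.natDegree (rad F δ v.val))
    (L / (8 * ((F.natDegree : ℝ) - 1)))
    (80 * F.natDegree ^ 3 * y) hrho (by positivity) (by
      rw [hlr, ← hLdef, e1]
      have : 0 < L / (4 * ((F.natDegree : ℝ) - 1)) := by positivity
      linarith)
    (by
      rw [hlr, ← hLdef, e1]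
      have h5 := (abs_le.1 h1).1
      have h6 : -(L / (4 * ((F.natDegree : ℝ) - 1))) ≤ Real.log (v.val δ) / ((F.natDegree : ℝ) - 1) := by
        rw [le_div_iff₀ hd1]
        have : -(L / (4 * ((F.natDegree : ℝ) - 1))) * ((F.natDegree : ℝ) - 1) = -(1 / 4 * L) := by
          field_simp
        rw [this]
        exact h5
      linarith)
    (fun p hp q hq => hcl p hp q hq) (by
      have h3 : (1 : ℝ) ≤ (F.natDegree : ℝ) ^ 3 := one_le_pow₀ (by linarith)
      have h4 : (1 : ℝ) ≤ (F.natDegree : ℝ) ^ 3 * y := one_le_mul_of_one_le_of_one_le h3 hy1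
      nlinarith) (by
      have h5 : L / (8 * ((F.natDegree : ℝ) - 1)) * (80 * F.natDegree ^ 3 * y)
          = 10 * F.natDegree ^ 2 * (y * L) * (F.natDegree / ((F.natDegree : ℝ) - 1)) := by
        field_simp
        ring
      rw [h5]
      have h6 : (1 : ℝ) ≤ F.natDegree / ((F.natDegree : ℝ) - 1) := by
        rw [le_div_iff₀ hd1]; linarith
      have h7 : 10 * (F.natDegree : ℝ) ^ 2 * (hgt F δ + Module.finrank ℚ K)
          ≤ 10 * F.natDegree ^ 2 * (y * L) := mul_le_mul_of_nonneg_left hy (by positivity)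
      have h8 : 0 ≤ 10 * (F.natDegree : ℝ) ^ 2 * (y * L) := by positivity
      nlinarith)
  have hA1 : (1 : ℝ) ≤ 80 * F.natDegree ^ 3 := by
    have : (1 : ℝ) ≤ (F.natDegree : ℝ) ^ 3 := one_le_pow₀ (by linarith)
    linarith
  have h7 := xlog_mono (c := 80 * F.natDegree ^ 3) (x := y) (y := 80 * F.natDegree ^ 3 * y)
    hA1 (by linarith) (by positivity) le_rfl
  calc (S.card : ℝ) ≤ F.natDegree ^ 6 * t.card := by exact_mod_cast hc
    _ ≤ _ := by
        refine mul_le_mul_of_nonneg_left ?_ (by positivity)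
        refine key.trans (mul_le_mul_of_nonneg_left h7 (by norm_num))

/-- gain at an infinite place with large radius -/
theorem count_inf_big (d : ℕ) {F : K[X]} (hF : F.natDegree = d) (hd : 2 ≤ d)
    (hcen : F.coeff (d - 1) = 0) {δ : K} (hδ : δ ≠ 0) {ι : Type*} {S : Finset ι}
    {X : ℤ → ι → K} (hS : Fam F δ S X) (w : InfinitePlace K)
    (h1 : |Real.log (w.val δ)| ≤ 1 / 4 * Real.log (rad F δ w.val))
    (h2 : (2 : ℝ) ^ (100 * d) ≤ rad F δ w.val) (y : ℝ)
    (hy : hgt F δ + Module.finrank ℚ K ≤ y * (w.mult * Real.log (rad F δ w.val))) :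
    (S.card : ℝ) ≤ d ^ 6 * (144 * ((160 * d ^ 3) ^ 4 * (y * Real.log (1 + y)) ^ 2)) := by
  subst hF
  have h0 : F ≠ 0 := by rintro rfl; simp at hd
  have hd' : (2 : ℝ) ≤ F.natDegree := by exact_mod_cast hd
  have hr1 := one_le_rad F δ w.val
  have hlog2 : 0 < Real.log 2 := Real.log_pos (by norm_num)
  set L := Real.log (rad F δ w.val) with hLdef
  have hLbig : 100 * F.natDegree * Real.log 2 ≤ L := by
    have := Real.log_le_log (by positivity) h2
    rw [Real.log_pow] at this
    push_cast at this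
    exact this
  have hL : 0 < L := lt_of_lt_of_le (by positivity) hLbig
  have hwδ : 0 < w.val δ := w.val.pos hδ
  have h4 : w.val δ ^ 4 ≤ rad F δ w.val := by
    rw [← Real.log_le_log_iff (by positivity) (by linarith), Real.log_pow]
    have := (abs_le.1 h1).2
    push_cast
    linarith
  obtain ⟨t, ht, hc, hcl⟩ := close_arch_big F.natDegree hd F rfl hcen δ w.val w.embedding
    (fun x => InfinitePlace.norm_embedding_eq w x) h4 h2 S X hS.orb
    (hS.bound hd hcen w.val)
  have hd1 : (0 : ℝ) < (F.natDegree : ℝ) - 1 := by linarith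
  have hm : (1 : ℝ) ≤ w.mult := by exact_mod_cast w.one_le_mult
  have hy1 : 1 ≤ y := by
    have h5 := inf_le_hgt F δ w
    have h6 := finrank_ge_one' (K := K)
    have h7 : 0 < (w.mult : ℝ) * L := by positivity
    by_contra hcon
    push Not at hcon
    nlinarith
  have hrho : 0 < rho F.natDegree (rad F δ w.val) := Real.rpow_pos_of_pos (by linarith) _
  have hlr : Real.log (2 * rho F.natDegree (rad F δ w.val))
      = Real.log 2 + -(3 : ℝ) / (8 * ((F.natDegree : ℝ) - 1)) * L := by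
    rw [Real.log_mul (by norm_num) hrho.ne', log_rho (by linarith)]
  have e1 : Real.log 2 + -(3 : ℝ) / (8 * ((F.natDegree : ℝ) - 1)) * L
        + L / (16 * ((F.natDegree : ℝ) - 1))
      = (Real.log 2 - L / (16 * ((F.natDegree : ℝ) - 1))) - L / (4 * ((F.natDegree : ℝ) - 1)) := by
    field_simp
    ring
  have e2 : Real.log 2 - L / (16 * ((F.natDegree : ℝ) - 1)) ≤ 0 := by
    rw [sub_nonpos, le_div_iff₀ (by positivity)]
    nlinarith
  have key := card_inf hd hcen hδ hS ht w (2 * rho F.natDegree (rad F δ w.val))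
    (L / (16 * ((F.natDegree : ℝ) - 1)))
    (160 * F.natDegree ^ 3 * y) (by positivity) (by positivity) (by
      rw [hlr, e1]
      have : 0 < L / (4 * ((F.natDegree : ℝ) - 1)) := by positivity
      linarith)
    (by
      rw [hlr, e1]
      have h5 := (abs_le.1 h1).1
      have h6 : -(L / (4 * ((F.natDegree : ℝ) - 1))) ≤ Real.log (w.val δ) / ((F.natDegree : ℝ) - 1) := by
        rw [le_div_iff₀ hd1]
        have : -(L / (4 * ((F.natDegree : ℝ) - 1))) * ((F.natDegree : ℝ) - 1) = -(1 / 4 * L) := by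
          field_simp
        rw [this]
        exact h5
      linarith)
    (fun p hp q hq => hcl p hp q hq) (by
      have h3 : (1 : ℝ) ≤ (F.natDegree : ℝ) ^ 3 := one_le_pow₀ (by linarith)
      have h4 : (1 : ℝ) ≤ (F.natDegree : ℝ) ^ 3 * y := one_le_mul_of_one_le_of_one_le h3 hy1
      nlinarith) (by
      have h5 : w.mult * (L / (16 * ((F.natDegree : ℝ) - 1))) * (160 * F.natDegree ^ 3 * y)
          = 10 * F.natDegree ^ 2 * (y * (w.mult * L)) * (F.natDegree / ((F.natDegree : ℝ) - 1)) := by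
        field_simp
        ring
      rw [h5]
      have h6 : (1 : ℝ) ≤ F.natDegree / ((F.natDegree : ℝ) - 1) := by
        rw [le_div_iff₀ hd1]; linarith
      have h7 : 10 * (F.natDegree : ℝ) ^ 2 * (hgt F δ + Module.finrank ℚ K)
          ≤ 10 * F.natDegree ^ 2 * (y * (w.mult * L)) := mul_le_mul_of_nonneg_left hy (by positivity)
      have h8 : 0 ≤ 10 * (F.natDegree : ℝ) ^ 2 * (y * (w.mult * L)) := by positivity
      nlinarith)
  have hA1 : (1 : ℝ) ≤ 160 * F.natDegree ^ 3 := by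
    have : (1 : ℝ) ≤ (F.natDegree : ℝ) ^ 3 := one_le_pow₀ (by linarith)
    linarith
  have h7 := xlog_mono (c := 160 * F.natDegree ^ 3) (x := y) (y := 160 * F.natDegree ^ 3 * y)
    hA1 (by linarith) (by positivity) le_rfl
  calc (S.card : ℝ) ≤ F.natDegree ^ 6 * t.card := by exact_mod_cast hc
    _ ≤ _ := by
        refine mul_le_mul_of_nonneg_left ?_ (by positivity)
        refine key.trans (mul_le_mul_of_nonneg_left h7 (by norm_num))

end H420R5
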