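import Pool.Agent.H420R5.HE.Defs

namespace H420R5

open Polynomial

variable {K : Type*} [Field K]

namespace T1Aux

variable {Ω : Type*} (X : ℤ → Ω → K)

theorem Vlt_mono {m n : ℕ} (h : m ≤ n) : Vlt X m ≤ Vlt X n := by
  apply Submodule.span_mono
  rintro f ⟨i, j, hij, rfl⟩
  exact ⟨i, j, by omega, rfl⟩

theorem mon_mul (i j k l : ℕ) : mon X i j * mon X k l = mon X (i + k) (j + l) := by
  funext P
  simp only [mon, Pi.mul_apply]
  ring

theorem mon_mem {i j n : ℕ} (h : i + j < n) : mon X i j ∈ Vlt X n :=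
  Submodule.subset_span ⟨i, j, h, rfl⟩

theorem mul_mem {s t : ℕ} {f g : Ω → K} (hf : f ∈ Vlt X s) (hg : g ∈ Vlt X (t + 1)) :
    f * g ∈ Vlt X (s + t) := by
  have h1 : f * g ∈ Vlt X s * Vlt X (t + 1) := Submodule.mul_mem_mul hf hg
  have h2 : Vlt X s * Vlt X (t + 1) ≤ Vlt X (s + t) := by
    unfold Vlt
    rw [Submodule.span_mul_span]
    apply Submodule.span_mono
    rintro h ⟨f', ⟨i, j, hij, rfl⟩, g', ⟨k, l, hkl, rfl⟩, rfl⟩
    exact ⟨i + k, j + l, by omega, mon_mul X i j k l⟩
  exact h2 h1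

theorem lead_mem {c : K} {i j : ℕ} {φ : Ω → K} (h : Lead X c i j φ) : φ ∈ Vlt X (i + j + 1) := by
  have h1 : φ = (φ - c • mon X i j) + c • mon X i j := by abel
  rw [h1]
  exact Submodule.add_mem _ (Vlt_mono X (by omega) h)
    (Submodule.smul_mem _ _ (mon_mem X (by omega)))

theorem lead_mul {c c' : K} {i j k l : ℕ} {φ ψ : Ω → K} (h : Lead X c i j φ)
    (h' : Lead X c' k l ψ) : Lead X (c * c') (i + k) (j + l) (φ * ψ) := by
  have h1 : φ * ψ - (c * c') • mon X (i + k) (j + l) =
      (φ - c • mon X i j) * ψ + (ψ - c' • mon X k l) * (c • mon X i j) := by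
    rw [← mon_mul]
    funext P
    simp only [Pi.mul_apply, Pi.sub_apply, Pi.add_apply, Pi.smul_apply, smul_eq_mul]
    ring
  unfold Lead
  rw [h1]
  apply Submodule.add_mem
  · have := mul_mem X (s := i + j) (t := k + l) h (lead_mem X h')
    rwa [show i + k + (j + l) = i + j + (k + l) by ring]
  · have := mul_mem X (s := k + l) (t := i + j) h'
      (Submodule.smul_mem _ c (mon_mem X (by omega : i + j < i + j + 1)))
    rwa [show i + k + (j + l) = k + l + (i + j) by ring]

theorem lead_one : Lead X 1 0 0 (1 : Ω → K) := by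
  have h1 : (1 : Ω → K) - (1 : K) • mon X 0 0 = 0 := by
    funext P
    simp [mon]
  unfold Lead
  rw [h1]
  exact Submodule.zero_mem _

theorem lead_pow {c : K} {i j : ℕ} {φ : Ω → K} (h : Lead X c i j φ) (n : ℕ) :
    Lead X (c ^ n) (n * i) (n * j) (φ ^ n) := by
  induction n with
  | zero => simpa using lead_one X
  | succ n ih =>
    have := lead_mul X ih h
    rw [pow_succ, pow_succ, Nat.succ_mul, Nat.succ_mul]
    exact this

/-- One step of the recursion. -/
theorem lead_step (d : ℕ) (hd : 2 ≤ d) (F : K[X]) (hF : F.natDegree = d) {c : K} {i j : ℕ}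
    (hij : 1 ≤ i + j) {φ ψ : Ω → K} (h : Lead X c i j φ) (hψ : ψ ∈ Vlt X (d * i + d * j)) (β : K) :
    Lead X (β * (F.leadingCoeff * c ^ d)) (d * i) (d * j)
      (β • ((fun P => F.eval (φ P)) - ψ)) := by
  have h1 : (fun P => F.eval (φ P)) = (∑ k ∈ Finset.range d, F.coeff k • φ ^ k) +
      F.leadingCoeff • φ ^ d := by
    funext P
    rw [eval_eq_sum_range, hF, Finset.sum_range_succ]
    simp only [Pi.add_apply, Finset.sum_apply, Pi.smul_apply, Pi.pow_apply, smul_eq_mul,
      leadingCoeff, hF]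
  have h2 : β • ((fun P => F.eval (φ P)) - ψ) - (β * (F.leadingCoeff * c ^ d)) •
      mon X (d * i) (d * j) = β • ((∑ k ∈ Finset.range d, F.coeff k • φ ^ k) - ψ +
        F.leadingCoeff • (φ ^ d - (c ^ d) • mon X (d * i) (d * j))) := by
    rw [h1]
    funext P
    simp only [Pi.add_apply, Pi.sub_apply, Finset.sum_apply, Pi.smul_apply, Pi.pow_apply,
      smul_eq_mul]
    ring
  unfold Lead
  rw [h2]
  apply Submodule.smul_mem
  apply Submodule.add_mem
  · apply Submodule.sub_mem _ _ hψ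
    apply Submodule.sum_mem
    intro k hk
    have hk' := Finset.mem_range.1 hk
    apply Submodule.smul_mem
    have h3 := lead_mem X (lead_pow X h k)
    apply Vlt_mono X _ h3
    obtain ⟨q, rfl⟩ : ∃ q, d = k + 1 + q := ⟨d - (k + 1), by omega⟩
    nlinarith [Nat.zero_le (q * (i + j))]
  · exact Submodule.smul_mem _ _ (lead_pow X h d)

/-- the exponents of the constants -/
def ee (d : ℕ) : ℕ → ℕ
  | 0 => 0
  | l + 1 => d * ee d l + 1

theorem ee_spec (d : ℕ) (hd : 2 ≤ d) (l : ℕ) : (d - 1) * ee d l + 1 = d ^ l := by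
  induction l with
  | zero => simp [ee]
  | succ l ih =>
    obtain ⟨k, rfl⟩ : ∃ k, d = k + 1 := ⟨d - 1, by omega⟩
    simp only [ee, Nat.add_sub_cancel] at ih ⊢
    rw [pow_succ, ← ih]
    ring

theorem chain (d : ℕ) (hd : 2 ≤ d) (F : K[X]) (hF : F.natDegree = d) (Y : ℕ → Ω → K)
    (Z : Ω → K) (u w : ℕ) (huw : u + w = 1) (β γ : K) (hY0 : Y 0 = mon X u w) (hZ : Z ∈ Vlt X 2)
    (hY1 : Y 1 = β • ((fun P => F.eval (Y 0 P)) - γ • Z))
    (hYs : ∀ l, Y (l + 2) = β • ((fun P => F.eval (Y (l + 1) P)) - γ • Y l)) (l : ℕ) :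
    Lead X ((β * F.leadingCoeff) ^ ee d l) (u * d ^ l) (w * d ^ l) (Y l) := by
  have key : ∀ l, Lead X ((β * F.leadingCoeff) ^ ee d l) (u * d ^ l) (w * d ^ l) (Y l) ∧
      Lead X ((β * F.leadingCoeff) ^ ee d (l + 1)) (u * d ^ (l + 1)) (w * d ^ (l + 1))
        (Y (l + 1)) := by
    intro l
    have aux : ∀ (l : ℕ) (ψ : Ω → K), ψ ∈ Vlt X (d ^ (l + 1)) →
        Lead X ((β * F.leadingCoeff) ^ ee d l) (u * d ^ l) (w * d ^ l) (Y l) →
        Lead X ((β * F.leadingCoeff) ^ ee d (l + 1)) (u * d ^ (l + 1)) (w * d ^ (l + 1))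
          (β • ((fun P => F.eval (Y l P)) - ψ)) := by
      intro l ψ hψ h
      have hpos : 0 < d ^ l := Nat.pow_pos (by omega)
      have hsum : u * d ^ l + w * d ^ l = d ^ l := by rw [← Nat.add_mul, huw, one_mul]
      have h3 := lead_step X d hd F hF (by omega) h (ψ := ψ) (by
        rw [← Nat.mul_add, hsum, ← pow_succ']
        exact hψ) β
      have e1 : β * (F.leadingCoeff * ((β * F.leadingCoeff) ^ ee d l) ^ d) =
          (β * F.leadingCoeff) ^ ee d (l + 1) := by
        simp only [ee]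
        rw [pow_succ, pow_mul', ]
        ring
      have e2 : d * (u * d ^ l) = u * d ^ (l + 1) := by ring
      have e3 : d * (w * d ^ l) = w * d ^ (l + 1) := by ring
      rw [e1, e2, e3] at h3
      exact h3
    induction l with
    | zero =>
      have h0 : Lead X ((β * F.leadingCoeff) ^ ee d 0) (u * d ^ 0) (w * d ^ 0) (Y 0) := by
        simp only [ee, pow_zero, mul_one]
        unfold Lead
        rw [hY0, one_smul, sub_self]
        exact Submodule.zero_mem _
      refine ⟨h0, ?_⟩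
      rw [hY1]
      apply aux 0 _ _ h0
      apply Submodule.smul_mem
      apply Vlt_mono X _ hZ
      simpa using hd
    | succ l ih =>
      refine ⟨ih.2, ?_⟩
      rw [show l + 1 + 1 = l + 2 by ring, hYs l]
      apply aux (l + 1) _ _ ih.2
      apply Submodule.smul_mem
      apply Vlt_mono X _ (lead_mem X ih.1)
      have hpos : 0 < d ^ l := Nat.pow_pos (by omega)
      have hsum : u * d ^ l + w * d ^ l = d ^ l := by rw [← Nat.add_mul, huw, one_mul]
      rw [hsum, show l + 1 + 1 = l + 2 by ring, pow_add]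
      nlinarith [Nat.mul_le_mul hd hd]
  exact (key l).1

theorem digits (d : ℕ) (hd : 2 ≤ d) (Y : ℕ → Ω → K) (c0 : K) (u w : ℕ)
    (hY : ∀ l, Lead X (c0 ^ ee d l) (u * d ^ l) (w * d ^ l) (Y l)) (hv : ∀ l, ∃ k, Y l = X k)
    (i : ℕ) : ∀ l : ℕ, ∃ (φ : Ω → K) (E : ℕ), (d - 1) * E + ds d i = d ^ l * i ∧
      Lead X (c0 ^ E) (u * (d ^ l * i)) (w * (d ^ l * i)) φ ∧
      ∀ (v : AbsoluteValue K ℝ) (T : ℝ) (P : Ω), (∀ k, v (X k P) ≤ T) →
        v (φ P) ≤ T ^ (ds d i) := by
  induction i using Nat.strong_induction_on with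
  | _ i ih =>
    intro l
    rcases Nat.eq_zero_or_pos i with h0 | h0
    · subst h0
      refine ⟨1, 0, by simp [ds], ?_, ?_⟩
      · simpa using lead_one X
      · intro v T P _
        simp [ds]
    · obtain ⟨φ, E, h1, h2, h3⟩ := ih (i / d) (Nat.div_lt_self h0 (by omega)) (l + 1)
      have hds : ds d i = i % d + ds d (i / d) := by
        unfold ds
        rw [Nat.digits_def' (by omega) h0, List.sum_cons]
      have hi : d * (i / d) + i % d = i := Nat.div_add_mod i d
      have hee := ee_spec d hd l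
      set q := i / d with hq
      set r := i % d with hr
      refine ⟨Y l ^ r * φ, r * ee d l + E, ?_, ?_, ?_⟩
      · rw [hds]
        calc (d - 1) * (r * ee d l + E) + (r + ds d q)
            = r * ((d - 1) * ee d l + 1) + ((d - 1) * E + ds d q) := by ring
          _ = r * d ^ l + d ^ (l + 1) * q := by rw [hee, h1]
          _ = d ^ l * (d * q + r) := by ring
          _ = d ^ l * i := by rw [hi]
      · have h4 := lead_mul X (lead_pow X (hY l) r) h2
        have e1 : (c0 ^ ee d l) ^ r * c0 ^ E = c0 ^ (r * ee d l + E) := by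
          rw [pow_add, ← pow_mul, mul_comm r]
        have e2 : ∀ s : ℕ, r * (s * d ^ l) + s * (d ^ (l + 1) * q) = s * (d ^ l * i) := by
          intro s
          calc r * (s * d ^ l) + s * (d ^ (l + 1) * q) = s * (d ^ l * (d * q + r)) := by ring
            _ = s * (d ^ l * i) := by rw [hi]
        rw [e1, e2, e2] at h4
        exact h4
      · intro v T P hT
        obtain ⟨k, hk⟩ := hv l
        rw [hds, pow_add]
        have hT0 : 0 ≤ T := (v.nonneg _).trans (hT 0)
        have h5 : v (Y l P) ≤ T := by rw [hk]; exact hT k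
        simp only [Pi.mul_apply, Pi.pow_apply, map_mul, map_pow]
        exact mul_le_mul (pow_le_pow_left₀ (v.nonneg _) h5 r) (h3 v T P hT) (v.nonneg _)
          (by positivity)

end T1Aux

open T1Aux in
/-- T1: for every `(i,j)` there is a product of `ds d i + ds d j` of the functions `X k` with leading
term `(a/δ)^E1 a^E2 x_0^i x_1^j`. -/
theorem exists_basis {Ω : Type*} (d : ℕ) (hd : 2 ≤ d) (F : K[X]) (hF : F.natDegree = d) (δ : K)
    (hδ : δ ≠ 0) (X : ℤ → Ω → K) (hX : ∀ P, Orb F δ (fun l => X l P)) (i j : ℕ) :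
    ∃ (φ : Ω → K) (E1 E2 : ℕ), (d - 1) * E1 + ds d i = i ∧ (d - 1) * E2 + ds d j = j ∧
      Lead X ((F.leadingCoeff / δ) ^ E1 * F.leadingCoeff ^ E2) i j φ ∧
      ∀ (v : AbsoluteValue K ℝ) (T : ℝ) (P : Ω), (∀ k, v (X k P) ≤ T) →
        v (φ P) ≤ T ^ (ds d i + ds d j) := by
  have m10 : X 0 = mon X 1 0 := by
    funext P; simp [mon]
  have m01 : X 1 = mon X 0 1 := by
    funext P; simp [mon]
  have hm0 : X 0 ∈ Vlt X 2 := by
    rw [m10]
    exact mon_mem X (by norm_num)
  have hm1 : X 1 ∈ Vlt X 2 := by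
    rw [m01]
    exact mon_mem X (by norm_num)
  -- forward functions
  have hA := chain X d hd F hF (fun l : ℕ => X (1 + l)) (X 0) 0 1 rfl 1 δ (by simpa using m01) hm0
    (by
      funext P
      have h := hX P 1
      simp only [Nat.cast_one, Nat.cast_zero, add_zero, Pi.smul_apply, Pi.sub_apply, smul_eq_mul,
        one_mul, sub_self] at h ⊢
      linear_combination h)
    (by
      intro l
      funext P
      have h := hX P (1 + ((l + 1 : ℕ) : ℤ))
      have e1 : (1 : ℤ) + ((l + 1 : ℕ) : ℤ) + 1 = 1 + ((l + 2 : ℕ) : ℤ) := by push_cast; ring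
      have e2 : (1 : ℤ) + ((l + 1 : ℕ) : ℤ) - 1 = 1 + (l : ℤ) := by push_cast; ring
      simp only [e1, e2] at h
      simp only [Pi.smul_apply, Pi.sub_apply, smul_eq_mul, one_mul]
      linear_combination h)
  -- backward functions
  have hB := chain X d hd F hF (fun l : ℕ => X (-(l : ℤ))) (X 1) 1 0 rfl δ⁻¹ 1 (by simpa using m10)
    hm1
    (by
      funext P
      have h := hX P 0
      simp only [Nat.cast_one, Nat.cast_zero, neg_zero, Pi.smul_apply, Pi.sub_apply, smul_eq_mul,
        one_mul, zero_add, zero_sub] at h ⊢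
      rw [← h]
      field_simp
      ring)
    (by
      intro l
      funext P
      have h := hX P (-((l + 1 : ℕ) : ℤ))
      have e1 : -((l + 1 : ℕ) : ℤ) + 1 = -(l : ℤ) := by push_cast; ring
      have e2 : -((l + 1 : ℕ) : ℤ) - 1 = -((l + 2 : ℕ) : ℤ) := by push_cast; ring
      simp only [e1, e2] at h
      simp only [Pi.smul_apply, Pi.sub_apply, smul_eq_mul, one_mul]
      rw [← h]
      field_simp
      ring)
  obtain ⟨φ1, E1, a1, b1, c1⟩ := digits X d hd (fun l : ℕ => X (-(l : ℤ)))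
    (δ⁻¹ * F.leadingCoeff) 1 0 hB (fun l => ⟨_, rfl⟩) i 0
  obtain ⟨φ2, E2, a2, b2, c2⟩ := digits X d hd (fun l : ℕ => X (1 + l))
    (1 * F.leadingCoeff) 0 1 hA (fun l => ⟨_, rfl⟩) j 0
  refine ⟨φ1 * φ2, E1, E2, by simpa using a1, by simpa using a2, ?_, ?_⟩
  · have h := lead_mul X b1 b2
    simp only [pow_zero, one_mul, zero_mul, add_zero, zero_add] at h
    rw [show F.leadingCoeff / δ = δ⁻¹ * F.leadingCoeff by rw [div_eq_mul_inv, mul_comm]]
    exact h
  · intro v T P hT
    have hT0 : 0 ≤ T := (v.nonneg _).trans (hT 0)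
    rw [pow_add, Pi.mul_apply, map_mul]
    exact mul_le_mul (c1 v T P hT) (c2 v T P hT) (v.nonneg _) (by positivity)

end H420R5
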