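import Pool.Agent.H420R5.HE.Defs

namespace H420R5

open Polynomial

variable {K : Type*} [Field K]

section t2

variable {Ω : Type*} (X : ℤ → Ω → K)

/-- monomials of degree `< n` -/
def t2T (n : ℕ) : Set (ℕ × ℕ) := {μ | μ.1 + μ.2 < n}

/-- monomial functions -/
def t2v (μ : ℕ × ℕ) : Ω → K := mon X μ.1 μ.2

theorem t2_Vlt (n : ℕ) : Vlt X n = Submodule.span K (t2v X '' t2T n) := by
  unfold Vlt
  congr 1
  ext f
  constructor
  · rintro ⟨i, j, hij, rfl⟩
    exact ⟨(i, j), hij, rfl⟩
  · rintro ⟨⟨i, j⟩, hij, rfl⟩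
    exact ⟨i, j, hij, rfl⟩

theorem t2_mono {m n : ℕ} (h : m ≤ n) : Vlt X m ≤ Vlt X n := by
  rw [t2_Vlt, t2_Vlt]
  refine Submodule.span_mono (Set.image_mono ?_)
  intro μ hμ
  exact lt_of_lt_of_le hμ h

theorem t2_mem {i j n : ℕ} (h : i + j < n) : mon X i j ∈ Vlt X n :=
  Submodule.subset_span ⟨i, j, h, rfl⟩

theorem t2_mul0 {n : ℕ} {f : Ω → K} (hf : f ∈ Vlt X n) : X 0 * f ∈ Vlt X (n + 1) := by
  unfold Vlt at hf
  refine Submodule.span_induction ?_ ?_ ?_ ?_ hf
  · rintro g ⟨i, j, hij, rfl⟩
    have e : X 0 * mon X i j = mon X (i + 1) j := by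
      funext P
      simp only [mon, Pi.mul_apply]
      ring
    rw [e]
    exact t2_mem X (by omega)
  · rw [mul_zero]
    exact Submodule.zero_mem _
  · intro x y _ _ hx hy
    rw [mul_add]
    exact Submodule.add_mem _ hx hy
  · intro a x _ hx
    rw [mul_smul_comm]
    exact Submodule.smul_mem _ a hx

theorem t2_mul1 {n : ℕ} {f : Ω → K} (hf : f ∈ Vlt X n) : X 1 * f ∈ Vlt X (n + 1) := by
  unfold Vlt at hf
  refine Submodule.span_induction ?_ ?_ ?_ ?_ hf
  · rintro g ⟨i, j, hij, rfl⟩
    have e : X 1 * mon X i j = mon X i (j + 1) := by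
      funext P
      simp only [mon, Pi.mul_apply]
      ring
    rw [e]
    exact t2_mem X (by omega)
  · rw [mul_zero]
    exact Submodule.zero_mem _
  · intro x y _ _ hx hy
    rw [mul_add]
    exact Submodule.add_mem _ hx hy
  · intro a x _ hx
    rw [mul_smul_comm]
    exact Submodule.smul_mem _ a hx

theorem t2_stable {n : ℕ} (h : Vlt X (n + 1) = Vlt X n) : Vlt X (n + 2) = Vlt X (n + 1) := by
  refine le_antisymm ?_ (t2_mono X (by omega))
  unfold Vlt
  rw [Submodule.span_le]
  rintro f ⟨i, j, hij, rfl⟩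
  change mon X i j ∈ Vlt X (n + 1)
  by_cases h1 : i + j < n + 1
  · exact t2_mem X h1
  rcases Nat.eq_zero_or_pos i with rfl | hi
  · have hj : j = n + 1 := by omega
    subst hj
    have h2 : mon X 0 n ∈ Vlt X n := by
      rw [← h]
      exact t2_mem X (by omega)
    have e : mon X 0 (n + 1) = X 1 * mon X 0 n := by
      funext P
      simp only [mon, Pi.mul_apply]
      ring
    rw [e]
    exact t2_mul1 X h2
  · obtain ⟨k, rfl⟩ : ∃ k, i = k + 1 := ⟨i - 1, by omega⟩
    have h2 : mon X k j ∈ Vlt X n := by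
      rw [← h]
      exact t2_mem X (by omega)
    have e : mon X (k + 1) j = X 0 * mon X k j := by
      funext P
      simp only [mon, Pi.mul_apply]
      ring
    rw [e]
    exact t2_mul0 X h2

theorem t2_stable' {n : ℕ} (h : Vlt X (n + 1) = Vlt X n) (k : ℕ) : Vlt X (n + k) = Vlt X n := by
  have key : ∀ k, Vlt X (n + k + 1) = Vlt X (n + k) := by
    intro k
    induction k with
    | zero => exact h
    | succ k ih => exact t2_stable X ih
  induction k with
  | zero => rfl
  | succ k ih => rw [← ih]; exact key k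

/-- every function is a polynomial in `X 0`, `X 1` -/
theorem t2_exists [Fintype Ω] (hinj : Function.Injective (fun P => (X 0 P, X 1 P)))
    (f : Ω → K) : ∃ n, f ∈ Vlt X n := by
  classical
  set A : Subalgebra K (Ω → K) := Algebra.adjoin K {X 0, X 1} with hA
  have h0 : X 0 ∈ A := Algebra.subset_adjoin (by simp)
  have h1 : X 1 ∈ A := Algebra.subset_adjoin (by simp)
  have hc : ∀ c : K, (fun _ : Ω => c) ∈ A := fun c => A.algebraMap_mem c
  -- separation
  have hsep : ∀ P Q : Ω, P ≠ Q → ∃ g ∈ A, g P = 1 ∧ g Q = 0 := by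
    intro P Q hPQ
    obtain ⟨h, hh, hne⟩ : ∃ h ∈ A, h P ≠ h Q := by
      by_cases hx : X 0 P = X 0 Q
      · refine ⟨X 1, h1, fun hy => hPQ (hinj ?_)⟩
        exact Prod.ext hx hy
      · exact ⟨X 0, h0, hx⟩
    refine ⟨(h P - h Q)⁻¹ • (h - fun _ => h Q), A.smul_mem (A.sub_mem hh (hc _)) _, ?_, ?_⟩
    · simp only [Pi.smul_apply, Pi.sub_apply, smul_eq_mul]
      exact inv_mul_cancel₀ (sub_ne_zero.2 hne)
    · simp
  choose g hgA hg1 hg0 using hsep
  have hdelta : ∀ P : Ω, (Pi.single P (1 : K) : Ω → K) ∈ A := by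
    intro P
    have e : (Pi.single P (1 : K) : Ω → K) =
        ∏ Q : {Q // Q ≠ P}, g P Q (fun h => Q.2 h.symm) := by
      funext R
      rw [Finset.prod_apply]
      by_cases hR : R = P
      · subst hR
        rw [Pi.single_eq_same]
        symm
        exact Finset.prod_eq_one fun Q _ => hg1 _ _ _
      · rw [Pi.single_eq_of_ne hR]
        symm
        exact Finset.prod_eq_zero (Finset.mem_univ ⟨R, hR⟩) (hg0 _ _ _)
    rw [e]
    exact A.prod_mem fun Q _ => hgA _ _ _
  have hfA : f ∈ A := by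
    have e : f = ∑ P, f P • (Pi.single P (1 : K) : Ω → K) := by
      funext R
      rw [Finset.sum_apply, Finset.sum_eq_single R]
      · simp
      · intro P _ hP
        rw [Pi.smul_apply, Pi.single_eq_of_ne (Ne.symm hP), smul_zero]
      · simp
    rw [e]
    exact A.sum_mem fun P _ => A.smul_mem (hdelta P) _
  have hfs : f ∈ Submodule.span K ((Submonoid.closure {X 0, X 1} : Submonoid (Ω → K)) : Set (Ω → K)) := by
    rw [← Algebra.adjoin_eq_span]
    exact hfA
  refine Submodule.span_induction ?_ ?_ ?_ ?_ hfs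
  · intro x hx
    obtain ⟨i, j, rfl⟩ := (Submonoid.mem_closure_pair _ _ _).1 hx
    exact ⟨i + j + 1, t2_mem X (i := i) (j := j) (by omega)⟩
  · exact ⟨0, Submodule.zero_mem _⟩
  · rintro x y _ _ ⟨n, hn⟩ ⟨m, hm⟩
    exact ⟨max n m, Submodule.add_mem _ (t2_mono X (le_max_left _ _) hn)
      (t2_mono X (le_max_right _ _) hm)⟩
  · rintro a x _ ⟨n, hn⟩
    exact ⟨n, Submodule.smul_mem _ a hn⟩

theorem t2_top_of_stable [Fintype Ω] (hinj : Function.Injective (fun P => (X 0 P, X 1 P)))
    {n : ℕ} (h : Vlt X (n + 1) = Vlt X n) : Vlt X n = ⊤ := by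
  rw [Submodule.eq_top_iff']
  intro f
  obtain ⟨k, hk⟩ := t2_exists X hinj f
  rw [← t2_stable' X h k]
  exact t2_mono X (by omega) hk

theorem t2_top [Fintype Ω] (hinj : Function.Injective (fun P => (X 0 P, X 1 P))) :
    Vlt X (Fintype.card Ω) = ⊤ := by
  have key : ∀ n : ℕ, n ≤ Module.finrank K (Vlt X n) ∨ Vlt X n = ⊤ := by
    intro n
    induction n with
    | zero => left; omega
    | succ n ih =>
      rcases ih with ih | ih
      · by_cases h : Vlt X (n + 1) = Vlt X n
        · right
          rw [h]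
          exact t2_top_of_stable X hinj h
        · left
          have hlt : Vlt X n < Vlt X (n + 1) :=
            lt_of_le_of_ne (t2_mono X (by omega)) (Ne.symm h)
          have := Submodule.finrank_lt_finrank_of_lt hlt
          omega
      · right
        exact top_le_iff.1 (ih ▸ t2_mono X (by omega))
  rcases key (Fintype.card Ω) with h | h
  · apply Submodule.eq_top_of_finrank_eq
    rw [Module.finrank_fintype_fun_eq_card]
    refine le_antisymm ?_ h
    have := Submodule.finrank_le (Vlt X (Fintype.card Ω))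
    rwa [Module.finrank_fintype_fun_eq_card] at this
  · exact h

/-- adapted sets of monomials -/
theorem t2_adapted (n : ℕ) : ∃ b ⊆ t2T n, LinearIndepOn K (t2v X) b ∧
    ∀ s ≤ n, t2v X '' t2T s ⊆ Submodule.span K (t2v X '' (b ∩ t2T s)) := by
  induction n with
  | zero =>
    refine ⟨∅, Set.empty_subset _, linearIndepOn_empty _ _, ?_⟩
    intro s hs f hf
    obtain ⟨μ, hμ, -⟩ := hf
    have hμ' : μ.1 + μ.2 < s := hμ
    omega
  | succ n ih =>
    obtain ⟨b, hb, hli, hspan⟩ := ih
    obtain ⟨b', hb'1, hb'2, hb'3, hb'4⟩ := exists_linearIndepOn_extension hli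
      (hb.trans (fun μ (hμ : μ.1 + μ.2 < n) => (show μ.1 + μ.2 < n + 1 by omega)) :
        b ⊆ t2T (n + 1))
    refine ⟨b', hb'1, hb'4, ?_⟩
    intro s hs
    rcases Nat.lt_or_ge n s with h | h
    · have e : s = n + 1 := by omega
      subst e
      rw [Set.inter_eq_left.2 hb'1]
      exact hb'3
    · refine (hspan s h).trans ?_
      exact Submodule.span_mono (Set.image_mono (Set.inter_subset_inter_left _ hb'2))

end t2

/-- T2: standard monomials of a finite set of points and the determinant identity. -/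
theorem staircase {Ω : Type*} [Fintype Ω] [DecidableEq Ω] (X : ℤ → Ω → K)
    (hinj : Function.Injective (fun P => (X 0 P, X 1 P))) :
    ∃ μ : Ω → ℕ × ℕ, Function.Injective μ ∧ (∀ p, (μ p).1 + (μ p).2 < Fintype.card Ω) ∧
      (Matrix.of (fun p q => mon X (μ p).1 (μ p).2 q)).det ≠ 0 ∧
      ∀ (c : Ω → K) (φ : Ω → Ω → K), (∀ p, Lead X (c p) (μ p).1 (μ p).2 (φ p)) →
        (Matrix.of φ).det
          = (∏ p, c p) * (Matrix.of (fun p q => mon X (μ p).1 (μ p).2 q)).det := by
  classical
  obtain ⟨b, hb, hli, hspan⟩ := t2_adapted X (Fintype.card Ω)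
  have htop : ⊤ ≤ Submodule.span K (Set.range fun x : b => t2v X x) := by
    have h1 : Submodule.span K (t2v X '' t2T (Fintype.card Ω)) ≤
        Submodule.span K (t2v X '' (b ∩ t2T (Fintype.card Ω))) :=
      Submodule.span_le.2 (hspan _ le_rfl)
    rw [← t2_Vlt, t2_top X hinj, Set.inter_eq_left.2 hb] at h1
    refine h1.trans (Submodule.span_mono ?_)
    rintro _ ⟨x, hx, rfl⟩
    exact ⟨⟨x, hx⟩, rfl⟩
  let B : Module.Basis b K (Ω → K) := Module.Basis.mk hli htop
  let e : Ω ≃ b := (Pi.basisFun K Ω).indexEquiv B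
  set μ : Ω → ℕ × ℕ := fun p => (e p : ℕ × ℕ) with hμ
  have hμb : ∀ p, μ p ∈ b := fun p => (e p).2
  have hμinj : Function.Injective μ := Subtype.val_injective.comp e.injective
  have hdet : (Matrix.of (fun p q => mon X (μ p).1 (μ p).2 q)).det ≠ 0 := by
    have h1 : LinearIndependent K (Matrix.of (fun p q => mon X (μ p).1 (μ p).2 q)).row := by
      have h2 : LinearIndependent K (fun p : Ω => t2v X (e p)) :=
        LinearIndependent.comp hli e e.injective
      exact h2
    rw [Matrix.linearIndependent_rows_iff_isUnit] at h1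
    exact ((Matrix.isUnit_iff_isUnit_det _).1 h1).ne_zero
  refine ⟨μ, hμinj, fun p => hb (hμb p), hdet, ?_⟩
  intro c φ hφ
  set deg : Ω → ℕ := fun p => (μ p).1 + (μ p).2 with hdeg
  -- coefficients
  have hcoef : ∀ s : ℕ, ∀ f ∈ Submodule.span K (t2v X '' (b ∩ t2T s)),
      ∃ t : Ω → K, (∀ q, ¬ deg q < s → t q = 0) ∧ f = ∑ q, t q • t2v X (μ q) := by
    intro s f hf
    refine Submodule.span_induction ?_ ?_ ?_ ?_ hf
    · rintro _ ⟨ν, ⟨hνb, hνs⟩, rfl⟩
      obtain ⟨q0, hq0⟩ := e.surjective ⟨ν, hνb⟩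
      have hq0' : μ q0 = ν := by simp only [hμ, hq0]
      refine ⟨Pi.single q0 1, ?_, ?_⟩
      · intro q hq
        refine Pi.single_eq_of_ne ?_ _
        rintro rfl
        apply hq
        have : ν.1 + ν.2 < s := hνs
        simp only [hdeg, hq0']
        exact this
      · rw [Finset.sum_eq_single q0]
        · rw [Pi.single_eq_same, one_smul, hq0']
        · intro q _ hq
          rw [Pi.single_eq_of_ne hq, zero_smul]
        · simp
    · exact ⟨0, fun _ _ => rfl, by simp⟩
    · rintro x y _ _ ⟨t, ht, rfl⟩ ⟨t', ht', rfl⟩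
      refine ⟨t + t', fun q hq => by rw [Pi.add_apply, ht q hq, ht' q hq, add_zero], ?_⟩
      rw [← Finset.sum_add_distrib]
      exact Finset.sum_congr rfl fun q _ => by rw [Pi.add_apply, add_smul]
    · rintro a x _ ⟨t, ht, rfl⟩
      refine ⟨a • t, fun q hq => by rw [Pi.smul_apply, ht q hq, smul_zero], ?_⟩
      rw [Finset.smul_sum]
      exact Finset.sum_congr rfl fun q _ => by rw [Pi.smul_apply, smul_smul, smul_eq_mul]
  have hrow : ∀ p, ∃ t : Ω → K, (∀ q, ¬ deg q < deg p → t q = 0) ∧
      φ p - c p • mon X (μ p).1 (μ p).2 = ∑ q, t q • t2v X (μ q) := by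
    intro p
    refine hcoef _ _ ?_
    have h1 : φ p - c p • mon X (μ p).1 (μ p).2 ∈ Vlt X (deg p) := hφ p
    rw [t2_Vlt] at h1
    exact Submodule.span_le.2 (hspan (deg p) (hb (hμb p)).le) h1
  choose t ht0 htφ using hrow
  let T : Matrix Ω Ω K := Matrix.of fun p q => if p = q then c p else t p q
  have hTφ : Matrix.of φ = T * Matrix.of (fun p q => mon X (μ p).1 (μ p).2 q) := by
    ext p r
    rw [Matrix.mul_apply]
    have h1 := congrFun (htφ p) r
    rw [Finset.sum_apply] at h1
    have h2 : t p p = 0 := ht0 p p (lt_irrefl _)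
    have h3 : ∑ q, T p q * (Matrix.of (fun p q => mon X (μ p).1 (μ p).2 q)) q r =
        c p * mon X (μ p).1 (μ p).2 r + ∑ q, (t p q • t2v X (μ q)) r := by
      rw [← Finset.add_sum_erase _ _ (Finset.mem_univ p), ← Finset.add_sum_erase Finset.univ
        (fun q => (t p q • t2v X (μ q)) r) (Finset.mem_univ p)]
      have h4 : (t p p • t2v X (μ p)) r = 0 := by rw [h2, zero_smul]; rfl
      rw [h4, zero_add]
      congr 1
      · simp [T]
      · refine Finset.sum_congr rfl fun q hq => ?_
        have hne : p ≠ q := (Finset.ne_of_mem_erase hq).symm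
        simp [T, hne, t2v]
    rw [h3, ← h1]
    simp
  have hTtri : T.BlockTriangular (fun p => OrderDual.toDual (deg p)) := by
    intro p q hpq
    have h1 : deg p < deg q := hpq
    have hne : p ≠ q := by
      rintro rfl
      exact lt_irrefl _ h1
    simp only [T, Matrix.of_apply, if_neg hne]
    exact ht0 p q (by omega)
  have hTdet : T.det = ∏ p, c p := by
    rw [hTtri.det]
    rw [← Finset.prod_fiberwise_of_maps_to (s := Finset.univ)
      (t := Finset.univ.image (fun p => OrderDual.toDual (deg p)))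
      (g := fun p => OrderDual.toDual (deg p)) (fun x hx => Finset.mem_image_of_mem _ hx) c]
    refine Finset.prod_congr rfl fun a _ => ?_
    have h1 : T.toSquareBlock (fun p => OrderDual.toDual (deg p)) a =
        Matrix.diagonal (fun p : {p // OrderDual.toDual (deg p) = a} => c p) := by
      ext p q
      simp only [Matrix.toSquareBlock_def, Matrix.of_apply, T, Matrix.diagonal_apply]
      by_cases hpq : p = q
      · subst hpq
        simp
      · have hne : (p : Ω) ≠ q := fun h => hpq (Subtype.ext h)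
        rw [if_neg hne, if_neg hpq]
        refine ht0 _ _ ?_
        have h2 : OrderDual.toDual (deg p) = OrderDual.toDual (deg q) := p.2.trans q.2.symm
        have h3 : deg p = deg q := h2
        omega
    rw [h1, Matrix.det_diagonal]
    rw [Finset.prod_subtype (Finset.univ.filter fun p => OrderDual.toDual (deg p) = a)
      (p := fun p => OrderDual.toDual (deg p) = a) (by simp)]
  rw [hTφ, Matrix.det_mul, hTdet]

end H420R5
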