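import Pool.Agent.H420R5.HE.Defs

namespace H420R5

theorem t3_inner (n N : ℕ) (h : n ≤ N) : 2 * ∑ j ∈ Finset.range N, (n - j) = n * (n + 1) := by
  induction n with
  | zero => simp
  | succ n ih =>
    have h1 : ∀ j ∈ Finset.range N, (n + 1 - j) = (n - j) + (if j < n + 1 then 1 else 0) := by
      intro j _
      split_ifs with h2
      · omega
      · omega
    have h2 : ∑ j ∈ Finset.range N, (if j < n + 1 then 1 else 0) = n + 1 := by
      rw [← Finset.card_filter]
      have h3 : (Finset.range N).filter (fun j => j < n + 1) = Finset.range (n + 1) := by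
        ext j
        simp only [Finset.mem_filter, Finset.mem_range]
        omega
      rw [h3, Finset.card_range]
    rw [Finset.sum_congr rfl h1, Finset.sum_add_distrib, h2, Nat.mul_add, ih (by omega)]
    ring

theorem t3_outer (t : ℕ) :
    3 * ∑ i ∈ Finset.range t, (t - i) * (t - i + 1) = t * (t + 1) * (t + 2) := by
  induction t with
  | zero => simp
  | succ t ih =>
    rw [Finset.sum_range_succ']
    have h1 : ∑ i ∈ Finset.range t, (t + 1 - (i + 1)) * (t + 1 - (i + 1) + 1) =
        ∑ i ∈ Finset.range t, (t - i) * (t - i + 1) := by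
      refine Finset.sum_congr rfl fun i _ => ?_
      rw [Nat.add_sub_add_right]
    rw [h1, Nat.mul_add, ih]
    simp only [Nat.sub_zero]
    ring

theorem t3_total (t : ℕ) :
    6 * ∑ p ∈ Finset.range t ×ˢ Finset.range t, (t - (p.1 + p.2)) = t * (t + 1) * (t + 2) := by
  rw [← t3_outer t, Finset.sum_product]
  have h1 : ∀ i ∈ Finset.range t, 2 * ∑ j ∈ Finset.range t, (t - (i + j)) =
      (t - i) * (t - i + 1) := by
    intro i _
    rw [← t3_inner (t - i) t (Nat.sub_le _ _)]
    congr 1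
    refine Finset.sum_congr rfl fun j _ => ?_
    omega
  have h2 : ∑ i ∈ Finset.range t, (t - i) * (t - i + 1) =
      2 * ∑ i ∈ Finset.range t, ∑ j ∈ Finset.range t, (t - (i + j)) := by
    rw [Finset.mul_sum]
    exact (Finset.sum_congr rfl h1).symm
  rw [h2]
  ring

theorem t3_bound (Λ : Finset (ℕ × ℕ)) (t : ℕ) :
    6 * (Λ.card * t) ≤ 6 * (∑ μ ∈ Λ, (μ.1 + μ.2)) + t * (t + 1) * (t + 2) := by
  classical
  have h1 : ∀ μ ∈ Λ, t ≤ (μ.1 + μ.2) + (t - (μ.1 + μ.2)) := fun μ _ => by omega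
  have h2 := Finset.sum_le_sum h1
  rw [Finset.sum_const, smul_eq_mul, Finset.sum_add_distrib] at h2
  have h3 : ∑ μ ∈ Λ, (t - (μ.1 + μ.2)) ≤
      ∑ p ∈ Finset.range t ×ˢ Finset.range t, (t - (p.1 + p.2)) := by
    have h4 : ∑ μ ∈ Λ, (t - (μ.1 + μ.2)) =
        ∑ μ ∈ Λ.filter (fun μ => μ.1 + μ.2 < t), (t - (μ.1 + μ.2)) := by
      rw [Finset.sum_filter]
      refine Finset.sum_congr rfl fun μ _ => ?_
      split_ifs with h5
      · rfl
      · omega
    rw [h4]
    refine Finset.sum_le_sum_of_subset ?_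
    intro μ hμ
    have h6 := (Finset.mem_filter.1 hμ).2
    rw [Finset.mem_product, Finset.mem_range, Finset.mem_range]
    omega
  rw [← t3_total t, ← Nat.mul_add]
  exact Nat.mul_le_mul_left 6 (h2.trans (Nat.add_le_add_left h3 _))

/-- T3a: `m` distinct points of `ℕ²` have total degree at least `m (√m - 1)/2`. -/
theorem sum_deg_ge (Λ : Finset (ℕ × ℕ)) :
    (Λ.card : ℝ) * (Real.sqrt Λ.card - 1) / 2 ≤ ∑ μ ∈ Λ, ((μ.1 + μ.2 : ℕ) : ℝ) := by
  set m := Λ.card with hm
  set t := Nat.sqrt m with ht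
  have h1 := t3_bound Λ t
  have h2 : (6 : ℝ) * ((m : ℝ) * t) ≤ 6 * (∑ μ ∈ Λ, ((μ.1 + μ.2 : ℕ) : ℝ)) +
      t * (t + 1) * (t + 2) := by
    exact_mod_cast h1
  have h3 : t * t ≤ m := Nat.sqrt_le m
  have h4 : m < (t + 1) * (t + 1) := Nat.lt_succ_sqrt m
  have h5 : Real.sqrt m ≤ t + 1 := by
    rw [Real.sqrt_le_left (by positivity)]
    have : (m : ℝ) < ((t : ℝ) + 1) * (t + 1) := by exact_mod_cast h4
    nlinarith
  have h0 : (0 : ℝ) ≤ ∑ μ ∈ Λ, ((μ.1 + μ.2 : ℕ) : ℝ) :=
    Finset.sum_nonneg fun μ _ => Nat.cast_nonneg _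
  have hm0 : (0 : ℝ) ≤ m := Nat.cast_nonneg _
  rcases Nat.lt_or_ge t 2 with h6 | h6
  · -- m <= 3
    have h7 : m ≤ 1 ∨ m = 2 ∨ m = 3 := by
      rcases Nat.lt_or_ge t 1 with h8 | h8
      · have : t = 0 := by omega
        rw [this] at h4
        omega
      · have : t = 1 := by omega
        rw [this] at h4
        omega
    rcases h7 with h7 | h7
    · have h8 : Real.sqrt m ≤ 1 := by
        rw [Real.sqrt_le_one]
        exact_mod_cast h7
      nlinarith
    · have ht1 : t = 1 := by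
        have h8 : t ≠ 0 := by
          intro h9
          rw [h9] at h4
          omega
        omega
      rw [ht1] at h2 h5
      have hm2 : (2 : ℝ) ≤ m := by
        rcases h7 with h7 | h7 <;> rw [h7] <;> norm_num
      simp only [Nat.cast_one] at h2 h5
      nlinarith
  · have h7 : (2 : ℝ) ≤ t := by exact_mod_cast h6
    have h8 : (t : ℝ) * t ≤ m := by exact_mod_cast h3
    have h9 : (m : ℝ) * (Real.sqrt m - 1) / 2 ≤ m * t / 2 := by
      have : (m : ℝ) * (Real.sqrt m - 1) ≤ m * t :=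
        mul_le_mul_of_nonneg_left (by linarith) hm0
      linarith
    have h10 : (t : ℝ) * (t + 1) * (t + 2) ≤ 3 * (m * t) := by
      have h11 : (t + 1 : ℝ) * (t + 2) ≤ 3 * (t * t) := by nlinarith
      have h12 : (t : ℝ) * ((t + 1) * (t + 2)) ≤ t * (3 * (t * t)) :=
        mul_le_mul_of_nonneg_left h11 (by linarith)
      have h13 : (t : ℝ) * (3 * (t * t)) ≤ t * (3 * m) :=
        mul_le_mul_of_nonneg_left (by linarith) (by linarith)
      linarith
    linarith

/-- T3b: digit sums are logarithmic. -/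
theorem ds_le (d : ℕ) (hd : 2 ≤ d) (i m : ℕ) (h : i < m) :
    (ds d i : ℝ) ≤ 2 * d * (1 + Real.log m) := by
  have hm1 : (1 : ℝ) ≤ m := by exact_mod_cast (by omega : 1 ≤ m)
  have hlogm : 0 ≤ Real.log m := Real.log_nonneg hm1
  have hd0 : (2 : ℝ) ≤ d := by exact_mod_cast hd
  rcases Nat.eq_zero_or_pos i with hi | hi
  · subst hi
    have : ds d 0 = 0 := by simp [ds]
    rw [this]
    push_cast
    positivity
  · have h1 : ds d i ≤ (Nat.log d i + 1) * d := by
      unfold ds
      have h2 := List.sum_le_card_nsmul (Nat.digits d i) d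
        (fun x hx => (Nat.digits_lt_base (by omega) hx).le)
      rwa [smul_eq_mul, Nat.length_digits d i (by omega) (by omega)] at h2
    have h3 : (Nat.log d i : ℝ) * Real.log 2 ≤ Real.log m := by
      have h4 : (d : ℝ) ^ (Nat.log d i) ≤ i := by
        exact_mod_cast Nat.pow_log_le_self d (by omega)
      have h5 : Real.log ((d : ℝ) ^ (Nat.log d i)) ≤ Real.log i :=
        Real.log_le_log (by positivity) h4
      rw [Real.log_pow] at h5
      have h6 : Real.log i ≤ Real.log m := by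
        refine Real.log_le_log (by exact_mod_cast hi) ?_
        exact_mod_cast h.le
      have h7 : Real.log 2 ≤ Real.log d := Real.log_le_log (by norm_num) hd0
      have h8 : (Nat.log d i : ℝ) * Real.log 2 ≤ (Nat.log d i : ℝ) * Real.log d :=
        mul_le_mul_of_nonneg_left h7 (Nat.cast_nonneg _)
      linarith
    have h9 : (0.6931471803 : ℝ) < Real.log 2 := Real.log_two_gt_d9
    have h10 : (Nat.log d i : ℝ) ≤ 2 * Real.log m := by
      have h11 : (0 : ℝ) ≤ Nat.log d i := Nat.cast_nonneg _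
      nlinarith
    have h12 : (ds d i : ℝ) ≤ ((Nat.log d i : ℝ) + 1) * d := by exact_mod_cast h1
    have h13 : ((Nat.log d i : ℝ) + 1) * d ≤ (2 * Real.log m + 1) * d :=
      mul_le_mul_of_nonneg_right (by linarith) (by linarith)
    nlinarith

end H420R5
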