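import Pool.Agent.H420R5.HE.Defs

namespace H420R5

open Polynomial

variable {K : Type*} [Field K]

/-- basic inequality for the lower coefficients -/
theorem t6_coeff {d j : ℕ} (hj : j < d) {l R c V : ℝ} (hl : 0 < l) (hV : 0 ≤ V)
    (h1 : c * l ^ j ≤ l * R ^ (d - j)) :
    l ^ (d - 1) * (c * V ^ j) ≤ (l * R) ^ (d - j) * V ^ j := by
  have e1 : l ^ (d - 1) = l ^ j * l ^ (d - 1 - j) := by
    rw [← pow_add]; congr 1; omega
  have e2 : (l * R) ^ (d - j) = l * R ^ (d - j) * l ^ (d - 1 - j) := by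
    rw [mul_pow]
    have : l ^ (d - j) = l * l ^ (d - 1 - j) := by
      rw [← pow_succ']; congr 1; omega
    rw [this]; ring
  rw [e1, e2]
  have h2 : 0 ≤ l ^ (d - 1 - j) * V ^ j := by positivity
  calc l ^ j * l ^ (d - 1 - j) * (c * V ^ j) = (c * l ^ j) * (l ^ (d - 1 - j) * V ^ j) := by ring
    _ ≤ (l * R ^ (d - j)) * (l ^ (d - 1 - j) * V ^ j) := mul_le_mul_of_nonneg_right h1 h2
    _ = _ := by ring

/-- the top term in terms of the others -/
theorem t6_top (d : ℕ) (hd : 2 ≤ d) (F : K[X]) (hF : F.natDegree = d)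
    (hcen : F.coeff (d - 1) = 0) (δ : K) (x : ℤ → K) (hx : Orb F δ x) (i : ℤ) :
    F.leadingCoeff * x i ^ d =
      (x (i + 1) + δ * x (i - 1)) - ∑ j ∈ Finset.range (d - 1), F.coeff j * x i ^ j := by
  have h := hx i
  rw [eval_eq_sum_range, hF, Finset.sum_range_succ] at h
  obtain ⟨e, rfl⟩ : ∃ e, d = e + 1 := ⟨d - 1, by omega⟩
  rw [Finset.sum_range_succ] at h
  simp only [Nat.add_sub_cancel] at hcen ⊢
  rw [hcen, zero_mul, add_zero] at h
  rw [leadingCoeff, hF, h]
  ring

theorem t6_max (v : AbsoluteValue K ℝ) (x : ℤ → K) (hfin : (Set.range x).Finite) :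
    ∃ i, ∀ k, v (x k) ≤ v (x i) := by
  have h1 : ((fun y => v y) '' Set.range x).Finite := hfin.image _
  have h2 : ((fun y => v y) '' Set.range x).Nonempty := ⟨_, x 0, ⟨0, rfl⟩, rfl⟩
  obtain ⟨b, ⟨y, ⟨i, rfl⟩, rfl⟩, hb⟩ := Set.Finite.exists_maximal h1 h2
  refine ⟨i, fun k => ?_⟩
  by_contra hlt
  push Not at hlt
  have := hb ⟨x k, ⟨k, rfl⟩, rfl⟩ hlt.le
  simp only at this
  linarith

/-- T6a: size of bounded orbits, any absolute value. Here `l = |a|^(-1/(d-1))`, `a` the leading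
coefficient, and `R` is the local radius. -/
theorem orbit_le (d : ℕ) (hd : 2 ≤ d) (F : K[X]) (hF : F.natDegree = d) (hcen : F.coeff (d - 1) = 0)
    (δ : K) (v : AbsoluteValue K ℝ) (l R : ℝ) (hl : 0 < l) (hR : 1 ≤ R)
    (ha : v F.leadingCoeff * l ^ (d - 1) = 1)
    (h1 : ∀ j < d, v (F.coeff j) * l ^ j ≤ l * R ^ (d - j)) (hδ : v δ ≤ R ^ (d - 1))
    (x : ℤ → K) (hx : Orb F δ x) (hfin : (Set.range x).Finite) (i : ℤ) :
    v (x i) ≤ (d + 1) * (l * R) := by
  obtain ⟨i0, hi0⟩ := t6_max v x hfin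
  refine (hi0 i).trans ?_
  set V : ℝ := v (x i0) with hV
  have hr : 0 < l * R := by positivity
  set r : ℝ := l * R with hrd
  by_contra hlt
  push Not at hlt
  have hd2 : (2 : ℝ) ≤ d := by exact_mod_cast hd
  have hrV : r ≤ V := by nlinarith
  have hVp : 0 < V := hr.trans_le hrV
  have htop := congrArg v (t6_top d hd F hF hcen δ x hx i0)
  rw [v.map_mul, v.map_pow] at htop
  have hR0 : (0 : ℝ) < R := by linarith
  -- bound of the right side
  have hb1 : v (x (i0 + 1) + δ * x (i0 - 1)) ≤ V + R ^ (d - 1) * V := by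
    refine (v.add_le _ _).trans (add_le_add (hi0 _) ?_)
    rw [v.map_mul]
    exact mul_le_mul hδ (hi0 _) (v.nonneg _) (by positivity)
  have hb2 : v (∑ j ∈ Finset.range (d - 1), F.coeff j * x i0 ^ j) ≤
      ∑ j ∈ Finset.range (d - 1), v (F.coeff j) * V ^ j := by
    refine (v.sum_le _ _).trans (le_of_eq ?_)
    exact Finset.sum_congr rfl fun j _ => by rw [v.map_mul, v.map_pow]
  have hb3 : v F.leadingCoeff * V ^ d ≤ (V + R ^ (d - 1) * V) +
      ∑ j ∈ Finset.range (d - 1), v (F.coeff j) * V ^ j := by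
    rw [htop]
    exact (v.sub_le_add _ _).trans (add_le_add hb1 hb2)
  -- multiply by l^(d-1)
  have hlp : 0 < l ^ (d - 1) := by positivity
  have hb4 : V ^ d ≤ l ^ (d - 1) * (V + R ^ (d - 1) * V) +
      ∑ j ∈ Finset.range (d - 1), l ^ (d - 1) * (v (F.coeff j) * V ^ j) := by
    have := mul_le_mul_of_nonneg_left hb3 hlp.le
    rw [mul_add, Finset.mul_sum] at this
    calc V ^ d = l ^ (d - 1) * (v F.leadingCoeff * V ^ d) := by
          have e : l ^ (d - 1) * (v F.leadingCoeff * V ^ d) =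
            (v F.leadingCoeff * l ^ (d - 1)) * V ^ d := by ring
          rw [e, ha, one_mul]
      _ ≤ _ := this
  have hpow : ∀ j, 1 ≤ d - j → j ≤ d → r ^ (d - j) * V ^ j ≤ r * V ^ (d - 1) := by
    intro j hj hjd
    have e1 : r ^ (d - j) = r * r ^ (d - j - 1) := by
      rw [← pow_succ']; congr 1; omega
    have e2 : V ^ (d - 1) = V ^ (d - j - 1) * V ^ j := by
      rw [← pow_add]; congr 1; omega
    rw [e1, e2, mul_assoc]
    refine mul_le_mul_of_nonneg_left ?_ hr.le
    exact mul_le_mul_of_nonneg_right (pow_le_pow_left₀ hr.le hrV _) (by positivity)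
  have hb5 : l ^ (d - 1) * (V + R ^ (d - 1) * V) ≤ 2 * (r * V ^ (d - 1)) := by
    have h2 : (1 : ℝ) ≤ R ^ (d - 1) := one_le_pow₀ hR
    have h3 : r ^ (d - 1) * V ^ 1 ≤ r * V ^ (d - 1) := hpow 1 (by omega) (by omega)
    have h4 : r ^ (d - 1) = l ^ (d - 1) * R ^ (d - 1) := by rw [hrd, mul_pow]
    rw [pow_one, h4] at h3
    have h5 : l ^ (d - 1) * V ≤ l ^ (d - 1) * R ^ (d - 1) * V := by
      have : l ^ (d - 1) * V * 1 ≤ l ^ (d - 1) * V * R ^ (d - 1) :=
        mul_le_mul_of_nonneg_left h2 (by positivity)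
      linarith
    have h6 : l ^ (d - 1) * (V + R ^ (d - 1) * V) =
      l ^ (d - 1) * V + l ^ (d - 1) * R ^ (d - 1) * V := by ring
    rw [h6]
    linarith
  have hb6 : ∑ j ∈ Finset.range (d - 1), l ^ (d - 1) * (v (F.coeff j) * V ^ j) ≤
      ∑ _j ∈ Finset.range (d - 1), r * V ^ (d - 1) := by
    refine Finset.sum_le_sum fun j hj => ?_
    have hj' : j < d - 1 := Finset.mem_range.1 hj
    exact (t6_coeff (by omega) hl hVp.le (h1 j (by omega))).trans (hpow j (by omega) (by omega))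
  rw [Finset.sum_const, Finset.card_range, nsmul_eq_mul] at hb6
  have e3 : ((d - 1 : ℕ) : ℝ) = (d : ℝ) - 1 := by
    rw [Nat.cast_sub (by omega)]; norm_num
  rw [e3] at hb6
  have hfin2 : V ^ d ≤ (d + 1) * r * V ^ (d - 1) := by nlinarith
  have e4 : V ^ d = V * V ^ (d - 1) := by
    rw [← pow_succ']; congr 1; omega
  rw [e4] at hfin2
  have hVd : 0 < V ^ (d - 1) := by positivity
  have := le_of_mul_le_mul_right hfin2 hVd
  linarith

theorem t6_sum_le (v : AbsoluteValue K ℝ) (hv : IsNonarchimedean v) {s : Finset ℕ} (f : ℕ → K)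
    {B : ℝ} (hB : 0 ≤ B) (h : ∀ j ∈ s, v (f j) ≤ B) : v (∑ j ∈ s, f j) ≤ B := by
  classical
  induction s using Finset.induction_on with
  | empty => simpa using hB
  | insert a s has ih =>
    rw [Finset.sum_insert has]
    refine (hv _ _).trans (max_le (h a (Finset.mem_insert_self _ _)) (ih ?_))
    exact fun j hj => h j (Finset.mem_insert_of_mem hj)

/-- T6b: the same for a nonarchimedean absolute value, without the factor `d + 1`. -/
theorem orbit_le_na (d : ℕ) (hd : 2 ≤ d) (F : K[X]) (hF : F.natDegree = d)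
    (hcen : F.coeff (d - 1) = 0)
    (δ : K) (v : AbsoluteValue K ℝ) (hv : IsNonarchimedean v) (l R : ℝ) (hl : 0 < l) (hR : 1 ≤ R)
    (ha : v F.leadingCoeff * l ^ (d - 1) = 1)
    (h1 : ∀ j < d, v (F.coeff j) * l ^ j ≤ l * R ^ (d - j)) (hδ : v δ ≤ R ^ (d - 1))
    (x : ℤ → K) (hx : Orb F δ x) (hfin : (Set.range x).Finite) (i : ℤ) :
    v (x i) ≤ l * R := by
  obtain ⟨i0, hi0⟩ := t6_max v x hfin
  refine (hi0 i).trans ?_
  set V : ℝ := v (x i0) with hV
  have hr : 0 < l * R := by positivity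
  set r : ℝ := l * R with hrd
  by_contra hlt
  push Not at hlt
  have hVp : 0 < V := hr.trans hlt
  have htop := congrArg v (t6_top d hd F hF hcen δ x hx i0)
  rw [v.map_mul, v.map_pow] at htop
  have hR0 : (0 : ℝ) < R := by linarith
  have hlp : 0 < l ^ (d - 1) := by positivity
  -- the bound of every term
  set B : ℝ := r * V ^ (d - 1) / l ^ (d - 1) with hB
  have hB0 : 0 ≤ B := by positivity
  have hpow : ∀ j, 1 ≤ d - j → j ≤ d → r ^ (d - j) * V ^ j ≤ r * V ^ (d - 1) := by
    intro j hj hjd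
    have e1 : r ^ (d - j) = r * r ^ (d - j - 1) := by
      rw [← pow_succ']; congr 1; omega
    have e2 : V ^ (d - 1) = V ^ (d - j - 1) * V ^ j := by
      rw [← pow_add]; congr 1; omega
    rw [e1, e2, mul_assoc]
    refine mul_le_mul_of_nonneg_left ?_ hr.le
    exact mul_le_mul_of_nonneg_right (pow_le_pow_left₀ hr.le hlt.le _) (by positivity)
  have hb2 : v (∑ j ∈ Finset.range (d - 1), F.coeff j * x i0 ^ j) ≤ B := by
    refine t6_sum_le v hv _ hB0 fun j hj => ?_
    have hj' : j < d - 1 := Finset.mem_range.1 hj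
    rw [v.map_mul, v.map_pow, hB, le_div_iff₀ hlp, mul_comm]
    exact (t6_coeff (by omega) hl hVp.le (h1 j (by omega))).trans (hpow j (by omega) (by omega))
  have h2 : (1 : ℝ) ≤ R ^ (d - 1) := one_le_pow₀ hR
  have h3 : l ^ (d - 1) * R ^ (d - 1) * V ≤ r * V ^ (d - 1) := by
    have := hpow 1 (by omega) (by omega)
    rwa [pow_one, hrd, mul_pow, ← hrd] at this
  have hb1 : v (x (i0 + 1) + δ * x (i0 - 1)) ≤ B := by
    refine (hv _ _).trans (max_le ?_ ?_)
    · refine (hi0 _).trans ?_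
      rw [hB, le_div_iff₀ hlp]
      refine le_trans ?_ h3
      have : V * l ^ (d - 1) * 1 ≤ V * l ^ (d - 1) * R ^ (d - 1) :=
        mul_le_mul_of_nonneg_left h2 (by positivity)
      linarith
    · rw [v.map_mul, hB, le_div_iff₀ hlp]
      refine le_trans ?_ h3
      have : v δ * v (x (i0 - 1)) ≤ R ^ (d - 1) * V :=
        mul_le_mul hδ (hi0 _) (v.nonneg _) (by positivity)
      nlinarith
  have hb3 : v F.leadingCoeff * V ^ d ≤ B := by
    rw [htop, sub_eq_add_neg]
    refine (hv _ _).trans (max_le hb1 ?_)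
    rw [v.map_neg]
    exact hb2
  rw [hB, le_div_iff₀ hlp] at hb3
  have e : v F.leadingCoeff * V ^ d * l ^ (d - 1) = V ^ d := by
    have e' : v F.leadingCoeff * V ^ d * l ^ (d - 1) =
      (v F.leadingCoeff * l ^ (d - 1)) * V ^ d := by ring
    rw [e', ha, one_mul]
  rw [e] at hb3
  have e4 : V ^ d = V * V ^ (d - 1) := by
    rw [← pow_succ']; congr 1; omega
  rw [e4] at hb3
  have hVd : 0 < V ^ (d - 1) := by positivity
  have := le_of_mul_le_mul_right hb3 hVd
  linarith

/-- T6c: periodic points of the Hénon map give bi-infinite orbits with finitely many values. -/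
theorem orb_of_periodic (F : K[X]) (δ : K) (P : K × K) (n : ℕ) (hn : 1 ≤ n)
    (hP : (fun Q : K × K => (Q.2, F.eval Q.2 - δ * Q.1))^[n] P = P) :
    ∃ x : ℤ → K, Orb F δ x ∧ x 0 = P.1 ∧ x 1 = P.2 ∧ (Set.range x).Finite := by
  set f : K × K → K × K := fun Q => (Q.2, F.eval Q.2 - δ * Q.1) with hf
  set y : ℤ → K × K := fun i => f^[(i % (n : ℤ)).toNat] P with hy
  have hn0 : (0 : ℤ) < n := by exact_mod_cast hn
  have hstep : ∀ i, y (i + 1) = f (y i) := by
    intro i
    have h1 := Int.emod_nonneg i hn0.ne'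
    have h2 := Int.emod_lt_of_pos i hn0
    by_cases h : i % n + 1 < n
    · have h3 : (i + 1) % (n : ℤ) = i % n + 1 := by
        rw [Int.add_emod, Int.emod_eq_of_lt (a := i % (n : ℤ) + 1 % (n : ℤ))]
        · rw [Int.emod_eq_of_lt (a := 1) (by norm_num) (by omega)]
        · rw [Int.emod_eq_of_lt (a := 1) (by norm_num) (by omega)]; omega
        · rw [Int.emod_eq_of_lt (a := 1) (by norm_num) (by omega)]; omega
      have h4 : ((i + 1) % (n : ℤ)).toNat = (i % (n : ℤ)).toNat + 1 := by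
        rw [h3]; omega
      simp only [hy]
      rw [h4, Function.iterate_succ_apply']
    · have h3 : i % (n : ℤ) = n - 1 := by omega
      have h4 : (i + 1) % (n : ℤ) = 0 := by
        have : i + 1 = (i / n + 1) * n := by
          have := Int.emod_add_mul_ediv i n
          rw [h3] at this
          linarith
        rw [this]
        exact Int.mul_emod_left _ _
      have h5 : (i % (n : ℤ)).toNat = n - 1 := by omega
      simp only [hy]
      rw [h4, h5, ← Function.iterate_succ_apply' f]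
      have h6 : (n - 1).succ = n := by omega
      rw [h6, hP]
      rfl
  have hy0 : y 0 = P := by
    simp [hy]
  have hsnd : ∀ i, (y i).2 = (y (i + 1)).1 := by
    intro i
    rw [hstep]
  refine ⟨fun i => (y i).1, ?_, ?_, ?_, ?_⟩
  · intro i
    simp only
    have h1 := hstep (i - 1)
    rw [sub_add_cancel] at h1
    have h2 := hsnd i
    have h3 := hsnd (i - 1)
    rw [sub_add_cancel] at h3
    rw [← h2, h1]
    simp only [hf]
    ring
  · simp only
    rw [hy0]
  · simp only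
    have := hsnd 0
    rw [hy0, zero_add] at this
    exact this.symm
  · refine (Set.finite_range (fun k : Fin n => (f^[(k : ℕ)] P).1)).subset ?_
    rintro _ ⟨i, rfl⟩
    have h1 := Int.emod_nonneg i hn0.ne'
    have h2 := Int.emod_lt_of_pos i hn0
    refine ⟨⟨(i % (n : ℤ)).toNat, by omega⟩, rfl⟩

end H420R5
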