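import Pool.Agent.H420R5.HE.Sum
import Pool.Agent.H420R5.HE.T1
import Pool.Agent.H420R5.HE.T2
import Pool.Agent.H420R5.HE.T3
import Pool.Agent.H420R5.HE.T6
import Pool.Agent.H420R5.HE.T7

/-!
The main inequality of the determinant method.
-/

namespace H420R5

open Polynomial NumberField

variable {K : Type*} [Field K]

section local_bounds

variable {Ω : Type*} [Fintype Ω] [DecidableEq Ω]

/-- the reference weight -/
noncomputable def U (F : K[X]) (δ : K) (s n E : Ω → ℕ) (v : AbsoluteValue K ℝ) : ℝ :=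
  ∑ p, ((s p : ℝ) * Real.log (rad F δ v) + (n p : ℝ) * Real.log (lam F v)
    + (E p : ℝ) * Real.log (v δ))

/-- common computation -/
lemma log_det_le (F : K[X]) (hd : 2 ≤ F.natDegree) (δ : K) (hδ : δ ≠ 0)
    (s n E E' : Ω → ℕ) (hE : ∀ p, (F.natDegree - 1) * (E p + E' p) + s p = n p)
    (Δ Δ' : K) (hΔ : Δ ≠ 0)
    (hdet : Δ' = (∏ p, ((F.leadingCoeff / δ) ^ E p * F.leadingCoeff ^ E' p)) * Δ)
    (v : AbsoluteValue K ℝ) (A B : ℝ) (hA : 1 ≤ A) (hB : 1 ≤ B)
    (hle : v Δ' ≤ B * ∏ p, (A * (lam F v * rad F δ v)) ^ s p) :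
    Real.log (v Δ) ≤ U F δ s n E v + (Real.log B + (∑ p, (s p : ℝ)) * Real.log A) := by
  have h0 : F ≠ 0 := by rintro rfl; simp at hd
  have ha0 : F.leadingCoeff ≠ 0 := by simpa using h0
  have hva : 0 < v F.leadingCoeff := v.pos ha0
  have hvδ : 0 < v δ := v.pos hδ
  have hl := lam_pos F h0 v
  have hr : 0 < rad F δ v := by have := one_le_rad F δ v; linarith
  have hA0 : 0 < A := by linarith
  have hB0 : 0 < B := by linarith
  have hc : ∀ p, (F.leadingCoeff / δ) ^ E p * F.leadingCoeff ^ E' p ≠ 0 := fun p =>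
    mul_ne_zero (pow_ne_zero _ (div_ne_zero ha0 hδ)) (pow_ne_zero _ ha0)
  have hΔ' : Δ' ≠ 0 := by
    rw [hdet]; exact mul_ne_zero (Finset.prod_ne_zero_iff.2 fun p _ => hc p) hΔ
  have h1 : Real.log (v Δ') = ∑ p, Real.log (v ((F.leadingCoeff / δ) ^ E p
      * F.leadingCoeff ^ E' p)) + Real.log (v Δ) := by
    rw [hdet, map_mul, map_prod, Real.log_mul _ (v.ne_zero hΔ),
      Real.log_prod (fun p _ => v.ne_zero (hc p))]
    exact Finset.prod_ne_zero_iff.2 fun p _ => v.ne_zero (hc p)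
  have h2 : Real.log (v Δ') ≤ Real.log B + ∑ p, (s p : ℝ) *
      (Real.log A + (Real.log (lam F v) + Real.log (rad F δ v))) := by
    have := Real.log_le_log (v.pos hΔ') hle
    rwa [Real.log_mul hB0.ne' (Finset.prod_ne_zero_iff.2 fun p _ => by positivity),
      Real.log_prod (fun p _ => by positivity),
      Finset.sum_congr rfl (fun p _ => by
        rw [Real.log_pow, Real.log_mul hA0.ne' (by positivity), Real.log_mul hl.ne' hr.ne'])]
      at this
  have hd1 : (0 : ℝ) < (F.natDegree : ℝ) - 1 := by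
    have : (2 : ℝ) ≤ F.natDegree := by exact_mod_cast hd
    linarith
  have hlog : Real.log (v F.leadingCoeff) = -((F.natDegree : ℝ) - 1) * Real.log (lam F v) := by
    rw [log_lam F hd v]
    field_simp
  have h3 : ∀ p, Real.log (v ((F.leadingCoeff / δ) ^ E p * F.leadingCoeff ^ E' p))
      = -((n p : ℝ) - s p) * Real.log (lam F v) - (E p : ℝ) * Real.log (v δ) := by
    intro p
    rw [map_mul, map_pow, map_pow, map_div₀, Real.log_mul (by positivity) (by positivity),
      Real.log_pow, Real.log_pow, Real.log_div hva.ne' hvδ.ne', hlog]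
    have h4 : ((F.natDegree : ℝ) - 1) * ((E p : ℝ) + E' p) + s p = n p := by
      have := hE p
      have h5 : ((F.natDegree - 1 : ℕ) : ℝ) = (F.natDegree : ℝ) - 1 := by
        rw [Nat.cast_sub (by omega)]; simp
      rw [← h5]
      exact_mod_cast this
    rw [← h4]
    ring
  rw [h1, Finset.sum_congr rfl (fun p _ => h3 p)] at h2
  have h6 : U F δ s n E v + (Real.log B + (∑ p, (s p : ℝ)) * Real.log A)
      = Real.log B + ∑ p, (s p : ℝ) * (Real.log A + (Real.log (lam F v) + Real.log (rad F δ v)))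
        - ∑ p, (-((n p : ℝ) - s p) * Real.log (lam F v) - (E p : ℝ) * Real.log (v δ)) := by
    rw [U, Finset.sum_mul, add_sub_assoc, ← Finset.sum_sub_distrib, add_left_comm,
      ← Finset.sum_add_distrib]
    congr 1
    refine Finset.sum_congr rfl fun p _ => ?_
    ring
  rw [h6]
  linarith

/-- size of the determinant from close starting points -/
lemma log_det_close (F : K[X]) (hd : 2 ≤ F.natDegree) (δ : K)
    (s n E : Ω → ℕ) (hE : ∀ p, (F.natDegree - 1) * E p ≤ n p)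
    (Δ : K) (hΔ : Δ ≠ 0) (v : AbsoluteValue K ℝ) (r g B : ℝ) (hr : 0 < r) (hB : 0 < B)
    (hg1 : Real.log r + g ≤ 0)
    (hg2 : Real.log r + g - Real.log (v δ) / ((F.natDegree : ℝ) - 1) ≤ 0)
    (hle : v Δ ≤ B * ∏ p, (lam F v * r) ^ n p) :
    Real.log (v Δ) ≤ U F δ s n E v + Real.log B - g * ∑ p, (n p : ℝ) := by
  have h0 : F ≠ 0 := by rintro rfl; simp at hd
  have hl := lam_pos F h0 v
  have hd1 : (0 : ℝ) < (F.natDegree : ℝ) - 1 := by
    have : (2 : ℝ) ≤ F.natDegree := by exact_mod_cast hd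
    linarith
  have h2 : Real.log (v Δ) ≤ Real.log B + ∑ p, (n p : ℝ) *
      (Real.log (lam F v) + Real.log r) := by
    have := Real.log_le_log (v.pos hΔ) hle
    rwa [Real.log_mul hB.ne' (Finset.prod_ne_zero_iff.2 fun p _ => by positivity),
      Real.log_prod (fun p _ => by positivity),
      Finset.sum_congr rfl (fun p _ => by
        rw [Real.log_pow, Real.log_mul hl.ne' hr.ne'])]
      at this
  have h3 : ∑ p, (n p : ℝ) * (Real.log (lam F v) + Real.log r)
      ≤ U F δ s n E v - g * ∑ p, (n p : ℝ) := by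
    rw [U, Finset.mul_sum, ← Finset.sum_sub_distrib]
    refine Finset.sum_le_sum fun p _ => ?_
    have h4 : 0 ≤ (s p : ℝ) * Real.log (rad F δ v) :=
      mul_nonneg (by positivity) (Real.log_nonneg (one_le_rad _ _ _))
    have hn : (0 : ℝ) ≤ n p := by positivity
    have hEp : ((F.natDegree : ℝ) - 1) * E p ≤ n p := by
      have h5 : ((F.natDegree - 1 : ℕ) : ℝ) = (F.natDegree : ℝ) - 1 := by
        rw [Nat.cast_sub (by omega)]; simp
      rw [← h5]
      exact_mod_cast hE p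
    have hEp' : (E p : ℝ) ≤ n p / ((F.natDegree : ℝ) - 1) := by
      rw [le_div_iff₀ hd1]; linarith
    have key : (n p : ℝ) * (Real.log r + g) ≤ (E p : ℝ) * Real.log (v δ) := by
      rcases le_or_gt 0 (Real.log (v δ)) with h | h
      · have h5 : (n p : ℝ) * (Real.log r + g) ≤ 0 := mul_nonpos_of_nonneg_of_nonpos hn hg1
        have h6 : 0 ≤ (E p : ℝ) * Real.log (v δ) := by positivity
        linarith
      · have h5 : (n p : ℝ) * (Real.log r + g) ≤ n p * (Real.log (v δ) / ((F.natDegree : ℝ) - 1)) :=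
          mul_le_mul_of_nonneg_left (by linarith) hn
        have h6 : (n p : ℝ) * (Real.log (v δ) / ((F.natDegree : ℝ) - 1))
            = (n p / ((F.natDegree : ℝ) - 1)) * Real.log (v δ) := by ring
        have h7 : (n p / ((F.natDegree : ℝ) - 1)) * Real.log (v δ) ≤ (E p : ℝ) * Real.log (v δ) :=
          mul_le_mul_of_nonpos_right hEp' h.le
        linarith
    nlinarith
  linarith

/-- all the data extracted from a finite family of orbits -/
theorem core_data (F : K[X]) (hd : 2 ≤ F.natDegree) (δ : K) (hδ : δ ≠ 0) [Nonempty Ω]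
    (X : ℤ → Ω → K) (hX : ∀ P, Orb F δ (fun i => X i P))
    (hinj : Function.Injective (fun P => (X 0 P, X 1 P))) :
    ∃ (s n E : Ω → ℕ) (Δ : K), Δ ≠ 0 ∧
      (∀ v : AbsoluteValue K ℝ, IsNonarchimedean v →
        (∀ P k, v (X k P) ≤ lam F v * rad F δ v) → Real.log (v Δ) ≤ U F δ s n E v) ∧
      (∀ v : AbsoluteValue K ℝ,
        (∀ P k, v (X k P) ≤ ((F.natDegree : ℝ) + 1) * (lam F v * rad F δ v)) →
        Real.log (v Δ) ≤ U F δ s n E v + (Real.log ((Fintype.card Ω).factorial)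
          + (∑ p, (s p : ℝ)) * Real.log ((F.natDegree : ℝ) + 1))) ∧
      (∀ v : AbsoluteValue K ℝ, IsNonarchimedean v → ∀ r g : ℝ, 0 < r → Real.log r + g ≤ 0 →
        Real.log r + g - Real.log (v δ) / ((F.natDegree : ℝ) - 1) ≤ 0 →
        (∀ P Q, v (X 0 P - X 0 Q) ≤ lam F v * r ∧ v (X 1 P - X 1 Q) ≤ lam F v * r) →
        Real.log (v Δ) ≤ U F δ s n E v - g * ∑ p, (n p : ℝ)) ∧
      (∀ v : AbsoluteValue K ℝ, ∀ r g : ℝ, 0 < r → Real.log r + g ≤ 0 →
        Real.log r + g - Real.log (v δ) / ((F.natDegree : ℝ) - 1) ≤ 0 →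
        (∀ P Q, v (X 0 P - X 0 Q) ≤ lam F v * r ∧ v (X 1 P - X 1 Q) ≤ lam F v * r) →
        Real.log (v Δ) ≤ U F δ s n E v + Real.log ((Fintype.card Ω).factorial)
          - g * ∑ p, (n p : ℝ)) ∧
      (Fintype.card Ω : ℝ) * (Real.sqrt (Fintype.card Ω) - 1) / 2 ≤ ∑ p, (n p : ℝ) ∧
      (∀ p, (s p : ℝ) ≤ 4 * F.natDegree * (1 + Real.log (Fintype.card Ω))) := by
  have h0 : F ≠ 0 := by rintro rfl; simp at hd
  obtain ⟨μ, hμ, hμlt, hΔ, hst⟩ := staircase X hinj
  set Δ := (Matrix.of (fun p q => mon X (μ p).1 (μ p).2 q)).det with hΔdef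
  have hb := fun p => exists_basis F.natDegree hd F rfl δ hδ X hX (μ p).1 (μ p).2
  choose φ E1 E2 hE1 hE2 hlead hbd using hb
  have hdet := hst _ φ hlead
  have hshift : ∀ P0 : Ω, (Matrix.of (fun p q => (X 0 q - X 0 P0) ^ (μ p).1
      * (X 1 q - X 1 P0) ^ (μ p).2)).det = Δ := by
    intro P0
    have := hst (fun _ => 1) (fun p q => (X 0 q - X 0 P0) ^ (μ p).1 * (X 1 q - X 1 P0) ^ (μ p).2)
      (fun p => lead_shift X _ _ _ _)
    simpa using this
  have hlp : ∀ v : AbsoluteValue K ℝ, 0 < lam F v * rad F δ v := fun v =>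
    mul_pos (lam_pos F h0 v) (by have := one_le_rad F δ v; linarith)
  have hnE : ∀ p, (F.natDegree - 1) * (E1 p + E2 p)
      + (ds F.natDegree (μ p).1 + ds F.natDegree (μ p).2) = (μ p).1 + (μ p).2 := by
    intro p
    have h1 := hE1 p
    have h2 := hE2 p
    rw [mul_add]
    omega
  have hcl : ∀ v : AbsoluteValue K ℝ, ∀ r : ℝ, 0 < r →
      (∀ P Q, v (X 0 P - X 0 Q) ≤ lam F v * r ∧ v (X 1 P - X 1 Q) ≤ lam F v * r) →
      ∀ P0 p q, v ((X 0 q - X 0 P0) ^ (μ p).1 * (X 1 q - X 1 P0) ^ (μ p).2)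
        ≤ (lam F v * r) ^ ((μ p).1 + (μ p).2) := by
    intro v r hr hc P0 p q
    rw [map_mul, map_pow, map_pow, pow_add]
    have h1 := hc q P0
    have := lam_pos F h0 v
    exact mul_le_mul (pow_le_pow_left₀ (v.nonneg _) h1.1 _) (pow_le_pow_left₀ (v.nonneg _) h1.2 _)
      (by positivity) (by positivity)
  refine ⟨fun p => ds F.natDegree (μ p).1 + ds F.natDegree (μ p).2, fun p => (μ p).1 + (μ p).2,
    E1, Δ, hΔ, ?_, ?_, ?_, ?_, ?_, ?_⟩
  · intro v hv hB
    have h1 := det_le_na (Matrix.of φ) v hv (fun p => (lam F v * rad F δ v) ^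
      (ds F.natDegree (μ p).1 + ds F.natDegree (μ p).2)) (fun p => pow_nonneg (hlp v).le _)
      (fun p q => hbd p v _ q (fun k => hB q k))
    have h2 := log_det_le F hd δ hδ _ _ E1 E2 hnE Δ _ hΔ hdet v 1 1 le_rfl le_rfl
      (by simpa using h1)
    simpa using h2
  · intro v hB
    have h1 := det_le (Matrix.of φ) v (fun p => (((F.natDegree : ℝ) + 1)
      * (lam F v * rad F δ v)) ^ (ds F.natDegree (μ p).1 + ds F.natDegree (μ p).2))
      (fun p q => hbd p v _ q (fun k => hB q k))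
    have h2 := log_det_le F hd δ hδ _ _ E1 E2 hnE Δ _ hΔ hdet v ((F.natDegree : ℝ) + 1)
      ((Fintype.card Ω).factorial : ℝ) (by simp)
      (by exact_mod_cast Nat.succ_le_of_lt (Nat.factorial_pos _)) h1
    exact h2
  · intro v hv r g hr hg1 hg2 hc
    obtain ⟨P0⟩ := ‹Nonempty Ω›
    have h1 := det_le_na (Matrix.of (fun p q => (X 0 q - X 0 P0) ^ (μ p).1
      * (X 1 q - X 1 P0) ^ (μ p).2)) v hv (fun p => (lam F v * r) ^ ((μ p).1 + (μ p).2))
      (fun p => by have := lam_pos F h0 v; positivity) (fun p q => hcl v r hr hc P0 p q)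
    rw [hshift] at h1
    have h2 := log_det_close F hd δ (fun p => ds F.natDegree (μ p).1 + ds F.natDegree (μ p).2)
      (fun p => (μ p).1 + (μ p).2) E1 (fun p => by
        have := hnE p
        have h3 : (F.natDegree - 1) * E1 p ≤ (F.natDegree - 1) * (E1 p + E2 p) :=
          Nat.mul_le_mul_left _ (Nat.le_add_right _ _)
        omega) Δ hΔ v r g 1 hr one_pos hg1 hg2 (by simpa using h1)
    simpa using h2
  · intro v r g hr hg1 hg2 hc
    obtain ⟨P0⟩ := ‹Nonempty Ω›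
    have h1 := det_le (Matrix.of (fun p q => (X 0 q - X 0 P0) ^ (μ p).1
      * (X 1 q - X 1 P0) ^ (μ p).2)) v (fun p => (lam F v * r) ^ ((μ p).1 + (μ p).2))
      (fun p q => hcl v r hr hc P0 p q)
    rw [hshift] at h1
    exact log_det_close F hd δ (fun p => ds F.natDegree (μ p).1 + ds F.natDegree (μ p).2)
      (fun p => (μ p).1 + (μ p).2) E1 (fun p => by
        have := hnE p
        have h3 : (F.natDegree - 1) * E1 p ≤ (F.natDegree - 1) * (E1 p + E2 p) :=
          Nat.mul_le_mul_left _ (Nat.le_add_right _ _)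
        omega) Δ hΔ v r g _ hr (by exact_mod_cast Nat.factorial_pos _) hg1 hg2 h1
  · have h1 := sum_deg_ge (Finset.univ.image μ)
    rw [Finset.card_image_of_injective _ hμ, Finset.sum_image (fun a _ b _ h => hμ h)] at h1
    exact h1
  · intro p
    have hm := hμlt p
    have h1 := ds_le F.natDegree hd (μ p).1 (Fintype.card Ω) (by omega)
    have h2 := ds_le F.natDegree hd (μ p).2 (Fintype.card Ω) (by omega)
    push_cast
    linarith

end local_bounds

section main

variable [NumberField K] {Ω : Type*} [Fintype Ω]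

lemma FS_U (F : K[X]) (hd : 2 ≤ F.natDegree) (δ : K) (hδ : δ ≠ 0) (s n E : Ω → ℕ) :
    FS (fun v => U F δ s n E v) ∧
      tot (fun v => U F δ s n E v) = (∑ p, (s p : ℝ)) * hgt F δ := by
  have hU : ∀ v, U F δ s n E v = (∑ p, (s p : ℝ)) * Real.log (rad F δ v)
      + ((∑ p, (n p : ℝ)) * Real.log (lam F v) + (∑ p, (E p : ℝ)) * Real.log (v δ)) := by
    intro v
    rw [U, Finset.sum_add_distrib, Finset.sum_add_distrib, Finset.sum_mul, Finset.sum_mul,
      Finset.sum_mul, add_assoc]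
  have h1 := (FS_rad F hd δ hδ).smul (∑ p, (s p : ℝ))
  have h2 := (FS_lam F hd).smul (∑ p, (n p : ℝ))
  have h3 := (FS_log hδ).smul (∑ p, (E p : ℝ))
  simp only [hU]
  refine ⟨h1.add (h2.add h3), ?_⟩
  rw [tot_add h1 (h2.add h3), tot_add h2 h3, tot_smul, tot_smul, tot_smul, tot_lam F hd,
    tot_log hδ, hgt]
  ring

/-- the final arithmetic -/
lemma final_arith (d m : ℕ) (hd : 2 ≤ d) (hm : 1 ≤ m) (D H Sn Ss g n0 : ℝ) (hD : 1 ≤ D)
    (hH : 0 ≤ H) (hn0 : 0 ≤ n0) (hg : 0 ≤ g)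
    (h1 : (m : ℝ) * (Real.sqrt m - 1) / 2 ≤ Sn) (h2 : Ss ≤ m * (4 * d * (1 + Real.log m)))
    (h3 : 0 ≤ Ss * H + D * (Real.log (m.factorial) + Ss * Real.log ((d : ℝ) + 1))
      - n0 * (g * Sn)) :
    n0 * g * (Real.sqrt m - 1) ≤ 10 * d ^ 2 * (H + D) * (1 + Real.log m) := by
  have hm' : (1 : ℝ) ≤ m := by exact_mod_cast hm
  have hd' : (2 : ℝ) ≤ d := by exact_mod_cast hd
  have hlm : 0 ≤ Real.log m := Real.log_nonneg hm'
  have hfac : Real.log (m.factorial) ≤ m * Real.log m := by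
    have : ((m.factorial : ℕ) : ℝ) ≤ (m : ℝ) ^ m := by exact_mod_cast Nat.factorial_le_pow m
    calc Real.log (m.factorial) ≤ Real.log ((m : ℝ) ^ m) :=
          Real.log_le_log (by exact_mod_cast Nat.factorial_pos m) this
      _ = _ := Real.log_pow _ _
  have hlogd : Real.log ((d : ℝ) + 1) ≤ d := by
    have := Real.log_le_sub_one_of_pos (x := (d : ℝ) + 1) (by linarith)
    linarith
  have hlogd0 : 0 ≤ Real.log ((d : ℝ) + 1) := Real.log_nonneg (by linarith)
  have e1 : n0 * g * (m * (Real.sqrt m - 1) / 2) ≤ n0 * (g * Sn) := by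
    rw [mul_assoc]
    exact mul_le_mul_of_nonneg_left (mul_le_mul_of_nonneg_left h1 hg) hn0
  have e2 : Ss * H ≤ m * (4 * d * (1 + Real.log m)) * H := mul_le_mul_of_nonneg_right h2 hH
  have e3 : Ss * Real.log ((d : ℝ) + 1) ≤ m * (4 * d * (1 + Real.log m)) * d :=
    mul_le_mul h2 hlogd hlogd0 (by positivity)
  have e4 : D * (Real.log (m.factorial) + Ss * Real.log ((d : ℝ) + 1))
      ≤ D * (m * Real.log m + m * (4 * d * (1 + Real.log m)) * d) :=
    mul_le_mul_of_nonneg_left (add_le_add hfac e3) (by linarith)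
  have e5 : m * (n0 * g * (Real.sqrt m - 1))
      ≤ m * (2 * (4 * d * (1 + Real.log m) * H + D * (Real.log m + 4 * d * (1 + Real.log m) * d))) := by
    nlinarith
  have e6 := le_of_mul_le_mul_left e5 (by linarith : (0 : ℝ) < m)
  refine e6.trans ?_
  have t : 0 ≤ 1 + Real.log m := by linarith
  have f1 : 2 * (4 * d * (1 + Real.log m) * H) ≤ 10 * d ^ 2 * H * (1 + Real.log m) := by
    have : 0 ≤ H * (1 + Real.log m) * d := by positivity
    nlinarith
  have f2 : 2 * (D * (Real.log m + 4 * d * (1 + Real.log m) * d))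
      ≤ 10 * d ^ 2 * D * (1 + Real.log m) := by
    have g1 : Real.log m ≤ 1 * (1 + Real.log m) := by linarith
    have g2 : 0 ≤ D * (1 + Real.log m) := by positivity
    have g3 : D * Real.log m ≤ D * (1 + Real.log m) := by nlinarith
    have g4 : (4 : ℝ) ≤ (d : ℝ) ^ 2 := by nlinarith
    nlinarith
  linarith

variable [DecidableEq Ω] [Nonempty Ω]

lemma finrank_ge_one : (1 : ℝ) ≤ Module.finrank ℚ K := by
  exact_mod_cast Nat.succ_le_of_lt (Module.finrank_pos (R := ℚ) (M := K))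

/-- Main inequality, gain at an infinite place. -/
theorem main_inf (F : K[X]) (hd : 2 ≤ F.natDegree) (hcen : F.coeff (F.natDegree - 1) = 0)
    (δ : K) (hδ : δ ≠ 0)
    (X : ℤ → Ω → K) (hX : ∀ P, Orb F δ (fun i => X i P))
    (hfin : ∀ P, (Set.range (fun i => X i P)).Finite)
    (hinj : Function.Injective (fun P => (X 0 P, X 1 P))) (w : InfinitePlace K)
    (r g : ℝ) (hr : 0 < r) (hg : 0 ≤ g) (hg1 : Real.log r + g ≤ 0)
    (hg2 : Real.log r + g - Real.log (w.val δ) / ((F.natDegree : ℝ) - 1) ≤ 0)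
    (hcl : ∀ P Q, w.val (X 0 P - X 0 Q) ≤ lam F w.val * r ∧
      w.val (X 1 P - X 1 Q) ≤ lam F w.val * r) :
    w.mult * g * (Real.sqrt (Fintype.card Ω) - 1)
      ≤ 10 * F.natDegree ^ 2 * (hgt F δ + Module.finrank ℚ K)
        * (1 + Real.log (Fintype.card Ω)) := by
  have h0 : F ≠ 0 := by rintro rfl; simp at hd
  obtain ⟨s, n, E, Δ, hΔ, c1, c2, c3, c4, c5, c6⟩ := core_data F hd δ hδ X hX hinj
  have hbd : ∀ v : AbsoluteValue K ℝ, ∀ P k, v (X k P)
      ≤ ((F.natDegree : ℝ) + 1) * (lam F v * rad F δ v) := fun v P k =>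
    orbit_le F.natDegree hd F rfl hcen δ v _ _ (lam_pos F h0 v) (one_le_rad _ _ _)
      (lam_pow F hd v) (coeff_le_rad F hd hcen δ v) (delta_le_rad F hd δ v) _ (hX P) (hfin P) k
  have hbd' : ∀ v : AbsoluteValue K ℝ, IsNonarchimedean v → ∀ P k, v (X k P)
      ≤ lam F v * rad F δ v := fun v hv P k =>
    orbit_le_na F.natDegree hd F rfl hcen δ v hv _ _ (lam_pos F h0 v) (one_le_rad _ _ _)
      (lam_pow F hd v) (coeff_le_rad F hd hcen δ v) (delta_le_rad F hd δ v) _ (hX P) (hfin P) k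
  obtain ⟨hFU, htU⟩ := FS_U F hd δ hδ s n E
  have hSs : 0 ≤ ∑ p, (s p : ℝ) := Finset.sum_nonneg fun p _ => by positivity
  have hl1 : 0 ≤ Real.log ((F.natDegree : ℝ) + 1) := Real.log_nonneg (by
    have : (0 : ℝ) ≤ F.natDegree := by positivity
    linarith)
  have h := tot_le_inf (FS_log hΔ) hFU (Real.log ((Fintype.card Ω).factorial)
          + (∑ p, (s p : ℝ)) * Real.log ((F.natDegree : ℝ) + 1)) (g * ∑ p, (n p : ℝ)) w
    (fun v => c1 v.val (FinitePlace.add_le v) (hbd' _ (FinitePlace.add_le v)))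
    (fun w => c2 w.val (hbd _)) (by
      have := c4 w.val r g hr hg1 hg2 hcl
      have h5 := mul_nonneg hSs hl1
      linarith)
  rw [tot_log hΔ, htU] at h
  refine final_arith F.natDegree (Fintype.card Ω) hd Fintype.card_pos _ _ _ _ g _
    finrank_ge_one (hgt_nonneg _ _) (by positivity) hg c5 ?_ h
  calc ∑ p, (s p : ℝ) ≤ ∑ _p : Ω, (4 * F.natDegree * (1 + Real.log (Fintype.card Ω))) :=
        Finset.sum_le_sum fun p _ => c6 p
    _ = _ := by simp

/-- Main inequality, gain at a finite place. -/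
theorem main_fin (F : K[X]) (hd : 2 ≤ F.natDegree) (hcen : F.coeff (F.natDegree - 1) = 0)
    (δ : K) (hδ : δ ≠ 0)
    (X : ℤ → Ω → K) (hX : ∀ P, Orb F δ (fun i => X i P))
    (hfin : ∀ P, (Set.range (fun i => X i P)).Finite)
    (hinj : Function.Injective (fun P => (X 0 P, X 1 P))) (v0 : FinitePlace K)
    (r g : ℝ) (hr : 0 < r) (hg : 0 ≤ g) (hg1 : Real.log r + g ≤ 0)
    (hg2 : Real.log r + g - Real.log (v0.val δ) / ((F.natDegree : ℝ) - 1) ≤ 0)
    (hcl : ∀ P Q, v0.val (X 0 P - X 0 Q) ≤ lam F v0.val * r ∧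
      v0.val (X 1 P - X 1 Q) ≤ lam F v0.val * r) :
    g * (Real.sqrt (Fintype.card Ω) - 1)
      ≤ 10 * F.natDegree ^ 2 * (hgt F δ + Module.finrank ℚ K)
        * (1 + Real.log (Fintype.card Ω)) := by
  have h0 : F ≠ 0 := by rintro rfl; simp at hd
  obtain ⟨s, n, E, Δ, hΔ, c1, c2, c3, c4, c5, c6⟩ := core_data F hd δ hδ X hX hinj
  have hbd : ∀ v : AbsoluteValue K ℝ, ∀ P k, v (X k P)
      ≤ ((F.natDegree : ℝ) + 1) * (lam F v * rad F δ v) := fun v P k =>
    orbit_le F.natDegree hd F rfl hcen δ v _ _ (lam_pos F h0 v) (one_le_rad _ _ _)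
      (lam_pow F hd v) (coeff_le_rad F hd hcen δ v) (delta_le_rad F hd δ v) _ (hX P) (hfin P) k
  have hbd' : ∀ v : AbsoluteValue K ℝ, IsNonarchimedean v → ∀ P k, v (X k P)
      ≤ lam F v * rad F δ v := fun v hv P k =>
    orbit_le_na F.natDegree hd F rfl hcen δ v hv _ _ (lam_pos F h0 v) (one_le_rad _ _ _)
      (lam_pow F hd v) (coeff_le_rad F hd hcen δ v) (delta_le_rad F hd δ v) _ (hX P) (hfin P) k
  obtain ⟨hFU, htU⟩ := FS_U F hd δ hδ s n E
  have h := tot_le_fin (FS_log hΔ) hFU (Real.log ((Fintype.card Ω).factorial)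
          + (∑ p, (s p : ℝ)) * Real.log ((F.natDegree : ℝ) + 1)) (g * ∑ p, (n p : ℝ)) v0
    (fun v => c1 v.val (FinitePlace.add_le v) (hbd' _ (FinitePlace.add_le v)))
    (fun w => c2 w.val (hbd _)) (c3 v0.val (FinitePlace.add_le v0) r g hr hg1 hg2 hcl)
  rw [tot_log hΔ, htU] at h
  have := final_arith F.natDegree (Fintype.card Ω) hd Fintype.card_pos (Module.finrank ℚ K)
    (hgt F δ) (∑ p, (n p : ℝ)) (∑ p, (s p : ℝ)) g 1
    finrank_ge_one (hgt_nonneg _ _) zero_le_one hg c5 (by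
      calc ∑ p, (s p : ℝ) ≤ ∑ _p : Ω, (4 * F.natDegree * (1 + Real.log (Fintype.card Ω))) :=
            Finset.sum_le_sum fun p _ => c6 p
        _ = _ := by simp) (by linarith)
  simpa using this

end main

end H420R5
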