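import Pool.Agent.H420R5.HE.Defs

namespace H420R5

open Polynomial

namespace ClusterAux

variable {L : Type*} [NormedField L] [IsAlgClosed L]

/-- If some coefficient is large then not all roots are small. -/
theorem not_all_small (d : ℕ) (G : L[X]) (R : ℝ) (hmon : G.Monic) (hG : G.natDegree = d)
    (hR : 1 ≤ R) (h2 : ∃ j < d, R ^ (d - j) / 2 ≤ ‖G.coeff j‖) :
    ¬ ∀ z ∈ G.roots, ‖z‖ ≤ R / 2 ^ (d + 2) := by
  intro h
  obtain ⟨j, hj, hj2⟩ := h2
  have h3 := coeff_le_of_roots_le (p := G) (f := RingHom.id L) (B := R / 2 ^ (d + 2)) j hmon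
    (IsAlgClosed.splits _) (by simpa using h)
  rw [Polynomial.map_id, hG] at h3
  have hR0 : 0 < R := by linarith
  have h4 : (R / 2 ^ (d + 2)) ^ (d - j) ≤ R ^ (d - j) / 2 ^ (d + 2) := by
    rw [div_pow]
    apply div_le_div_of_nonneg_left (by positivity) (by positivity)
    exact le_self_pow₀ (one_le_pow₀ (by norm_num)) (by omega)
  have h5 : ((d.choose j : ℕ) : ℝ) ≤ 2 ^ d := by
    exact_mod_cast Nat.choose_le_two_pow d j
  have h6 : (R / 2 ^ (d + 2)) ^ (d - j) * (d.choose j : ℝ) ≤ R ^ (d - j) / 4 := by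
    calc (R / 2 ^ (d + 2)) ^ (d - j) * (d.choose j : ℝ) ≤ R ^ (d - j) / 2 ^ (d + 2) * 2 ^ d := by
          apply mul_le_mul h4 h5 (by positivity) (by positivity)
      _ = R ^ (d - j) / 4 := by
          rw [pow_add]
          field_simp
          norm_num
  have h7 : 0 < R ^ (d - j) := by positivity
  linarith

/-- Every root has another root far away. -/
theorem exists_far (d : ℕ) (hd : 2 ≤ d) (G : L[X]) (R : ℝ) (hmon : G.Monic) (hG : G.natDegree = d)
    (hcen : G.coeff (d - 1) = 0) (hR : 1 ≤ R) (he : 0 < ‖(d : L)‖)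
    (h2 : ∃ j < d, R ^ (d - j) / 2 ≤ ‖G.coeff j‖) (β : L) :
    ∃ α ∈ G.roots, ‖(d : L)‖ / (2 ^ (d + 3) * d) * R ≤ ‖α - β‖ ∨ β ∉ G.roots := by
  by_contra hc
  push Not at hc
  have hcard : G.roots.card = d := by
    rw [← hG]
    exact (IsAlgClosed.splits G).natDegree_eq_card_roots.symm
  have hne : G.roots ≠ 0 := by
    intro h
    rw [h] at hcard
    simp at hcard
    omega
  obtain ⟨α0, hα0⟩ := Multiset.exists_mem_of_ne_zero hne
  have hβ := (hc α0 hα0).2
  set e : ℝ := ‖(d : L)‖ with hedef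
  set κ : ℝ := e / (2 ^ (d + 3) * d) with hκ
  have hd0 : (0 : ℝ) < d := by exact_mod_cast (by omega : 0 < d)
  have hR0 : 0 < R := by linarith
  have hed : e ≤ d := by
    have := Nat.norm_cast_le (α := L) d
    simpa using this
  have hclose : ∀ z ∈ G.roots, ‖z - β‖ ≤ κ * R := fun z hz => (hc z hz).1.le
  have hsum : G.roots.sum = 0 := by
    have h := (IsAlgClosed.splits G).nextCoeff_eq_neg_sum_roots_of_monic hmon
    rw [nextCoeff_of_natDegree_pos (by omega), hG, hcen] at h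
    exact neg_eq_zero.1 h.symm
  -- d * β = ∑ (β - α)
  have hdβ : (d : L) * β = -(G.roots.map fun z => z - β).sum := by
    rw [Multiset.sum_map_sub, Multiset.map_id', hsum, Multiset.map_const', Multiset.sum_replicate,
      hcard, nsmul_eq_mul]
    ring
  have hnorm : e * ‖β‖ ≤ d * (κ * R) := by
    rw [hedef, ← norm_mul, hdβ, norm_neg]
    refine (norm_multiset_sum_le _).trans ?_
    rw [Multiset.map_map]
    have := Multiset.sum_le_card_nsmul (G.roots.map ((fun x => ‖x‖) ∘ fun z => z - β)) (κ * R) (by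
      intro x hx
      obtain ⟨z, hz, rfl⟩ := Multiset.mem_map.1 hx
      exact hclose z hz)
    rw [Multiset.card_map, hcard, nsmul_eq_mul] at this
    exact this
  apply not_all_small d G R hmon hG hR h2
  intro z hz
  have h1 : ‖z‖ ≤ ‖z - β‖ + ‖β‖ := by
    have := norm_add_le (z - β) β
    rwa [sub_add_cancel] at this
  have h3 : ‖β‖ ≤ R / 2 ^ (d + 3) := by
    have : e * ‖β‖ ≤ e * (R / 2 ^ (d + 3)) := by
      calc e * ‖β‖ ≤ d * (κ * R) := hnorm
        _ = e * (R / 2 ^ (d + 3)) := by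
            rw [hκ]
            field_simp
    exact le_of_mul_le_mul_left this he
  have h4 : κ * R ≤ R / 2 ^ (d + 3) := by
    have h5 : κ ≤ 1 / 2 ^ (d + 3) := by
      rw [hκ, div_le_div_iff₀ (by positivity) (by positivity)]
      nlinarith [show (0 : ℝ) < 2 ^ (d + 3) by positivity]
    calc κ * R ≤ 1 / 2 ^ (d + 3) * R := mul_le_mul_of_nonneg_right h5 hR0.le
      _ = R / 2 ^ (d + 3) := by ring
  calc ‖z‖ ≤ ‖z - β‖ + ‖β‖ := h1
    _ ≤ R / 2 ^ (d + 3) + R / 2 ^ (d + 3) := add_le_add ((hclose z hz).trans h4) h3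
    _ = R / 2 ^ (d + 2) := by
        rw [pow_succ (2 : ℝ) (d + 2)]
        field_simp
        norm_num

/-- A small value of `G` forces a close root. -/
theorem close_root (d : ℕ) (hd : 2 ≤ d) (G : L[X]) (R : ℝ) (hmon : G.Monic) (hG : G.natDegree = d)
    (hcen : G.coeff (d - 1) = 0) (hR : 1 ≤ R) (he : 0 < ‖(d : L)‖)
    (h2 : ∃ j < d, R ^ (d - j) / 2 ≤ ‖G.coeff j‖) (x : L) :
    ∃ β ∈ G.roots, ‖(d : L)‖ / (2 ^ (d + 3) * d) * R / 2 * ‖x - β‖ ^ (d - 1) ≤ ‖G.eval x‖ := by
  classical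
  have hcard : G.roots.card = d := by
    rw [← hG]
    exact (IsAlgClosed.splits G).natDegree_eq_card_roots.symm
  have hne : G.roots ≠ 0 := by
    intro h
    rw [h] at hcard
    simp at hcard
    omega
  have hne' : G.roots.toFinset.Nonempty := by
    obtain ⟨a, ha⟩ := Multiset.exists_mem_of_ne_zero hne
    exact ⟨a, Multiset.mem_toFinset.2 ha⟩
  obtain ⟨β, hβ, hmin⟩ := Finset.exists_min_image G.roots.toFinset (fun z => ‖x - z‖) hne'
  rw [Multiset.mem_toFinset] at hβ
  have hmin' : ∀ z ∈ G.roots, ‖x - β‖ ≤ ‖x - z‖ := fun z hz =>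
    hmin z (Multiset.mem_toFinset.2 hz)
  refine ⟨β, hβ, ?_⟩
  obtain ⟨α, hα, hfar⟩ := exists_far d hd G R hmon hG hcen hR he h2 β
  have hfar' := hfar.resolve_right (not_not.2 hβ)
  set κ : ℝ := ‖(d : L)‖ / (2 ^ (d + 3) * d) with hκ
  have h3 : κ * R / 2 ≤ ‖x - α‖ := by
    have h4 : ‖α - β‖ ≤ ‖x - α‖ + ‖x - β‖ := by
      have : α - β = (x - β) - (x - α) := by ring
      rw [this]
      have := norm_sub_le (x - β) (x - α)
      linarith
    have := hmin' α hα
    linarith
  have heval : G.eval x = (x - α) * ((G.roots.erase α).map fun z => x - z).prod := by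
    rw [(IsAlgClosed.splits G).eval_eq_prod_roots_of_monic hmon]
    conv_lhs => rw [← Multiset.cons_erase hα]
    rw [Multiset.map_cons, Multiset.prod_cons]
  have hcard2 : (G.roots.erase α).card = d - 1 := by
    rw [Multiset.card_erase_of_mem hα, hcard]
    rfl
  have hprod : ‖x - β‖ ^ (d - 1) ≤ ‖((G.roots.erase α).map fun z => x - z).prod‖ := by
    have key : ∀ s : Multiset L, (∀ z ∈ s, ‖x - β‖ ≤ ‖x - z‖) →
        ‖x - β‖ ^ s.card ≤ ‖(s.map fun z => x - z).prod‖ := by
      intro s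
      induction s using Multiset.induction_on with
      | empty => intro _; simp
      | cons a s ih =>
        intro hs
        rw [Multiset.card_cons, Multiset.map_cons, Multiset.prod_cons, norm_mul, pow_succ, mul_comm]
        apply mul_le_mul (hs a (Multiset.mem_cons_self a s))
          (ih fun z hz => hs z (Multiset.mem_cons_of_mem hz)) (by positivity) (norm_nonneg _)
    rw [← hcard2]
    exact key _ fun z hz => hmin' z (Multiset.mem_of_mem_erase hz)
  rw [heval, norm_mul]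
  exact mul_le_mul h3 hprod (by positivity) (norm_nonneg _)

/-- The roots of `F` are at most `d R`. -/
theorem root_le (d : ℕ) (hd : 2 ≤ d) (F : L[X]) (R : ℝ) (hmon : F.Monic) (hF : F.natDegree = d)
    (hR : 1 ≤ R) (h1 : ∀ j < d, ‖F.coeff j‖ ≤ R ^ (d - j)) (α : L) (hα : α ∈ F.roots) :
    ‖α‖ ≤ d * R := by
  have hR0 : 0 < R := by linarith
  have hd1 : (1 : ℝ) ≤ d := by exact_mod_cast (by omega : 1 ≤ d)
  rcases le_or_gt ‖α‖ R with h | h
  · nlinarith
  have hroot : F.eval α = 0 := (mem_roots'.1 hα).2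
  rw [eval_eq_sum_range, Finset.sum_range_succ, hF] at hroot
  have hlead : F.coeff d = 1 := by
    rw [← hF]; exact hmon
  rw [hlead, one_mul] at hroot
  have h3 : α ^ d = -∑ j ∈ Finset.range d, F.coeff j * α ^ j := by
    linear_combination hroot
  have h4 : ‖α‖ ^ d ≤ d * (R * ‖α‖ ^ (d - 1)) := by
    rw [← norm_pow, h3, norm_neg]
    refine (norm_sum_le _ _).trans ?_
    have : ∀ j ∈ Finset.range d, ‖F.coeff j * α ^ j‖ ≤ R * ‖α‖ ^ (d - 1) := by
      intro j hj
      have hj' := Finset.mem_range.1 hj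
      rw [norm_mul, norm_pow]
      calc ‖F.coeff j‖ * ‖α‖ ^ j ≤ R ^ (d - j) * ‖α‖ ^ j :=
            mul_le_mul_of_nonneg_right (h1 j hj') (by positivity)
        _ = R * (R ^ (d - 1 - j) * ‖α‖ ^ j) := by
            rw [← mul_assoc, ← pow_succ']
            congr 2
            omega
        _ ≤ R * (‖α‖ ^ (d - 1 - j) * ‖α‖ ^ j) := by
            gcongr
        _ = R * ‖α‖ ^ (d - 1) := by
            rw [← pow_add]
            congr 2
            omega
    have := Finset.sum_le_sum this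
    rw [Finset.sum_const, Finset.card_range, nsmul_eq_mul] at this
    exact this
  have h5 : ‖α‖ ^ d = ‖α‖ * ‖α‖ ^ (d - 1) := by
    rw [← pow_succ']
    congr 1
    omega
  rw [h5, ← mul_assoc] at h4
  exact le_of_mul_le_mul_right h4 (pow_pos (hR0.trans h) _)

end ClusterAux

open ClusterAux in
/-- T4: bounded orbits of a monic centred Hénon map over an algebraically closed normed field
have `x 0` in at most `d^3` small discs, if the map is large compared with its Jacobian. -/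
theorem cluster_normed (d : ℕ) (hd : 2 ≤ d) {L : Type*} [NormedField L] [IsAlgClosed L]
    (F : L[X]) (δ : L) (R : ℝ) (hmon : F.Monic) (hF : F.natDegree = d)
    (hcen : F.coeff (d - 1) = 0) (hR : 1 ≤ R)
    (h1 : ∀ j < d, ‖F.coeff j‖ ≤ R ^ (d - j)) (h2 : ∃ j < d, ‖F.coeff j‖ = R ^ (d - j))
    (hδ : ‖δ‖ ^ 4 ≤ R) (hbig : (2 : ℝ) ^ (100 * d) ≤ ‖(d : L)‖ ^ 16 * R) :
    ∃ Z : Finset L, Z.card ≤ d ^ 3 ∧ ∀ x : ℤ → L, Orb F δ x → (∀ i, ‖x i‖ ≤ (d + 1) * R) →
      ∃ z ∈ Z, ‖x 0 - z‖ ^ (8 * (d - 1)) * R ^ 3 ≤ 1 := by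
  classical
  have hR0 : 0 < R := by linarith
  have hd0 : (0 : ℝ) < d := by exact_mod_cast (by omega : 0 < d)
  have hd2 : (2 : ℝ) ≤ d := by exact_mod_cast hd
  set e : ℝ := ‖(d : L)‖ with hedef
  have he0 : 0 ≤ e := norm_nonneg _
  have he : 0 < e := by
    rcases he0.lt_or_eq with h | h
    · exact h
    · rw [← h] at hbig
      have : (0 : ℝ) < 2 ^ (100 * d) := by positivity
      norm_num at hbig
      linarith
  have hed : e ≤ d := by
    have := Nat.norm_cast_le (α := L) d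
    simpa using this
  have hd2d : (d : ℝ) ≤ 2 ^ d := by
    exact_mod_cast (Nat.lt_two_pow_self (n := d)).le
  set t : ℝ := R ^ (1 / 4 : ℝ) with htdef
  have ht4 : t ^ 4 = R := by
    rw [htdef, ← Real.rpow_natCast, ← Real.rpow_mul hR0.le]
    norm_num
  have ht0 : 0 < t := Real.rpow_pos_of_pos hR0 _
  have ht1 : 1 ≤ t := Real.one_le_rpow hR (by norm_num)
  have hδt : ‖δ‖ ≤ t := by
    rw [← ht4] at hδ
    exact le_of_pow_le_pow_left₀ (by norm_num) ht0.le hδ
  set κ : ℝ := e / (2 ^ (d + 3) * d) with hκ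
  have hκ0 : 0 < κ := by positivity
  have hκ1 : κ ≤ 1 := by
    rw [hκ, div_le_one (by positivity)]
    have : (1 : ℝ) ≤ 2 ^ (d + 3) := one_le_pow₀ (by norm_num)
    nlinarith
  set A1 : ℝ := 4 * (d + 1) / κ with hA1
  have hA1κ : A1 * κ = 4 * (d + 1) := by
    rw [hA1]; field_simp
  have hA1' : 1 ≤ A1 := by
    rw [hA1, le_div_iff₀ hκ0]
    linarith
  -- the constants
  have hconst : (4 * A1 / κ) ^ 8 ≤ R := by
    have h3 : 4 * A1 / κ = 16 * (d + 1) * (2 ^ (d + 3) * d) ^ 2 / e ^ 2 := by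
      rw [hA1, hκ]
      field_simp
      ring
    have h4 : 16 * ((d : ℝ) + 1) * (2 ^ (d + 3) * d) ^ 2 ≤ 2 ^ (10 * d) := by
      have h5 : (d : ℝ) + 1 ≤ 2 ^ d := by
        exact_mod_cast (Nat.lt_two_pow_self (n := d))
      have h6 : (d : ℝ) ^ 2 ≤ (2 ^ d) ^ 2 := pow_le_pow_left₀ hd0.le hd2d 2
      have h7 : (16 : ℝ) * 2 ^ 6 ≤ 2 ^ (5 * d) := by
        calc (16 : ℝ) * 2 ^ 6 = 2 ^ 10 := by norm_num
          _ ≤ 2 ^ (5 * d) := pow_le_pow_right₀ (by norm_num) (by omega)
      calc 16 * ((d : ℝ) + 1) * (2 ^ (d + 3) * d) ^ 2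
          = (16 * 2 ^ 6) * (((d : ℝ) + 1) * ((2 ^ d) ^ 2 * (d : ℝ) ^ 2)) := by
            rw [pow_add]; ring
        _ ≤ 2 ^ (5 * d) * (2 ^ d * ((2 ^ d) ^ 2 * (2 ^ d) ^ 2)) := by
            gcongr
        _ = 2 ^ (10 * d) := by
            rw [← pow_mul, ← pow_add, ← pow_add, ← pow_add]
            congr 1
            ring
    rw [h3, div_pow, div_le_iff₀ (by positivity)]
    calc (16 * ((d : ℝ) + 1) * (2 ^ (d + 3) * d) ^ 2) ^ 8 ≤ (2 ^ (10 * d)) ^ 8 :=
          pow_le_pow_left₀ (by positivity) h4 8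
      _ = 2 ^ (80 * d) := by rw [← pow_mul]; congr 1; ring
      _ ≤ 2 ^ (100 * d) := pow_le_pow_right₀ (by norm_num) (by omega)
      _ ≤ e ^ 16 * R := hbig
      _ = R * (e ^ 2) ^ 8 := by ring
  have htbig : 4 * t * d * R ≤ R ^ 2 := by
    have h3 : 4 * (d : ℝ) ≤ t ^ 3 := by
      by_contra hc
      push Not at hc
      have h4 : t ^ 12 < (4 * d) ^ 4 := by
        have := pow_lt_pow_left₀ hc (by positivity) (by norm_num : (4 : ℕ) ≠ 0)
        calc t ^ 12 = (t ^ 3) ^ 4 := by ring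
          _ < _ := this
      have h5 : R ^ 3 < (4 * d) ^ 4 := by
        rw [← ht4]
        calc (t ^ 4) ^ 3 = t ^ 12 := by ring
          _ < _ := h4
      have h6 : R ≤ R ^ 3 := le_self_pow₀ hR (by norm_num)
      have h7 : (2 : ℝ) ^ (100 * d) < 2 ^ (16 * d) * 2 ^ (12 * d) := by
        have h8 : e ^ 16 ≤ (2 ^ d) ^ 16 := pow_le_pow_left₀ he0 (hed.trans hd2d) 16
        have h9 : (4 * (d : ℝ)) ^ 4 ≤ (2 ^ (3 * d)) ^ 4 := by
          apply pow_le_pow_left₀ (by positivity)
          calc 4 * (d : ℝ) = 2 ^ 2 * d := by norm_num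
            _ ≤ 2 ^ (2 * d) * 2 ^ d := by
                apply mul_le_mul (pow_le_pow_right₀ (by norm_num) (by omega)) hd2d hd0.le
                  (by positivity)
            _ = 2 ^ (3 * d) := by rw [← pow_add]; congr 1; ring
        calc (2 : ℝ) ^ (100 * d) ≤ e ^ 16 * R := hbig
          _ ≤ (2 ^ d) ^ 16 * R := mul_le_mul_of_nonneg_right h8 hR0.le
          _ < (2 ^ d) ^ 16 * (2 ^ (3 * d)) ^ 4 := by
              apply mul_lt_mul_of_pos_left _ (by positivity)
              linarith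
          _ = 2 ^ (16 * d) * 2 ^ (12 * d) := by
              rw [← pow_mul, ← pow_mul]
              congr 2 <;> ring
      rw [← pow_add] at h7
      have h10 : (2 : ℝ) ^ (16 * d + 12 * d) ≤ 2 ^ (100 * d) :=
        pow_le_pow_right₀ (by norm_num) (by omega)
      linarith
    have h4 : 4 * t * d ≤ R := by
      calc 4 * t * d = t * (4 * d) := by ring
        _ ≤ t * t ^ 3 := mul_le_mul_of_nonneg_left h3 ht0.le
        _ = R := by rw [← ht4]; ring
    nlinarith
  have h2F : ∃ j < d, R ^ (d - j) / 2 ≤ ‖F.coeff j‖ := by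
    obtain ⟨j, hj, hj2⟩ := h2
    refine ⟨j, hj, ?_⟩
    rw [hj2]
    have : 0 < R ^ (d - j) := by positivity
    linarith
  refine ⟨(F.roots.toFinset ×ˢ F.roots.toFinset).biUnion
    (fun p => (F - C (p.1 + δ * p.2)).roots.toFinset), ?_, ?_⟩
  · have hr : F.roots.toFinset.card ≤ d := by
      refine (Multiset.toFinset_card_le _).trans ?_
      rw [← hF]
      exact F.card_roots'
    refine (Finset.card_biUnion_le_card_mul _ _ d ?_).trans ?_
    · intro p _
      refine (Multiset.toFinset_card_le _).trans ?_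
      refine (card_roots' _).trans ?_
      rw [natDegree_sub_C, hF]
    · rw [Finset.card_product]
      calc F.roots.toFinset.card * F.roots.toFinset.card * d ≤ d * d * d := by gcongr
        _ = d ^ 3 := by ring
  · intro x hx hxb
    -- step 1: every point is close to a root
    have step1 : ∀ i : ℤ, ∃ α ∈ F.roots, ‖x i - α‖ ≤ A1 * t := by
      intro i
      obtain ⟨α, hα, h3⟩ := close_root d hd F R hmon hF hcen hR he h2F (x i)
      refine ⟨α, hα, ?_⟩
      have h4 : ‖F.eval (x i)‖ ≤ 2 * (d + 1) * R * t := by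
        rw [← hx i]
        calc ‖x (i + 1) + δ * x (i - 1)‖ ≤ ‖x (i + 1)‖ + ‖δ‖ * ‖x (i - 1)‖ := by
              rw [← norm_mul]; exact norm_add_le _ _
          _ ≤ (d + 1) * R + t * ((d + 1) * R) :=
              add_le_add (hxb _) (mul_le_mul hδt (hxb _) (norm_nonneg _) ht0.le)
          _ ≤ 2 * (d + 1) * R * t := by
              have : (d + 1) * R ≤ t * ((d + 1) * R) := le_mul_of_one_le_left (by positivity) ht1
              linarith
      have h5 : ‖x i - α‖ ^ (d - 1) ≤ A1 * t := by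
        have h6 : κ * R / 2 * ‖x i - α‖ ^ (d - 1) ≤ κ * R / 2 * (A1 * t) := by
          calc κ * R / 2 * ‖x i - α‖ ^ (d - 1) ≤ ‖F.eval (x i)‖ := h3
            _ ≤ 2 * (d + 1) * R * t := h4
            _ = κ * R / 2 * (A1 * t) := by
                rw [show κ * R / 2 * (A1 * t) = (A1 * κ) * R * t / 2 by ring, hA1κ]
                ring
        exact le_of_mul_le_mul_left h6 (by positivity)
      by_contra hc
      push Not at hc
      have h7 : 1 ≤ A1 * t := one_le_mul_of_one_le_of_one_le hA1' ht1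
      have h8 : ‖x i - α‖ ≤ ‖x i - α‖ ^ (d - 1) :=
        le_self_pow₀ (h7.trans hc.le) (by omega)
      linarith
    obtain ⟨α, hα, hα1⟩ := step1 (0 + 1)
    obtain ⟨α', hα', hα1'⟩ := step1 (0 - 1)
    set u : L := α + δ * α' with hu
    have hu1 : ‖F.eval (x 0) - u‖ ≤ 2 * A1 * t ^ 2 := by
      rw [← hx 0, hu]
      have : x (0 + 1) + δ * x (0 - 1) - (α + δ * α') =
          (x (0 + 1) - α) + δ * (x (0 - 1) - α') := by ring
      rw [this]
      calc ‖(x (0 + 1) - α) + δ * (x (0 - 1) - α')‖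
          ≤ ‖x (0 + 1) - α‖ + ‖δ‖ * ‖x (0 - 1) - α'‖ := by
            rw [← norm_mul]; exact norm_add_le _ _
        _ ≤ A1 * t + t * (A1 * t) :=
            add_le_add hα1 (mul_le_mul hδt hα1' (norm_nonneg _) ht0.le)
        _ ≤ 2 * A1 * t ^ 2 := by
            have : A1 * t ≤ t * (A1 * t) := le_mul_of_one_le_left (by positivity) ht1
            nlinarith
    have hu2 : ‖u‖ ≤ R ^ 2 / 2 := by
      have h3 := root_le d hd F R hmon hF hR h1 α hα
      have h4 := root_le d hd F R hmon hF hR h1 α' hα'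
      calc ‖u‖ ≤ ‖α‖ + ‖δ‖ * ‖α'‖ := by
            rw [hu, ← norm_mul]; exact norm_add_le _ _
        _ ≤ d * R + t * (d * R) :=
            add_le_add h3 (mul_le_mul hδt h4 (norm_nonneg _) ht0.le)
        _ ≤ 2 * t * d * R := by
            have : (d : ℝ) * R ≤ t * (d * R) := le_mul_of_one_le_left (by positivity) ht1
            linarith
        _ ≤ R ^ 2 / 2 := by linarith
    set G : L[X] := F - C u with hGdef
    have hGdeg : G.natDegree = d := by rw [hGdef, natDegree_sub_C, hF]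
    have hGmon : G.Monic := by
      apply hmon.sub_of_left
      rw [degree_eq_natDegree hmon.ne_zero, hF]
      refine (degree_C_le).trans_lt ?_
      exact_mod_cast (by omega : 0 < d)
    have hGc : ∀ j, 0 < j → G.coeff j = F.coeff j := by
      intro j hj
      rw [hGdef, coeff_sub, coeff_C_ne_zero (by omega), sub_zero]
    have hGcen : G.coeff (d - 1) = 0 := by rw [hGc _ (by omega), hcen]
    have h2G : ∃ j < d, R ^ (d - j) / 2 ≤ ‖G.coeff j‖ := by
      obtain ⟨j, hj, hj2⟩ := h2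
      refine ⟨j, hj, ?_⟩
      rcases Nat.eq_zero_or_pos j with h0 | h0
      · subst h0
        have h3 : G.coeff 0 = F.coeff 0 - u := by
          rw [hGdef, coeff_sub, coeff_C_zero]
        rw [h3]
        have h4 := norm_sub_norm_le (F.coeff 0) u
        rw [hj2] at h4
        have h5 : R ^ 2 ≤ R ^ (d - 0) := pow_le_pow_right₀ hR (by omega)
        linarith
      · rw [hGc j h0, hj2]
        have : 0 < R ^ (d - j) := by positivity
        linarith
    obtain ⟨β, hβ, h3⟩ := close_root d hd G R hGmon hGdeg hGcen hR he h2G (x 0)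
    refine ⟨β, ?_, ?_⟩
    · rw [Finset.mem_biUnion]
      exact ⟨(α, α'), Finset.mem_product.2 ⟨Multiset.mem_toFinset.2 hα,
        Multiset.mem_toFinset.2 hα'⟩, Multiset.mem_toFinset.2 hβ⟩
    · have h4 : ‖G.eval (x 0)‖ ≤ 2 * A1 * t ^ 2 := by
        rw [hGdef, eval_sub, eval_C]
        exact hu1
      have h5 : ‖x 0 - β‖ ^ (d - 1) * t ^ 2 ≤ 4 * A1 / κ := by
        rw [le_div_iff₀ hκ0]
        have h6 : κ * R / 2 * ‖x 0 - β‖ ^ (d - 1) ≤ 2 * A1 * t ^ 2 := h3.trans h4
        rw [← ht4] at h6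
        have h7 : t ^ 2 * (‖x 0 - β‖ ^ (d - 1) * t ^ 2 * κ) ≤ t ^ 2 * (4 * A1) := by
          linarith
        exact le_of_mul_le_mul_left h7 (by positivity)
      have h8 : (‖x 0 - β‖ ^ (d - 1) * t ^ 2) ^ 8 ≤ R :=
        (pow_le_pow_left₀ (by positivity) h5 8).trans hconst
      have h9 : (‖x 0 - β‖ ^ (d - 1) * t ^ 2) ^ 8 = ‖x 0 - β‖ ^ (8 * (d - 1)) * R ^ 3 * R := by
        rw [mul_pow, ← pow_mul, ← pow_mul, mul_comm (d - 1) 8, ← ht4]
        ring
      rw [h9] at h8
      have h10 : ‖x 0 - β‖ ^ (8 * (d - 1)) * R ^ 3 * R ≤ 1 * R := by linarith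
      exact le_of_mul_le_mul_right h10 hR0

end H420R5
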