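import Pool.Agent.H420R5.HE.Rad

/-!
Weighted sums over all places of a number field.
-/

namespace H420R5

open Polynomial NumberField

lemma log_lam {K : Type*} [Field K] (F : K[X]) (hF : 2 ≤ F.natDegree) (v : AbsoluteValue K ℝ) :
    Real.log (lam F v) = (-(1 : ℝ) / ((F.natDegree : ℝ) - 1)) * Real.log (v F.leadingCoeff) := by
  have h0 : F ≠ 0 := by rintro rfl; simp at hF
  rw [lam, Real.log_rpow (v.pos (by simpa using h0))]

variable {K : Type*} [Field K] [NumberField K]

/-- weighted sum over all places -/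
noncomputable def tot (f : AbsoluteValue K ℝ → ℝ) : ℝ :=
  ∑ w : InfinitePlace K, (w.mult : ℝ) * f w.val + ∑ᶠ v : FinitePlace K, f v.val

/-- finite support on the finite places -/
def FS (f : AbsoluteValue K ℝ → ℝ) : Prop :=
  (Function.support (fun v : FinitePlace K => f v.val)).Finite

lemma FS.add {f g : AbsoluteValue K ℝ → ℝ} (hf : FS f) (hg : FS g) : FS (fun v => f v + g v) :=
  (Set.Finite.union hf hg).subset (Function.support_add _ _)

lemma FS.smul {f : AbsoluteValue K ℝ → ℝ} (hf : FS f) (c : ℝ) : FS (fun v => c * f v) :=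
  hf.subset (by
    intro v hv
    simp only [Function.mem_support] at hv ⊢
    exact right_ne_zero_of_mul hv)

lemma tot_add {f g : AbsoluteValue K ℝ → ℝ} (hf : FS f) (hg : FS g) :
    tot (fun v => f v + g v) = tot f + tot g := by
  rw [tot, tot, tot, finsum_add_distrib hf hg]
  simp only [mul_add, Finset.sum_add_distrib]
  ring

lemma tot_smul (f : AbsoluteValue K ℝ → ℝ) (c : ℝ) :
    tot (fun v => c * f v) = c * tot f := by
  rw [tot, tot, mul_add, Finset.mul_sum, mul_finsum]
  congr 1
  exact Finset.sum_congr rfl fun w _ => by ring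

lemma FS_log {x : K} (hx : x ≠ 0) : FS (fun v => Real.log (v x)) := by
  refine (FinitePlace.hasFiniteMulSupport hx).subset ?_
  intro v hv
  simp only [Function.mem_support, Function.mem_mulSupport] at hv ⊢
  intro h
  apply hv
  have : v.val x = 1 := h
  rw [this, Real.log_one]

lemma tot_log {x : K} (hx : x ≠ 0) : tot (fun v => Real.log (v x)) = 0 := by
  have h := NumberField.prod_abs_eq_one hx
  have h1 : Real.log ((∏ w : InfinitePlace K, w x ^ w.mult) * ∏ᶠ w : FinitePlace K, w x) = 0 := by
    rw [h, Real.log_one]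
  have hfin : ∏ᶠ w : FinitePlace K, w x
      = ∏ w ∈ (FinitePlace.hasFiniteMulSupport hx).toFinset, w x :=
    finprod_eq_prod_of_mulSupport_subset _ (by simp)
  have hne : ∀ w : FinitePlace K, w x ≠ 0 := fun w => w.val.ne_zero hx
  have hne' : ∀ w : InfinitePlace K, w x ≠ 0 := fun w => w.val.ne_zero hx
  rw [Real.log_mul (Finset.prod_ne_zero_iff.2 fun w _ => pow_ne_zero _ (hne' w))
    (by rw [hfin]; exact Finset.prod_ne_zero_iff.2 fun w _ => hne w), hfin,
    Real.log_prod (fun w _ => pow_ne_zero _ (hne' w)), Real.log_prod (fun w _ => hne w)] at h1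
  rw [tot, finsum_eq_sum_of_support_subset (s := (FinitePlace.hasFiniteMulSupport hx).toFinset) _
    (by
      intro v hv
      simp only [Function.mem_support] at hv
      simp only [Set.Finite.coe_toFinset, Function.mem_mulSupport]
      intro h
      apply hv
      have : v.val x = 1 := h
      rw [this, Real.log_one])]
  simp only [Real.log_pow] at h1
  exact h1

lemma sum_mult : ∑ w : InfinitePlace K, (w.mult : ℝ) = Module.finrank ℚ K := by
  have := InfinitePlace.sum_mult_eq (K := K)
  exact_mod_cast this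

/-- comparison of totals, with a gain at an infinite place -/
lemma tot_le_inf {f g : AbsoluteValue K ℝ → ℝ} (hf : FS f) (hg : FS g) (c G : ℝ)
    (w0 : InfinitePlace K)
    (hfin : ∀ v : FinitePlace K, f v.val ≤ g v.val)
    (hinf : ∀ w : InfinitePlace K, f w.val ≤ g w.val + c)
    (h0 : f w0.val ≤ g w0.val + c - G) :
    tot f ≤ tot g + Module.finrank ℚ K * c - w0.mult * G := by
  classical
  have h1 : ∑ᶠ v : FinitePlace K, f v.val ≤ ∑ᶠ v : FinitePlace K, g v.val := by
    set s := (Set.Finite.union hf hg).toFinset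
    rw [finsum_eq_sum_of_support_subset (s := s) _ (by simp [s]),
      finsum_eq_sum_of_support_subset (s := s) _ (by simp [s])]
    exact Finset.sum_le_sum fun v _ => hfin v
  have h2 : ∑ w : InfinitePlace K, (w.mult : ℝ) * f w.val
      ≤ ∑ w : InfinitePlace K, ((w.mult : ℝ) * g w.val + (w.mult : ℝ) * c
        - if w = w0 then (w.mult : ℝ) * G else 0) := by
    refine Finset.sum_le_sum fun w _ => ?_
    have hm : (0 : ℝ) ≤ w.mult := by positivity
    split_ifs with h
    · subst h
      have := mul_le_mul_of_nonneg_left h0 hm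
      linarith
    · have := mul_le_mul_of_nonneg_left (hinf w) hm
      linarith
  rw [Finset.sum_sub_distrib, Finset.sum_add_distrib, ← Finset.sum_mul, sum_mult,
    Finset.sum_ite_eq' ] at h2
  simp only [Finset.mem_univ, if_true] at h2
  rw [tot, tot]
  linarith

/-- comparison of totals, with a gain at a finite place -/
lemma tot_le_fin {f g : AbsoluteValue K ℝ → ℝ} (hf : FS f) (hg : FS g) (c G : ℝ)
    (v0 : FinitePlace K)
    (hfin : ∀ v : FinitePlace K, f v.val ≤ g v.val)
    (hinf : ∀ w : InfinitePlace K, f w.val ≤ g w.val + c)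
    (h0 : f v0.val ≤ g v0.val - G) :
    tot f ≤ tot g + Module.finrank ℚ K * c - G := by
  classical
  have h1 : ∑ᶠ v : FinitePlace K, f v.val ≤ ∑ᶠ v : FinitePlace K, g v.val - G := by
    set s := insert v0 (Set.Finite.union hf hg).toFinset with hs
    have hv0 : v0 ∈ s := Finset.mem_insert_self _ _
    rw [finsum_eq_sum_of_support_subset (s := s) _ (by
        intro v hv; simp only [hs, Finset.coe_insert, Set.Finite.coe_toFinset]
        exact Set.mem_insert_of_mem _ (Or.inl hv)),
      finsum_eq_sum_of_support_subset (s := s) _ (by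
        intro v hv; simp only [hs, Finset.coe_insert, Set.Finite.coe_toFinset]
        exact Set.mem_insert_of_mem _ (Or.inr hv)),
      ← Finset.add_sum_erase _ _ hv0, ← Finset.add_sum_erase _ _ hv0]
    have := Finset.sum_le_sum (s := s.erase v0) fun v _ => hfin v
    linarith
  have h2 : ∑ w : InfinitePlace K, (w.mult : ℝ) * f w.val
      ≤ ∑ w : InfinitePlace K, ((w.mult : ℝ) * g w.val + (w.mult : ℝ) * c) := by
    refine Finset.sum_le_sum fun w _ => ?_
    have hm : (0 : ℝ) ≤ w.mult := by positivity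
    have := mul_le_mul_of_nonneg_left (hinf w) hm
    linarith
  rw [Finset.sum_add_distrib, ← Finset.sum_mul, sum_mult] at h2
  rw [tot, tot]
  linarith

/-- total height of a centred Hénon map -/
noncomputable def hgt (F : K[X]) (δ : K) : ℝ := tot (fun v => Real.log (rad F δ v))

lemma rad_eq_one (F : K[X]) (hF : 2 ≤ F.natDegree) (δ : K) (v : AbsoluteValue K ℝ)
    (h1 : v δ = 1) (h2 : ∀ j, F.coeff j ≠ 0 → v (F.coeff j) = 1) : rad F δ v = 1 := by
  have h0 : F ≠ 0 := by rintro rfl; simp at hF
  have hlead : v F.leadingCoeff = 1 := h2 _ (by simpa using h0)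
  have hlam : lam F v = 1 := by rw [lam, hlead, Real.one_rpow]
  have : Nonempty (Fin (F.natDegree - 1)) := ⟨⟨0, by omega⟩⟩
  refine le_antisymm ?_ (one_le_rad _ _ _)
  rw [rad, h1, Real.one_rpow, max_self]
  refine max_le le_rfl (ciSup_le fun j => ?_)
  rw [hlam, Real.one_rpow, mul_one]
  have hj : ((j : ℕ) : ℝ) < F.natDegree := by
    have := j.2
    exact_mod_cast (by omega : (j : ℕ) < F.natDegree)
  by_cases h : F.coeff j = 0
  · rw [h, map_zero, Real.zero_rpow]
    · norm_num
    · have : (0 : ℝ) < (F.natDegree : ℝ) - (j : ℕ) := by linarith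
      positivity
  · rw [h2 j h, Real.one_rpow]

lemma FS_rad (F : K[X]) (hF : 2 ≤ F.natDegree) (δ : K) (hδ : δ ≠ 0) :
    FS (fun v => Real.log (rad F δ v)) := by
  classical
  have hbig : (⋃ x ∈ ((insert δ (F.support.image F.coeff)).filter (fun x => x ≠ 0) : Finset K),
      (Function.mulSupport (fun v : FinitePlace K => v x))).Finite := by
    refine Set.Finite.biUnion (Finset.finite_toSet _) ?_
    intro x hx
    have hx : x ≠ 0 := (Finset.mem_filter.1 hx).2
    exact FinitePlace.hasFiniteMulSupport hx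
  refine hbig.subset ?_
  intro v hv
  by_contra hcon
  apply hv
  simp only [Set.mem_iUnion, not_exists, Function.mem_mulSupport, not_not] at hcon
  have h1 : v.val δ = 1 := hcon δ (by simp [hδ])
  have h2 : ∀ j, F.coeff j ≠ 0 → v.val (F.coeff j) = 1 := by
    intro j hj
    refine hcon (F.coeff j) (Finset.mem_filter.2 ⟨Finset.mem_insert_of_mem
      (Finset.mem_image.2 ⟨j, mem_support_iff.2 hj, rfl⟩), hj⟩)
  change Real.log (rad F δ v.val) = 0
  rw [rad_eq_one F hF δ v.val h1 h2, Real.log_one]

lemma FS_lam (F : K[X]) (hF : 2 ≤ F.natDegree) : FS (fun v => Real.log (lam F v)) := by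
  have h0 : F ≠ 0 := by rintro rfl; simp at hF
  have := (FS_log (x := F.leadingCoeff) (by simpa using h0)).smul
    (-(1 : ℝ) / ((F.natDegree : ℝ) - 1))
  simpa only [log_lam F hF] using this

lemma tot_lam (F : K[X]) (hF : 2 ≤ F.natDegree) : tot (fun v => Real.log (lam F v)) = 0 := by
  have h0 : F ≠ 0 := by rintro rfl; simp at hF
  simp only [log_lam F hF]
  rw [tot_smul, tot_log (by simpa using h0), mul_zero]

lemma hgt_nonneg (F : K[X]) (δ : K) : 0 ≤ hgt F δ := by
  rw [hgt, tot]
  have h : ∀ v : AbsoluteValue K ℝ, 0 ≤ Real.log (rad F δ v) :=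
    fun v => Real.log_nonneg (one_le_rad _ _ _)
  exact add_nonneg (Finset.sum_nonneg fun w _ => mul_nonneg (by positivity) (h _))
    (finsum_nonneg fun v => h _)

/-- one infinite place is bounded by the height -/
lemma inf_le_hgt (F : K[X]) (δ : K) (w : InfinitePlace K) :
    w.mult * Real.log (rad F δ w.val) ≤ hgt F δ := by
  rw [hgt, tot]
  have h : ∀ v : AbsoluteValue K ℝ, 0 ≤ Real.log (rad F δ v) :=
    fun v => Real.log_nonneg (one_le_rad _ _ _)
  have h1 := Finset.single_le_sum (f := fun w : InfinitePlace K =>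
    (w.mult : ℝ) * Real.log (rad F δ w.val)) (fun w _ => mul_nonneg (by positivity) (h _))
    (Finset.mem_univ w)
  have h2 : 0 ≤ ∑ᶠ v : FinitePlace K, Real.log (rad F δ v.val) := finsum_nonneg fun v => h _
  have h3 : (w.mult : ℝ) * Real.log (rad F δ w.val) ≤ ∑ w : InfinitePlace K,
    (w.mult : ℝ) * Real.log (rad F δ w.val) := h1
  linarith

/-- the Jacobian at an infinite place -/
lemma neg_log_delta_le (F : K[X]) (hF : 2 ≤ F.natDegree) (δ : K) (hδ : δ ≠ 0)
    (w : InfinitePlace K) :
    -Real.log (w.val δ) ≤ ((F.natDegree : ℝ) - 1) * hgt F δ := by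
  have hd1 : ((F.natDegree - 1 : ℕ) : ℝ) = (F.natDegree : ℝ) - 1 := by
    rw [Nat.cast_sub (by omega)]; simp
  have hle : ∀ v : AbsoluteValue K ℝ,
      Real.log (v δ) ≤ ((F.natDegree : ℝ) - 1) * Real.log (rad F δ v) := by
    intro v
    rw [← hd1, ← Real.log_pow]
    exact Real.log_le_log (v.pos hδ) (delta_le_rad F hF δ v)
  have h := tot_le_inf (FS_log hδ) ((FS_rad F hF δ hδ).smul ((F.natDegree : ℝ) - 1)) 0
    (((F.natDegree : ℝ) - 1) * Real.log (rad F δ w.val) - Real.log (w.val δ)) w
    (fun v => hle _) (fun w => by simpa using hle w.val) (by linarith)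
  rw [tot_log hδ, tot_smul, mul_zero, add_zero] at h
  have hm : (1 : ℝ) ≤ w.mult := by exact_mod_cast w.one_le_mult
  have hr : 0 ≤ Real.log (rad F δ w.val) := Real.log_nonneg (one_le_rad _ _ _)
  have hd2 : (1 : ℝ) ≤ (F.natDegree : ℝ) - 1 := by
    have : (2 : ℝ) ≤ F.natDegree := by exact_mod_cast hF
    linarith
  rcases le_or_gt 0 (Real.log (w.val δ)) with h3 | h3
  · have := mul_nonneg (by linarith : (0:ℝ) ≤ (F.natDegree : ℝ) - 1) (hgt_nonneg F δ)
    linarith
  · have h4 : hgt F δ = tot (fun v => Real.log (rad F δ v)) := rfl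
    rw [← h4] at h
    have h5 : 0 ≤ ((F.natDegree : ℝ) - 1) * Real.log (rad F δ w.val) := by positivity
    nlinarith

end H420R5
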